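import Mathlib

/-! Cyclic intervals and the determinant evaluation behind the Pdet identity. -/

namespace PdetCyc

open Finset Matrix

variable {K : ℕ}

/-- the cyclic interval `]i,j]` in `0,...,K` -/
def cyc (i j : Fin (K + 1)) : Finset (Fin (K + 1)) :=
  if i ≤ j then Finset.Ioc i j else Finset.Ioi i ∪ Finset.Iic j

lemma mem_cyc {i j u : Fin (K + 1)} : u ∈ cyc i j ↔
    ((i : ℕ) ≤ j ∧ (i : ℕ) < u ∧ (u : ℕ) ≤ j) ∨ ((j : ℕ) < i ∧ ((i : ℕ) < u ∨ (u : ℕ) ≤ j)) := by
  unfold cyc
  split_ifs with h
  · rw [Fin.le_def] at h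
    simp only [mem_Ioc, Fin.lt_def, Fin.le_def]
    omega
  · rw [Fin.le_def] at h
    simp only [mem_union, mem_Ioi, mem_Iic, Fin.lt_def, Fin.le_def]
    omega

lemma not_mem_cyc_self (b j : Fin (K + 1)) : b ∉ cyc b j := by
  rw [mem_cyc]; omega

lemma cyc_cover {i j b : Fin (K + 1)} (hib : i ≠ b) (h : b ∉ cyc i j) (u : Fin (K + 1)) :
    u ∈ cyc i b ∨ u ∈ cyc b j := by
  rw [mem_cyc] at h
  rw [mem_cyc, mem_cyc]
  have : (i : ℕ) ≠ b := fun e => hib (Fin.ext e)
  omega

lemma cyc_split {i j b : Fin (K + 1)} (h : b ∈ cyc i j) (u : Fin (K + 1)) :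
    u ∈ cyc i j ↔ (u ∈ cyc i b ∨ u ∈ cyc b j) := by
  rw [mem_cyc] at h
  rw [mem_cyc, mem_cyc, mem_cyc]
  omega

lemma cyc_disjoint {i i' j j' : Fin (K + 1)} (hne : i ≠ i') (h1 : i' ∉ cyc i j)
    (h2 : i ∉ cyc i' j') : Disjoint (cyc i j) (cyc i' j') := by
  rw [Finset.disjoint_left]
  intro u hu hu'
  rw [mem_cyc] at h1 h2 hu hu'
  have : (i : ℕ) ≠ i' := fun e => hne (Fin.ext e)
  omega

/-- the block of rows `a < K` with `f a = t`, seen inside `0,...,K` -/
def blk {r : ℕ} (f : Fin K → Fin r) (t : Fin r) : Finset (Fin (K + 1)) :=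
  (univ.filter (fun a : Fin K => f a = t)).image Fin.castSucc

lemma mem_blk {r : ℕ} {f : Fin K → Fin r} {t : Fin r} {u : Fin (K + 1)} :
    u ∈ blk f t ↔ ∃ a : Fin K, f a = t ∧ a.castSucc = u := by
  simp [blk]

lemma castSucc_mem_blk {r : ℕ} {f : Fin K → Fin r} {t : Fin r} {a : Fin K} :
    a.castSucc ∈ blk f t ↔ f a = t := by
  rw [mem_blk]
  constructor
  · rintro ⟨b, hb, e⟩
    rw [← Fin.castSucc_injective _ e]; exact hb
  · intro h; exact ⟨a, h, rfl⟩

lemma last_not_mem_blk {r : ℕ} {f : Fin K → Fin r} {t : Fin r} : Fin.last K ∉ blk f t := by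
  rw [mem_blk]
  rintro ⟨a, _, e⟩
  exact (Fin.castSucc_lt_last a).ne e

/-- matrix with prescribed first `K` rows and last row all ones -/
def rowsOf (g : Fin K → Fin (K + 1) → ℚ) : Matrix (Fin (K + 1)) (Fin (K + 1)) ℚ :=
  Matrix.of (Fin.snoc (α := fun _ => Fin (K + 1) → ℚ) g (fun _ => 1))

@[simp] lemma rowsOf_castSucc (g : Fin K → Fin (K + 1) → ℚ) (i : Fin K) (j : Fin (K + 1)) :
    rowsOf g i.castSucc j = g i j := by
  simp [rowsOf]

@[simp] lemma rowsOf_last (g : Fin K → Fin (K + 1) → ℚ) (j : Fin (K + 1)) :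
    rowsOf g (Fin.last K) j = 1 := by
  simp [rowsOf]

lemma rowsOf_scale (c : Fin K → ℚ) (g : Fin K → Fin (K + 1) → ℚ) :
    (rowsOf (fun i j => c i * g i j)).det = (∏ i, c i) * (rowsOf g).det := by
  have h := Matrix.det_mul_column (Fin.snoc (α := fun _ => ℚ) c 1) (rowsOf g)
  rw [Fin.prod_univ_castSucc] at h
  simp only [Fin.snoc_castSucc, Fin.snoc_last, mul_one] at h
  rw [← h]
  congr 1
  ext i j
  refine Fin.lastCases ?_ (fun i => ?_) i
  · simp
  · simp

/-- prefix products -/
def zz (y : Fin (K + 1) → ℚ) (j : Fin (K + 1)) : ℚ := ∏ u ∈ Finset.Iic j, y u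

lemma zz_pos {y : Fin (K + 1) → ℚ} (hy : ∀ u, 0 < y u) (j : Fin (K + 1)) : 0 < zz y j :=
  Finset.prod_pos fun u _ => hy u

lemma zz_last (y : Fin (K + 1) → ℚ) : zz y (Fin.last K) = ∏ u, y u := by
  unfold zz
  congr 1
  ext u
  simp [Fin.le_last]

lemma zz_le {y : Fin (K + 1) → ℚ} {i j : Fin (K + 1)} (h : i ≤ j) :
    zz y i * ∏ u ∈ Finset.Ioc i j, y u = zz y j := by
  unfold zz
  rw [← Finset.prod_union]
  · congr 1
    ext u
    simp only [mem_union, mem_Iic, mem_Ioc, Fin.le_def, Fin.lt_def] at *
    omega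
  · rw [Finset.disjoint_left]
    intro u hu hu'
    simp only [mem_Iic, mem_Ioc, Fin.le_def, Fin.lt_def] at *
    omega

lemma zz_cyc (y : Fin (K + 1) → ℚ) (i j : Fin (K + 1)) :
    zz y i * ∏ u ∈ cyc i j, y u = zz y j * (if i ≤ j then 1 else ∏ u, y u) := by
  by_cases h : i ≤ j
  · have : cyc i j = Finset.Ioc i j := by unfold cyc; rw [if_pos h]
    rw [this, zz_le h, if_pos h, mul_one]
  · have : cyc i j = Finset.Ioi i ∪ Finset.Iic j := by unfold cyc; rw [if_neg h]
    rw [this, if_neg h, Finset.prod_union]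
    · have h1 : zz y i * ∏ u ∈ Finset.Ioi i, y u = ∏ u, y u := by
        unfold zz
        rw [← Finset.prod_union]
        · congr 1
          ext u
          simp only [mem_union, mem_Iic, mem_Ioi, mem_univ, iff_true]
          exact le_or_gt u i
        · rw [Finset.disjoint_left]
          intro u hu hu'
          simp only [mem_Iic, mem_Ioi] at *
          exact absurd hu (not_le.mpr hu')
      rw [← mul_assoc, h1]
      unfold zz
      ring
    · rw [Finset.disjoint_left]
      intro u hu hu'
      simp only [mem_Iic, mem_Ioi] at *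
      exact absurd (lt_of_lt_of_le hu hu') (fun h' => h h'.le)

/-- the first row with the same value of `f` -/
lemma exists_min {r : ℕ} (f : Fin K → Fin r) : ∃ m : Fin K → Fin K,
    ∀ i, f (m i) = f i ∧ ∀ a, f a = f i → m i ≤ a := by
  have h : ∀ i, ∃ m : Fin K, f m = f i ∧ ∀ a, f a = f i → m ≤ a := by
    intro i
    have hne : (univ.filter (fun a : Fin K => f a = f i)).Nonempty := ⟨i, by simp⟩
    refine ⟨(univ.filter (fun a : Fin K => f a = f i)).min' hne, ?_, ?_⟩
    · have := Finset.min'_mem _ hne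
      simpa using this
    · intro a ha
      exact Finset.min'_le _ _ (by simp [ha])
  choose m hm using h
  exact ⟨m, hm⟩

/-- the key sum: exactly one row of the block sees the column `j` -/
lemma block_sum {r : ℕ} (f : Fin K → Fin r) (m : Fin K → Fin K)
    (hm : ∀ i, f (m i) = f i ∧ ∀ a, f a = f i → m i ≤ a) (Y : ℚ) (i : Fin K) (j : Fin (K + 1)) :
    ∑ a : Fin K, (if f i = f a ∧ i ≤ a then
      (if Disjoint (cyc a.castSucc j) (blk f (f a)) then (if a.castSucc ≤ j then 1 else Y) else 0)
      else 0) =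
    (if i.castSucc ≤ j then 1 else 0) + (if j < (m i).castSucc then Y else 0) := by
  classical
  -- description of the disjointness condition
  have hdis : ∀ a : Fin K, Disjoint (cyc a.castSucc j) (blk f (f a)) ↔
      ∀ b : Fin K, f b = f a → b.castSucc ∉ cyc a.castSucc j := by
    intro a
    rw [Finset.disjoint_right]
    constructor
    · intro h b hb
      exact h (castSucc_mem_blk.mpr hb)
    · intro h u hu
      obtain ⟨b, hb, rfl⟩ := mem_blk.mp hu
      exact h b hb
  by_cases hcase : ∃ a : Fin K, f a = f i ∧ a.castSucc ≤ j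
  · -- the largest element of the block that is at most `j`
    have hne : (univ.filter (fun a : Fin K => f a = f i ∧ a.castSucc ≤ j)).Nonempty := by
      obtain ⟨a, ha⟩ := hcase; exact ⟨a, by simp [ha.1, ha.2]⟩
    obtain ⟨s, hs, hmax⟩ : ∃ s : Fin K, (f s = f i ∧ s.castSucc ≤ j) ∧
        ∀ a, f a = f i → a.castSucc ≤ j → a ≤ s := by
      refine ⟨(univ.filter (fun a : Fin K => f a = f i ∧ a.castSucc ≤ j)).max' hne, ?_, ?_⟩
      · have := Finset.max'_mem _ hne
        simpa using this
      · intro a h1 h2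
        exact Finset.le_max' _ _ (by simp [h1, h2])
    have hmj : ¬ j < (m i).castSucc := by
      have h1 := (hm i).2 s hs.1
      have h2 := hs.2
      simp only [Fin.le_def, Fin.lt_def, Fin.val_castSucc] at *
      omega
    rw [if_neg hmj, add_zero, Finset.sum_eq_single s]
    · have hd : Disjoint (cyc s.castSucc j) (blk f (f s)) := by
        rw [hdis]
        intro b hb hmem
        rw [mem_cyc] at hmem
        have h2 := hs.2
        have h3 := hmax b (hb.trans hs.1)
        simp only [Fin.le_def, Fin.val_castSucc] at *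
        omega
      rw [if_pos hd, if_pos hs.2]
      by_cases hij : i.castSucc ≤ j
      · rw [if_pos ⟨hs.1.symm, hmax i rfl hij⟩, if_pos hij]
      · rw [if_neg hij, if_neg]
        rintro ⟨_, h⟩
        apply hij
        have h2 := hs.2
        simp only [Fin.le_def, Fin.val_castSucc] at *
        omega
    · intro a _ hne
      split_ifs with h1 h2 h3
      · exfalso
        -- `a ≤ j`, so `a ≤ s`, and `s` lies in `]a,j]`
        have h4 := hmax a h1.1.symm h3
        have h5 := (hdis a).mp h2 s (hs.1.trans h1.1)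
        apply h5
        rw [mem_cyc]
        have h6 := hs.2
        have h7 : (a : ℕ) ≠ s := fun e => hne (Fin.ext e)
        simp only [Fin.le_def, Fin.val_castSucc] at *
        omega
      · exfalso
        have h5 := (hdis a).mp h2 s (hs.1.trans h1.1)
        apply h5
        rw [mem_cyc]
        have h6 := hs.2
        simp only [Fin.le_def, Fin.val_castSucc] at *
        omega
      · rfl
      · rfl
    · intro h; exact absurd (mem_univ _) h
  · -- all elements of the block are larger than `j`; take the largest one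
    push Not at hcase
    have hne : (univ.filter (fun a : Fin K => f a = f i)).Nonempty := ⟨i, by simp⟩
    obtain ⟨s, hs, hmax⟩ : ∃ s : Fin K, f s = f i ∧ ∀ a, f a = f i → a ≤ s := by
      refine ⟨(univ.filter (fun a : Fin K => f a = f i)).max' hne, ?_, ?_⟩
      · have := Finset.max'_mem _ hne
        simpa using this
      · intro a h1
        exact Finset.le_max' _ _ (by simp [h1])
    have hij : ¬ i.castSucc ≤ j := not_le.mpr (hcase i rfl)
    have hmj : j < (m i).castSucc := hcase (m i) (hm i).1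
    rw [if_neg hij, if_pos hmj, zero_add, Finset.sum_eq_single s]
    · have hd : Disjoint (cyc s.castSucc j) (blk f (f s)) := by
        rw [hdis]
        intro b hb hmem
        rw [mem_cyc] at hmem
        have h2 := hcase s hs
        have h3 := hmax b (hb.trans hs)
        have h4 := hcase b (hb.trans hs)
        simp only [Fin.le_def, Fin.lt_def, Fin.val_castSucc] at *
        omega
      rw [if_pos hd, if_pos ⟨hs.symm, hmax i rfl⟩, if_neg (not_le.mpr (hcase s hs))]
    · intro a _ hne
      split_ifs with h1 h2 h3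
      · exfalso
        exact absurd h3 (not_le.mpr (hcase a h1.1.symm))
      · exfalso
        have h4 := hmax a h1.1.symm
        have h5 := (hdis a).mp h2 s (hs.trans h1.1)
        apply h5
        rw [mem_cyc]
        have h6 := hcase a h1.1.symm
        have h7 : (a : ℕ) ≠ s := fun e => hne (Fin.ext e)
        simp only [Fin.le_def, Fin.lt_def, Fin.val_castSucc] at *
        omega
      · rfl
      · rfl
    · intro h; exact absurd (mem_univ _) h

end PdetCyc
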