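import Mathlib
import Pool.Agent.V11177.PdetCyc

/-! Evaluation of the averaged determinant. -/

namespace PdetCyc

open Finset Matrix

variable {K : ℕ}

/-- square matrix built from a `K × K` block and a last row and column equal to those of `1` -/
def ext1 (A : Fin K → Fin K → ℚ) : Matrix (Fin (K + 1)) (Fin (K + 1)) ℚ :=
  Matrix.of (fun i a => Fin.lastCases (motive := fun _ => ℚ) (if a = Fin.last K then 1 else 0)
    (fun i => Fin.lastCases (motive := fun _ => ℚ) 0 (fun a => A i a) a) i)

@[simp] lemma ext1_cc (A : Fin K → Fin K → ℚ) (i a : Fin K) :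
    ext1 A i.castSucc a.castSucc = A i a := by simp [ext1]
@[simp] lemma ext1_cl (A : Fin K → Fin K → ℚ) (i : Fin K) :
    ext1 A i.castSucc (Fin.last K) = 0 := by simp [ext1]
@[simp] lemma ext1_lc (A : Fin K → Fin K → ℚ) (a : Fin K) :
    ext1 A (Fin.last K) a.castSucc = 0 := by simp [ext1]
@[simp] lemma ext1_ll (A : Fin K → Fin K → ℚ) :
    ext1 A (Fin.last K) (Fin.last K) = 1 := by simp [ext1]

lemma ext1_mul (A : Fin K → Fin K → ℚ) (g : Fin K → Fin (K + 1) → ℚ) :
    ext1 A * rowsOf g = rowsOf (fun i j => ∑ a, A i a * g a j) := by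
  ext i j
  rw [Matrix.mul_apply, Fin.sum_univ_castSucc]
  refine Fin.lastCases ?_ (fun i => ?_) i
  · simp
  · simp

lemma ext1_det_upper (A : Fin K → Fin K → ℚ) (h : ∀ i a, a < i → A i a = 0) :
    (ext1 A).det = ∏ i, A i i := by
  have ht : (ext1 A).IsUpperTriangular := by
    intro i j hij
    have hij' : j < i := hij
    revert hij'
    refine Fin.lastCases ?_ (fun i => ?_) i
    · refine Fin.lastCases ?_ (fun j => ?_) j
      · intro h; exact absurd h (lt_irrefl _)
      · intro _; simp
    · refine Fin.lastCases ?_ (fun j => ?_) j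
      · intro h; exact absurd h (not_lt.mpr (Fin.le_last _))
      · intro hlt; rw [ext1_cc]; exact h i j (by simpa using hlt)
  rw [Matrix.det_of_isUpperTriangular ht, Fin.prod_univ_castSucc]
  simp

lemma ext1_det_lower (A : Fin K → Fin K → ℚ) (h : ∀ i a, i < a → A i a = 0) :
    (ext1 A).det = ∏ i, A i i := by
  have ht : (ext1 A).IsLowerTriangular := by
    intro i j hij
    have hij' : i < j := hij
    revert hij'
    refine Fin.lastCases ?_ (fun i => ?_) i
    · refine Fin.lastCases ?_ (fun j => ?_) j
      · intro h; exact absurd h (lt_irrefl _)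
      · intro _; simp
    · refine Fin.lastCases ?_ (fun j => ?_) j
      · intro _; simp
      · intro hlt; rw [ext1_cc]; exact h i j (by simpa using hlt)
  rw [Matrix.det_of_isLowerTriangular _ ht, Fin.prod_univ_castSucc]
  simp

/-- entries of the averaged matrix -/
def Yp {r : ℕ} (y : Fin (K + 1) → ℚ) (f : Fin K → Fin r) (a : Fin K) (j : Fin (K + 1)) : ℚ :=
  if Disjoint (cyc a.castSucc j) (blk f (f a)) then ∏ u ∈ cyc a.castSucc j, y u else 0

lemma card_min {r : ℕ} (f : Fin K → Fin r) (hf : Function.Surjective f) (m : Fin K → Fin K)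
    (hm : ∀ i, f (m i) = f i ∧ ∀ a, f a = f i → m i ≤ a) :
    (univ.filter (fun i : Fin K => m i = i)).card = r := by
  have h1 : (univ.filter (fun i : Fin K => m i = i)).card = (univ : Finset (Fin r)).card := by
    apply Finset.card_bij (fun i _ => f i)
    · intro i _; exact mem_univ _
    · intro i hi a ha hia
      simp only [mem_filter, mem_univ, true_and] at hi ha
      have h2 := (hm i).2 a hia.symm
      have h3 := (hm a).2 i hia
      rw [hi] at h2; rw [ha] at h3
      exact le_antisymm h2 h3
    · intro t _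
      obtain ⟨i, hi⟩ := hf t
      refine ⟨m i, ?_, (hm i).1.trans hi⟩
      simp only [mem_filter, mem_univ, true_and]
      apply le_antisymm
      · exact (hm (m i)).2 (m i) rfl
      · exact (hm i).2 _ ((hm (m i)).1.trans (hm i).1)
  rw [h1]; simp

lemma det_F (hK : 0 < K) (y : Fin (K + 1) → ℚ) (hy : ∀ u, 0 < y u) (c : ℚ) (hc : 0 ≤ c) :
    (rowsOf (fun (i : Fin K) j => zz y j * ((if i.castSucc ≤ j then 1 else 0) + c))).det =
      (∏ j : Fin K, zz y j.castSucc) * ((1 + c) * (1 - y (Fin.last K))) := by
  obtain ⟨n, rfl⟩ : ∃ n, K = n + 1 := ⟨K - 1, by omega⟩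
  have hz : ∀ j, zz y j ≠ 0 := fun j => (zz_pos hy j).ne'
  -- factor the columns
  set G0 : Matrix (Fin (n + 1 + 1)) (Fin (n + 1 + 1)) ℚ := Matrix.of (fun i j =>
    Fin.lastCases (motive := fun _ => ℚ) (1 / zz y j)
      (fun i : Fin (n + 1) => (if i.castSucc ≤ j then (1 : ℚ) else 0) + c) i) with hG0
  have h0 : (rowsOf (fun (i : Fin (n + 1)) j => zz y j * ((if i.castSucc ≤ j then 1 else 0) + c)))
      = Matrix.of (fun i j => zz y j * G0 i j) := by
    ext i j
    refine Fin.lastCases ?_ (fun i => ?_) i
    · simp only [rowsOf_last, hG0, Matrix.of_apply, Fin.lastCases_last]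
      field_simp [hz j]
    · simp only [rowsOf_castSucc, hG0, Matrix.of_apply, Fin.lastCases_castSucc]
  rw [h0, Matrix.det_mul_row]
  -- row operations with row `0`
  set G1 : Matrix (Fin (n + 1 + 1)) (Fin (n + 1 + 1)) ℚ := Matrix.of (fun i j =>
    (if i = 0 then 1 + c else 1) * Fin.lastCases (motive := fun _ => ℚ) (1 / zz y j)
      (fun i : Fin (n + 1) => (if i.castSucc ≤ j then (1 : ℚ) else 0)) i) with hG1
  have h1 : G0.det = G1.det := by
    apply Matrix.det_eq_of_forall_row_eq_smul_add_const
      (fun i => Fin.lastCases (motive := fun _ => ℚ) 0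
        (fun i : Fin (n + 1) => if i = 0 then 0 else c / (1 + c)) i) 0
    · have : (0 : Fin (n + 1 + 1)) = (0 : Fin (n + 1)).castSucc := rfl
      rw [this, Fin.lastCases_castSucc, if_pos rfl]
    · intro i j
      have e0 : G1 0 j = 1 + c := by
        have : (0 : Fin (n + 1 + 1)) = (0 : Fin (n + 1)).castSucc := rfl
        simp only [hG1, Matrix.of_apply]
        rw [this, Fin.lastCases_castSucc]
        simp
      rw [e0]
      refine Fin.lastCases ?_ (fun i => ?_) i
      · simp only [hG0, hG1, Matrix.of_apply, Fin.lastCases_last]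
        rw [if_neg (by simp [Fin.ext_iff])]
        ring
      · simp only [hG0, hG1, Matrix.of_apply, Fin.lastCases_castSucc]
        by_cases hi : i = 0
        · subst hi
          simp
        · have hi' : i.castSucc ≠ 0 := by
            intro e; apply hi
            exact Fin.castSucc_injective _ (by rw [e]; rfl)
          rw [if_neg hi', if_neg hi]
          have : (1 + c) ≠ 0 := by positivity
          field_simp
  rw [h1]
  -- factor row `0`
  set G2 : Matrix (Fin (n + 1 + 1)) (Fin (n + 1 + 1)) ℚ := Matrix.of (fun i j =>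
    Fin.lastCases (motive := fun _ => ℚ) (1 / zz y j)
      (fun i : Fin (n + 1) => (if i.castSucc ≤ j then (1 : ℚ) else 0)) i) with hG2
  have h2 : G1.det = (1 + c) * G2.det := by
    have := Matrix.det_mul_column (fun i : Fin (n + 1 + 1) => if i = 0 then 1 + c else 1) G2
    rw [Finset.prod_ite_eq' univ (0 : Fin (n + 1 + 1)) (fun _ => 1 + c), if_pos (mem_univ _)] at this
    rw [← this]
    rfl
  rw [h2]
  -- column differences
  set G3 : Matrix (Fin (n + 1 + 1)) (Fin (n + 1 + 1)) ℚ := Matrix.of (fun i j =>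
    Fin.cases (motive := fun _ => ℚ) (G2 i 0) (fun j => G2 i j.succ - G2 i j.castSucc) j) with hG3
  have h3 : G2.det = G3.det := by
    apply Matrix.det_eq_of_forall_col_eq_smul_add_pred (fun _ => 1)
    · intro i; simp [hG3]
    · intro i j; simp [hG3]
  have hG3c : ∀ (i : Fin (n + 1)) (j : Fin (n + 1 + 1)), G3 i.castSucc j =
      if i.castSucc = j then 1 else 0 := by
    intro i j
    refine Fin.cases ?_ (fun j => ?_) j
    · simp only [hG3, hG2, Matrix.of_apply, Fin.cases_zero, Fin.lastCases_castSucc, Fin.le_def,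
        Fin.ext_iff]
      simp
    · simp only [hG3, hG2, Matrix.of_apply, Fin.cases_succ, Fin.lastCases_castSucc, Fin.le_def,
        Fin.ext_iff, Fin.val_castSucc, Fin.val_succ]
      split_ifs <;> first | omega | norm_num
  have hG3l : G3 (Fin.last _) (Fin.last _) = (1 - y (Fin.last _)) / zz y (Fin.last _) := by
    have hl : Fin.last (n + 1) = (Fin.last n).succ := rfl
    have h4 : G3 (Fin.last _) (Fin.last n).succ = 1 / zz y (Fin.last n).succ -
        1 / zz y (Fin.last n).castSucc := by
      simp only [hG3, hG2, Matrix.of_apply, Fin.cases_succ, Fin.lastCases_last]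
    have h5 : zz y (Fin.last n).succ = zz y (Fin.last n).castSucc * y (Fin.last n).succ := by
      rw [← zz_le (y := y) (i := (Fin.last n).castSucc) (j := (Fin.last n).succ)
        (by simp [Fin.le_def])]
      congr 1
      have : Finset.Ioc (Fin.last n).castSucc (Fin.last n).succ = {(Fin.last n).succ} := by
        ext u
        simp only [mem_Ioc, mem_singleton, Fin.lt_def, Fin.le_def, Fin.ext_iff, Fin.val_castSucc,
          Fin.val_succ, Fin.val_last]
        omega
      rw [this, Finset.prod_singleton]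
    have hz1 := hz (Fin.last n).castSucc
    have hy1 := (hy (Fin.last n).succ).ne'
    conv_lhs => rw [show G3 (Fin.last (n + 1)) (Fin.last (n + 1)) =
      G3 (Fin.last (n + 1)) (Fin.last n).succ from rfl]
    rw [h4, hl, h5]
    field_simp
  have htri : G3.IsLowerTriangular := by
    intro i j hij
    have hij' : i < j := hij
    revert hij'
    refine Fin.lastCases ?_ (fun i => ?_) i
    · intro h; exact absurd h (not_lt.mpr (Fin.le_last _))
    · intro h; rw [hG3c, if_neg h.ne]
  have hdet3 : G3.det = (∏ i : Fin (n + 1), G3 i.castSucc i.castSucc) *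
      G3 (Fin.last (n + 1)) (Fin.last (n + 1)) := by
    rw [Matrix.det_of_isLowerTriangular _ htri]
    exact Fin.prod_univ_castSucc (fun i => G3 i i)
  rw [h3, hdet3, hG3l, Fin.prod_univ_castSucc]
  have h6 : ∏ i : Fin (n + 1), G3 i.castSucc i.castSucc = 1 := by
    apply Finset.prod_eq_one
    intro i _
    rw [hG3c, if_pos rfl]
  rw [h6]
  have := hz (Fin.last (n + 1))
  field_simp

theorem det_Yp {r : ℕ} (hK : 0 < K) (y : Fin (K + 1) → ℚ) (hy : ∀ u, 0 < y u)
    (hy1 : ∀ u, y u < 1) (f : Fin K → Fin r) (hf : Function.Surjective f) (hr : 1 ≤ r) :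
    (rowsOf (Yp y f)).det = (1 - ∏ u, y u) ^ (r - 1) * (1 - y (Fin.last K)) := by
  classical
  obtain ⟨m, hm⟩ := exists_min f
  set Y : ℚ := ∏ u, y u with hY
  have hY0 : 0 < Y := Finset.prod_pos fun u _ => hy u
  have hY1 : Y < 1 := by
    have h1 : Y = (∏ i : Fin K, y i.castSucc) * y (Fin.last K) := by
      rw [hY, Fin.prod_univ_castSucc]
    have h2 : ∏ i : Fin K, y i.castSucc ≤ 1 :=
      Finset.prod_le_one (fun i _ => (hy _).le) (fun i _ => (hy1 _).le)
    have h3 : 0 < ∏ i : Fin K, y i.castSucc := Finset.prod_pos fun i _ => hy _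
    have h4 := hy1 (Fin.last K)
    have h5 := hy (Fin.last K)
    rw [h1]; nlinarith
  have hzne : ∏ i : Fin K, zz y i.castSucc ≠ 0 :=
    (Finset.prod_pos fun i _ => zz_pos hy _).ne'
  -- scaled matrix
  have hs := rowsOf_scale (fun a : Fin K => zz y a.castSucc) (Yp y f)
  have hent : ∀ (a : Fin K) j, zz y a.castSucc * Yp y f a j = zz y j *
      (if Disjoint (cyc a.castSucc j) (blk f (f a)) then (if a.castSucc ≤ j then 1 else Y) else 0) := by
    intro a j
    unfold Yp
    split_ifs with h1 h2
    · rw [zz_cyc, if_pos h2]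
    · rw [zz_cyc, if_neg h2]
    · ring
  -- multiply by V
  have hV := ext1_mul (fun i a : Fin K => if f i = f a ∧ i ≤ a then (1 : ℚ) else 0)
    (fun a j => zz y a.castSucc * Yp y f a j)
  have hVdet : (ext1 (fun i a : Fin K => if f i = f a ∧ i ≤ a then (1 : ℚ) else 0)).det = 1 := by
    rw [ext1_det_upper]
    · simp
    · intro i a hlt
      rw [if_neg]
      rintro ⟨_, h⟩
      exact absurd hlt (not_lt.mpr h)
  have hT : (fun (i : Fin K) (j : Fin (K + 1)) => ∑ a, (if f i = f a ∧ i ≤ a then (1 : ℚ) else 0) *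
      (zz y a.castSucc * Yp y f a j)) = fun i j => zz y j *
        ((if i.castSucc ≤ j then 1 else 0) + (if j < (m i).castSucc then Y else 0)) := by
    funext i j
    rw [← block_sum f m hm Y i j, Finset.mul_sum]
    refine Finset.sum_congr rfl fun a _ => ?_
    rw [hent]
    split_ifs <;> ring
  rw [hT] at hV
  -- factor through F
  set c : ℚ := Y / (1 - Y) with hc
  have h1Y : 1 - Y ≠ 0 := by linarith
  have hc0 : 0 ≤ c := div_nonneg hY0.le (by linarith)
  have hC := ext1_mul (fun i a : Fin K => (if a = i then (1 : ℚ) else 0) - (if a = m i then Y else 0))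
    (fun a j => zz y j * ((if a.castSucc ≤ j then 1 else 0) + c))
  have hCdet : (ext1 (fun i a : Fin K => (if a = i then (1 : ℚ) else 0) -
      (if a = m i then Y else 0))).det = (1 - Y) ^ r := by
    rw [ext1_det_lower]
    · have : ∀ i : Fin K, ((if i = i then (1 : ℚ) else 0) - (if i = m i then Y else 0)) =
          if m i = i then 1 - Y else 1 := by
        intro i
        rw [if_pos rfl]
        by_cases h : m i = i
        · rw [if_pos h.symm, if_pos h]
        · rw [if_neg (fun e => h e.symm), if_neg h]; ring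
      rw [Finset.prod_congr rfl (fun i _ => this i), Finset.prod_ite, Finset.prod_const,
        Finset.prod_const_one, mul_one, card_min f hf m hm]
    · intro i a hlt
      have h1 := (hm i).2 i rfl
      have hne : a ≠ m i := by rintro rfl; exact absurd h1 (not_le.mpr hlt)
      rw [if_neg hlt.ne', if_neg hne]
      ring
  have hCT : (fun (i : Fin K) (j : Fin (K + 1)) => ∑ a, ((if a = i then (1 : ℚ) else 0) -
      (if a = m i then Y else 0)) * (zz y j * ((if a.castSucc ≤ j then 1 else 0) + c))) =
      fun i j => zz y j *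
        ((if i.castSucc ≤ j then 1 else 0) + (if j < (m i).castSucc then Y else 0)) := by
    funext i j
    simp only [sub_mul, Finset.sum_sub_distrib, ite_mul, one_mul, zero_mul,
      Finset.sum_ite_eq', mem_univ, if_true]
    have hcY : c - Y * c = Y := by rw [hc]; field_simp
    by_cases h1 : (m i).castSucc ≤ j
    · rw [if_pos h1, if_neg (not_lt.mpr h1)]
      linear_combination (zz y j) * hcY
    · rw [if_neg h1, if_pos (not_le.mp h1)]
      linear_combination (zz y j) * hcY
  rw [hCT] at hC
  have hF := det_F hK y hy c hc0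
  have e1 : (rowsOf (fun (a : Fin K) j => zz y a.castSucc * Yp y f a j)).det =
      (1 - Y) ^ r * ((∏ j : Fin K, zz y j.castSucc) * ((1 + c) * (1 - y (Fin.last K)))) := by
    have h1 := congrArg Matrix.det hV
    have h2 := congrArg Matrix.det hC
    rw [Matrix.det_mul, hVdet, one_mul] at h1
    rw [Matrix.det_mul, hCdet, hF] at h2
    rw [h1, ← h2]
  rw [hs] at e1
  have h1c : (1 - Y) * (1 + c) = 1 := by rw [hc]; field_simp; ring
  obtain ⟨r', rfl⟩ : ∃ r', r = r' + 1 := ⟨r - 1, by omega⟩
  have e2 : (∏ i : Fin K, zz y i.castSucc) * (rowsOf (Yp y f)).det =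
      (∏ i : Fin K, zz y i.castSucc) * ((1 - Y) ^ r' * (1 - y (Fin.last K))) := by
    rw [e1, pow_succ]
    linear_combination ((1 - Y) ^ r' * (∏ i : Fin K, zz y i.castSucc) * (1 - y (Fin.last K))) * h1c
  exact mul_left_cancel₀ hzne e2

end PdetCyc
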