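import Mathlib
import Pool.Agent.V11177.PdetCyc
import Pool.Agent.V11177.PdetDet

/-! Toggling and averaging for the Pdet identity. -/

namespace PdetCyc

open Finset Matrix

variable {K r : ℕ}

/-- `r`-tuples of subsets of `{0,...,K}` -/
abbrev Tup (K r : ℕ) := Fin r → Finset (Fin (K + 1))

/-- indicator matrix with rows `[cyc i j ⊆ T (f i)]` and a last row of ones -/
def eM (f : Fin K → Fin r) (T : Tup K r) : Matrix (Fin (K + 1)) (Fin (K + 1)) ℚ :=
  rowsOf (fun i j => if cyc i.castSucc j ⊆ T (f i) then 1 else 0)

lemma det_zero_of_row_ones (g : Fin K → Fin (K + 1) → ℚ) (b : Fin K) (h : ∀ j, g b j = 1) :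
    (rowsOf g).det = 0 := by
  apply Matrix.det_zero_of_row_eq (i := b.castSucc) (j := Fin.last K)
    (Fin.castSucc_lt_last b).ne
  funext j
  simp [h]

lemma toggle (f : Fin K → Fin r) (T : Tup K r) (b : Fin K) :
    (eM f (Function.update T (f b) ((T (f b)).erase b.castSucc))).det = (eM f T).det := by
  classical
  by_cases hb : b.castSucc ∈ T (f b)
  swap
  · have : Function.update T (f b) ((T (f b)).erase b.castSucc) = T := by
      rw [Finset.erase_eq_of_notMem hb, Function.update_eq_self]
    rw [this]
  set T' := Function.update T (f b) ((T (f b)).erase b.castSucc) with hT'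
  have hT'b : T' (f b) = (T (f b)).erase b.castSucc := by simp [hT']
  have hT'o : ∀ t, t ≠ f b → T' t = T t := by
    intro t ht; simp [hT', ht]
  -- row `b` is the same in both
  have hrow : ∀ j, (cyc b.castSucc j ⊆ T' (f b) ↔ cyc b.castSucc j ⊆ T (f b)) := by
    intro j
    rw [hT'b]
    constructor
    · intro h; exact h.trans (Finset.erase_subset _ _)
    · intro h u hu
      rw [Finset.mem_erase]
      refine ⟨?_, h hu⟩
      rintro rfl
      exact not_mem_cyc_self _ _ hu
  by_cases hfull : T (f b) = univ
  · unfold eM
    rw [det_zero_of_row_ones _ b, det_zero_of_row_ones _ b]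
    · intro j; rw [if_pos]; rw [hfull]; exact subset_univ _
    · intro j; rw [if_pos]; rw [hrow, hfull]; exact subset_univ _
  symm
  apply Matrix.det_eq_of_forall_row_eq_smul_add_const
    (fun i => Fin.lastCases (motive := fun _ => ℚ) 0
      (fun i : Fin K => if f i = f b ∧ i ≠ b ∧ (cyc i.castSucc b.castSucc).erase b.castSucc ⊆ T (f b)
        then 1 else 0) i) b.castSucc
  · rw [Fin.lastCases_castSucc, if_neg]
    rintro ⟨_, h, _⟩; exact h rfl
  · intro i j
    refine Fin.lastCases ?_ (fun i => ?_) i
    · simp [eM]
    · simp only [eM, rowsOf_castSucc, Fin.lastCases_castSucc]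
      by_cases hfi : f i = f b
      swap
      · rw [if_neg (fun h : f i = f b ∧ _ => hfi h.1), hT'o _ hfi]; ring
      by_cases hib : i = b
      · subst hib
        rw [if_neg (fun h : _ ∧ i ≠ i ∧ _ => h.2.1 rfl)]
        simp only [hrow]; ring
      have hib' : i.castSucc ≠ b.castSucc := fun e => hib (Fin.castSucc_injective _ e)
      rw [hfi]
      by_cases hmem : b.castSucc ∈ cyc i.castSucc j
      · -- `b` is in the interval
        have h1 : ¬ cyc i.castSucc j ⊆ T' (f b) := by
          intro h
          have := h hmem
          rw [hT'b] at this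
          exact absurd rfl (Finset.mem_erase.mp this).1
        rw [if_neg h1, zero_add]
        have h2 : cyc i.castSucc j ⊆ T (f b) ↔
            ((cyc i.castSucc b.castSucc).erase b.castSucc ⊆ T (f b) ∧
              cyc b.castSucc j ⊆ T' (f b)) := by
          constructor
          · intro h
            constructor
            · intro u hu
              exact h ((cyc_split hmem u).mpr (Or.inl (Finset.mem_of_mem_erase hu)))
            · rw [hrow]
              intro u hu
              exact h ((cyc_split hmem u).mpr (Or.inr hu))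
          · rintro ⟨h3, h4⟩ u hu
            rcases (cyc_split hmem u).mp hu with h | h
            · by_cases hub : u = b.castSucc
              · rw [hub]; exact hb
              · exact h3 (Finset.mem_erase.mpr ⟨hub, h⟩)
            · exact (hrow j).mp h4 h
        by_cases h3 : (cyc i.castSucc b.castSucc).erase b.castSucc ⊆ T (f b)
        · rw [if_pos (⟨rfl, hib, h3⟩ : f b = f b ∧ i ≠ b ∧ _), one_mul]
          by_cases h4 : cyc b.castSucc j ⊆ T' (f b)
          · rw [if_pos (h2.mpr ⟨h3, h4⟩), if_pos h4]
          · rw [if_neg (fun h => h4 (h2.mp h).2), if_neg h4]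
        · rw [if_neg (fun h => h3 (h2.mp h).1), if_neg (fun h : f b = f b ∧ i ≠ b ∧ _ => h3 h.2.2),
            zero_mul]
      · -- `b` is not in the interval
        have h1 : cyc i.castSucc j ⊆ T (f b) ↔ cyc i.castSucc j ⊆ T' (f b) := by
          rw [hT'b]
          constructor
          · intro h u hu
            rw [Finset.mem_erase]
            refine ⟨?_, h hu⟩
            rintro rfl
            exact hmem hu
          · intro h; exact h.trans (Finset.erase_subset _ _)
        have h2 : ¬ ((cyc i.castSucc b.castSucc).erase b.castSucc ⊆ T (f b) ∧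
              cyc b.castSucc j ⊆ T' (f b)) := by
          rintro ⟨h3, h4⟩
          apply hfull
          rw [Finset.eq_univ_iff_forall]
          intro u
          rcases cyc_cover hib' hmem u with h | h
          · by_cases hub : u = b.castSucc
            · rw [hub]; exact hb
            · exact h3 (Finset.mem_erase.mpr ⟨hub, h⟩)
          · exact (hrow j).mp h4 h
        by_cases h3 : (cyc i.castSucc b.castSucc).erase b.castSucc ⊆ T (f b)
        · have h4 : ¬ cyc b.castSucc j ⊆ T' (f b) := fun h => h2 ⟨h3, h⟩
          rw [if_neg h4, mul_zero, add_zero]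
          simp only [h1]
        · rw [if_neg (fun h : f b = f b ∧ i ≠ b ∧ _ => h3 h.2.2), zero_mul, add_zero]
          simp only [h1]

lemma toggle_all (f : Fin K → Fin r) (T : Tup K r) :
    (eM f (fun t => T t \ blk f t)).det = (eM f T).det := by
  classical
  have key : ∀ B : Finset (Fin K),
      (eM f (fun t => T t \ ((B.filter (fun a => f a = t)).image Fin.castSucc))).det
        = (eM f T).det := by
    intro B
    induction B using Finset.induction_on with
    | empty => simp
    | insert b B hbB ih =>
        rw [← ih, ← toggle f (fun t => T t \ ((B.filter (fun a => f a = t)).image Fin.castSucc)) b]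
        congr 2
        funext t
        by_cases ht : t = f b
        · subst ht
          rw [Function.update_self]
          ext u
          simp only [mem_sdiff, mem_image, mem_filter, mem_insert, mem_erase, not_exists, not_and]
          constructor
          · rintro ⟨h1, h2⟩
            refine ⟨?_, h1, ?_⟩
            · rintro rfl
              exact h2 b ⟨Or.inl rfl, rfl⟩ rfl
            · intro a ha
              exact h2 a ⟨Or.inr ha.1, ha.2⟩
          · rintro ⟨h1, h2, h3⟩
            refine ⟨h2, ?_⟩
            rintro a ⟨rfl | ha, ha2⟩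
            · exact fun e => h1 e.symm
            · exact h3 a ⟨ha, ha2⟩
        · rw [Function.update_of_ne ht]
          ext u
          simp only [mem_sdiff, mem_image, mem_filter, mem_insert, not_exists, not_and]
          constructor
          · rintro ⟨h1, h2⟩
            refine ⟨h1, ?_⟩
            intro a ha
            exact h2 a ⟨Or.inr ha.1, ha.2⟩
          · rintro ⟨h1, h3⟩
            refine ⟨h1, ?_⟩
            rintro a ⟨rfl | ha, ha2⟩
            · exact absurd ha2.symm ht
            · exact h3 a ⟨ha, ha2⟩
  exact key univ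

/-- expansion of the determinant along permutations, omitting the row of ones -/
lemma det_rowsOf (g : Fin K → Fin (K + 1) → ℚ) : (rowsOf g).det =
    ∑ σ : Equiv.Perm (Fin (K + 1)), ((Equiv.Perm.sign σ : ℤ) : ℚ) * ∏ i : Fin K, g i (σ i.castSucc) := by
  rw [← Matrix.det_transpose, Matrix.det_apply']
  refine Finset.sum_congr rfl fun σ _ => ?_
  rw [Fin.prod_univ_castSucc]
  simp [Matrix.transpose_apply]

/-- weight of a tuple -/
def wt (x : Fin (K + 1) → ℚ) (S : Tup K r) : ℚ := ∏ t, ∏ u ∈ S t, x u

lemma sum_tup (g : Fin r → Finset (Fin (K + 1)) → ℚ) :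
    ∑ S : Tup K r, ∏ t, g t (S t) = ∏ t, ∑ T, g t T := by
  rw [Finset.prod_univ_sum, Fintype.piFinset_univ]

lemma sum_subsets (a b : Fin (K + 1) → ℚ) :
    ∑ T : Finset (Fin (K + 1)), ∏ u, (if u ∈ T then a u else b u) = ∏ u, (a u + b u) := by
  rw [Finset.prod_add, Finset.powerset_univ]
  refine Finset.sum_congr rfl fun T _ => ?_
  rw [Finset.prod_ite]
  congr 1
  · congr 1; ext u; simp
  · congr 1; ext u; simp

lemma sum_required (x : Fin (K + 1) → ℚ) (hx : ∀ u, 0 < x u) (E : Finset (Fin (K + 1) × Fin r)) :
    ∑ S : Tup K r, wt x S * (if ∀ e ∈ E, e.1 ∈ S e.2 then 1 else 0) =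
      (∏ _t : Fin r, ∏ u, (1 + x u)) * ∏ e ∈ E, (x e.1 / (1 + x e.1)) := by
  classical
  have h1 : ∀ S : Tup K r, wt x S * (if ∀ e ∈ E, e.1 ∈ S e.2 then 1 else 0) =
      ∏ t, ∏ u, (if u ∈ S t then x u else (if (u, t) ∈ E then 0 else 1)) := by
    intro S
    by_cases h : ∀ e ∈ E, e.1 ∈ S e.2
    · rw [if_pos h, mul_one]
      unfold wt
      refine Finset.prod_congr rfl fun t _ => ?_
      rw [← Finset.prod_subset (Finset.subset_univ (S t))]
      · exact Finset.prod_congr rfl fun u hu => by rw [if_pos hu]
      · intro u _ hu
        rw [if_neg hu, if_neg]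
        intro he
        exact hu (h _ he)
    · rw [if_neg h, mul_zero]
      push Not at h
      obtain ⟨e, he, hne⟩ := h
      symm
      apply Finset.prod_eq_zero (mem_univ e.2)
      apply Finset.prod_eq_zero (mem_univ e.1)
      rw [if_neg hne, if_pos he]
  rw [Finset.sum_congr rfl (fun S _ => h1 S),
    sum_tup (fun t T => ∏ u, (if u ∈ T then x u else (if (u, t) ∈ E then 0 else 1)))]
  have h2 : ∀ t : Fin r, ∑ T : Finset (Fin (K + 1)),
      ∏ u, (if u ∈ T then x u else (if (u, t) ∈ E then 0 else 1)) =
      (∏ u, (1 + x u)) * ∏ u, (if (u, t) ∈ E then x u / (1 + x u) else 1) := by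
    intro t
    rw [sum_subsets, ← Finset.prod_mul_distrib]
    refine Finset.prod_congr rfl fun u _ => ?_
    have := hx u
    split_ifs
    · field_simp; ring
    · ring
  rw [Finset.prod_congr rfl (fun t _ => h2 t), Finset.prod_mul_distrib]
  congr 1
  have h3 : ∏ e ∈ E, (x e.1 / (1 + x e.1)) =
      ∏ e : Fin (K + 1) × Fin r, (if e ∈ E then x e.1 / (1 + x e.1) else 1) := by
    rw [Finset.prod_ite_mem, Finset.univ_inter]
  rw [h3, Fintype.prod_prod_type_right]

end PdetCyc
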