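import Mathlib
import Pool.Agent.V11177.PdetSum

/-! The weighted sum of determinants over all tuples of subsets. -/

namespace PdetCyc

open Finset Matrix

variable {K r : ℕ}

/-- membership condition attached to `D` -/
def cD (D : Finset (Fin K)) (f : Fin K → Fin r) (S : Tup K r) (i : Fin K) : ℚ :=
  if (i ∈ D → i.castSucc ∈ S (f i)) then 1 else 0

lemma avg_sigma (x : Fin (K + 1) → ℚ) (hx : ∀ u, 0 < x u) (f : Fin K → Fin r)
    (D : Finset (Fin K)) (j : Fin K → Fin (K + 1)) :
    ∑ S : Tup K r, wt x S * ((∏ i, cD D f S i) *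
      ∏ i : Fin K, (if cyc i.castSucc (j i) ⊆ S (f i) \ blk f (f i) then 1 else 0)) =
    (∏ _t : Fin r, ∏ u, (1 + x u)) * ((∏ i ∈ D, (x i.castSucc / (1 + x i.castSucc))) *
      ∏ i : Fin K, Yp (fun u => x u / (1 + x u)) f i (j i)) := by
  classical
  by_cases hall : ∀ i : Fin K, Disjoint (cyc i.castSucc (j i)) (blk f (f i))
  swap
  · push Not at hall
    obtain ⟨i0, h0⟩ := hall
    have hR : ∏ i : Fin K, Yp (fun u => x u / (1 + x u)) f i (j i) = 0 := by
      apply Finset.prod_eq_zero (mem_univ i0)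
      unfold Yp; rw [if_neg h0]
    rw [hR, mul_zero, mul_zero]
    apply Finset.sum_eq_zero
    intro S _
    have hL : ∏ i : Fin K, (if cyc i.castSucc (j i) ⊆ S (f i) \ blk f (f i) then (1 : ℚ) else 0)
        = 0 := by
      apply Finset.prod_eq_zero (mem_univ i0)
      rw [if_neg]
      intro h
      apply h0
      exact Finset.disjoint_of_subset_left h Finset.sdiff_disjoint
    rw [hL, mul_zero, mul_zero]
  · set E : Finset (Fin (K + 1) × Fin r) :=
      (univ : Finset (Fin K)).biUnion (fun i => (cyc i.castSucc (j i)) ×ˢ {f i}) ∪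
        D.image (fun i => (i.castSucc, f i)) with hE
    have hind : ∀ S : Tup K r, (∏ i, cD D f S i) *
        ∏ i : Fin K, (if cyc i.castSucc (j i) ⊆ S (f i) \ blk f (f i) then (1 : ℚ) else 0) =
        if ∀ e ∈ E, e.1 ∈ S e.2 then 1 else 0 := by
      intro S
      have h1 : ∏ i, cD D f S i = if ∀ i ∈ D, i.castSucc ∈ S (f i) then 1 else 0 := by
        unfold cD
        rw [Finset.prod_boole]
        congr 1
        simp
      have h2 : ∏ i : Fin K, (if cyc i.castSucc (j i) ⊆ S (f i) \ blk f (f i) then (1 : ℚ) else 0)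
          = if ∀ i, cyc i.castSucc (j i) ⊆ S (f i) then 1 else 0 := by
        rw [Finset.prod_boole]
        congr 1
        apply propext
        constructor
        · intro h i
          exact (h i (mem_univ i)).trans Finset.sdiff_subset
        · intro h i _
          rw [Finset.subset_sdiff]
          exact ⟨h i, hall i⟩
      rw [h1, h2]
      have h3 : (∀ e ∈ E, e.1 ∈ S e.2) ↔
          ((∀ i ∈ D, i.castSucc ∈ S (f i)) ∧ ∀ i, cyc i.castSucc (j i) ⊆ S (f i)) := by
        constructor
        · intro h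
          constructor
          · intro i hi
            exact h (i.castSucc, f i) (Finset.mem_union_right _ (Finset.mem_image_of_mem _ hi))
          · intro i u hu
            refine h (u, f i) (Finset.mem_union_left _ ?_)
            rw [Finset.mem_biUnion]
            exact ⟨i, mem_univ i, by simp [hu]⟩
        · rintro ⟨h4, h5⟩ e he
          rcases Finset.mem_union.mp he with h | h
          · rw [Finset.mem_biUnion] at h
            obtain ⟨i, _, hi⟩ := h
            rw [Finset.mem_product, Finset.mem_singleton] at hi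
            rw [hi.2]
            exact h5 i hi.1
          · rw [Finset.mem_image] at h
            obtain ⟨i, hi, rfl⟩ := h
            exact h4 i hi
      by_cases ha : ∀ i ∈ D, i.castSucc ∈ S (f i)
      · by_cases hb : ∀ i, cyc i.castSucc (j i) ⊆ S (f i)
        · rw [if_pos ha, if_pos hb, if_pos (h3.mpr ⟨ha, hb⟩)]; ring
        · rw [if_pos ha, if_neg hb, if_neg (fun h => hb (h3.mp h).2)]; ring
      · rw [if_neg ha, if_neg (fun h => ha (h3.mp h).1)]; ring
    simp only [hind]
    rw [sum_required x hx E]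
    congr 1
    rw [hE, Finset.prod_union, Finset.prod_biUnion, Finset.prod_image]
    · rw [mul_comm]
      congr 1
      refine Finset.prod_congr rfl fun i _ => ?_
      unfold Yp
      rw [if_pos (hall i), Finset.prod_product]
      simp
    · intro a _ b _ hab
      simp only [Prod.mk.injEq] at hab
      exact Fin.castSucc_injective _ hab.1
    · intro a _ b _ hab
      rw [Function.onFun, Finset.disjoint_left]
      rintro ⟨u, t⟩ hu hu'
      rw [Finset.mem_product, Finset.mem_singleton] at hu hu'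
      have hf : f a = f b := hu.2.symm.trans hu'.2
      have h1 : b.castSucc ∉ cyc a.castSucc (j a) := fun h =>
        (Finset.disjoint_left.mp (hall a) h) (castSucc_mem_blk.mpr hf.symm)
      have h2 : a.castSucc ∉ cyc b.castSucc (j b) := fun h =>
        (Finset.disjoint_left.mp (hall b) h) (castSucc_mem_blk.mpr hf)
      have h3 := cyc_disjoint (fun e => hab (Fin.castSucc_injective _ e)) h1 h2
      exact (Finset.disjoint_left.mp h3 hu.1) hu'.1
    · rw [Finset.disjoint_left]
      rintro ⟨u, t⟩ hu hu'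
      rw [Finset.mem_biUnion] at hu
      obtain ⟨i, _, hi⟩ := hu
      rw [Finset.mem_product, Finset.mem_singleton] at hi
      rw [Finset.mem_image] at hu'
      obtain ⟨a, _, ha⟩ := hu'
      simp only [Prod.mk.injEq] at ha
      have h1 : u ∈ blk f (f i) := by
        rw [← ha.1]
        exact castSucc_mem_blk.mpr (ha.2.trans hi.2)
      exact (Finset.disjoint_left.mp (hall i) hi.1) h1

/-- the weighted sum of the determinants -/
theorem avg (hK : 0 < K) (hr : 1 ≤ r) (x : Fin (K + 1) → ℚ) (hx : ∀ u, 0 < x u)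
    (f : Fin K → Fin r) (hf : Function.Surjective f) (D : Finset (Fin K)) :
    ∑ S : Tup K r, wt x S * ((∏ i, cD D f S i) * (eM f S).det) =
    (∏ _t : Fin r, ∏ u, (1 + x u)) * ((∏ i ∈ D, (x i.castSucc / (1 + x i.castSucc))) *
      ((1 - ∏ u, x u / (1 + x u)) ^ (r - 1) * (1 - x (Fin.last K) / (1 + x (Fin.last K))))) := by
  classical
  have hy : ∀ u, 0 < x u / (1 + x u) := fun u => by have := hx u; positivity
  have hy1 : ∀ u, x u / (1 + x u) < 1 := fun u => by
    have := hx u
    rw [div_lt_one (by linarith)]; linarith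
  rw [← det_Yp hK (fun u => x u / (1 + x u)) hy hy1 f hf hr]
  have h1 : ∀ S : Tup K r, wt x S * ((∏ i, cD D f S i) * (eM f S).det) =
      ∑ σ : Equiv.Perm (Fin (K + 1)), ((Equiv.Perm.sign σ : ℤ) : ℚ) *
        (wt x S * ((∏ i, cD D f S i) * ∏ i : Fin K,
          (if cyc i.castSucc (σ i.castSucc) ⊆ S (f i) \ blk f (f i) then 1 else 0))) := by
    intro S
    rw [← toggle_all f S]
    unfold eM
    rw [det_rowsOf, Finset.mul_sum, Finset.mul_sum]
    refine Finset.sum_congr rfl fun σ _ => ?_
    ring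
  rw [Finset.sum_congr rfl (fun S _ => h1 S), Finset.sum_comm, det_rowsOf, Finset.mul_sum,
    Finset.mul_sum]
  refine Finset.sum_congr rfl fun σ _ => ?_
  rw [← Finset.mul_sum, avg_sigma x hx f D (fun i => σ i.castSucc)]
  ring

/-- indicator for the right-hand side -/
def psi (hr : 1 ≤ r) (D : Finset (Fin K)) (S : Tup K r) : ℚ :=
  if (∀ t, S t ≠ univ) ∧ Fin.last K ∉ S ⟨0, hr⟩ ∧ ∀ i ∈ D, i.castSucc ∈ S ⟨0, hr⟩ then 1 else 0

lemma sum_not_univ (x : Fin (K + 1) → ℚ) (hx : ∀ u, 0 < x u) :
    ∑ T : Finset (Fin (K + 1)), (if T ≠ univ then ∏ u ∈ T, x u else 0) =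
      (∏ u, (1 + x u)) * (1 - ∏ u, x u / (1 + x u)) := by
  classical
  have h1 : ∀ T : Finset (Fin (K + 1)), (if T ≠ univ then ∏ u ∈ T, x u else 0) =
      (∏ u ∈ T, x u) - (if T = univ then ∏ u, x u else 0) := by
    intro T
    by_cases h : T = univ
    · rw [if_neg (not_not.mpr h), if_pos h, h]; ring
    · rw [if_pos h, if_neg h]; ring
  rw [Finset.sum_congr rfl (fun T _ => h1 T), Finset.sum_sub_distrib, Finset.sum_ite_eq',
    if_pos (mem_univ _)]
  have h2 : ∑ T : Finset (Fin (K + 1)), ∏ u ∈ T, x u = ∏ u, (1 + x u) := by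
    rw [Finset.prod_one_add, Finset.powerset_univ]
  have h3 : ∏ u, (x u / (1 + x u)) = (∏ u, x u) / ∏ u, (1 + x u) := Finset.prod_div_distrib ..
  have h4 : ∏ u, (1 + x u) ≠ 0 := (Finset.prod_pos fun u _ => by have := hx u; linarith).ne'
  rw [h2, h3]
  field_simp

lemma sum_first (x : Fin (K + 1) → ℚ) (hx : ∀ u, 0 < x u) (D : Finset (Fin K)) :
    ∑ T : Finset (Fin (K + 1)), (if T ≠ univ ∧ Fin.last K ∉ T ∧ ∀ i ∈ D, i.castSucc ∈ T
      then ∏ u ∈ T, x u else 0) =
      (∏ u, (1 + x u)) * ((∏ i ∈ D, (x i.castSucc / (1 + x i.castSucc))) *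
        (1 - x (Fin.last K) / (1 + x (Fin.last K)))) := by
  classical
  have h1 : ∀ T : Finset (Fin (K + 1)), (if T ≠ univ ∧ Fin.last K ∉ T ∧ ∀ i ∈ D, i.castSucc ∈ T
      then ∏ u ∈ T, x u else 0) = ∏ u, (if u ∈ T then (if u = Fin.last K then 0 else x u) else
        (if u ∈ D.image Fin.castSucc then 0 else 1)) := by
    intro T
    by_cases h : Fin.last K ∉ T ∧ ∀ i ∈ D, i.castSucc ∈ T
    · have hne : T ≠ univ := by
        rintro rfl; exact h.1 (mem_univ _)
      rw [if_pos ⟨hne, h⟩, ← Finset.prod_subset (Finset.subset_univ T)]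
      · refine Finset.prod_congr rfl fun u hu => ?_
        rw [if_pos hu, if_neg]
        rintro rfl; exact h.1 hu
      · intro u _ hu
        rw [if_neg hu, if_neg]
        intro hm
        obtain ⟨i, hi, rfl⟩ := Finset.mem_image.mp hm
        exact hu (h.2 i hi)
    · rw [if_neg (fun h' => h h'.2)]
      symm
      by_cases hl : Fin.last K ∈ T
      · apply Finset.prod_eq_zero (mem_univ (Fin.last K))
        rw [if_pos hl, if_pos rfl]
      · have h2 : ¬ ∀ i ∈ D, i.castSucc ∈ T := fun h' => h ⟨hl, h'⟩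
        push Not at h2
        obtain ⟨i, hi, hni⟩ := h2
        apply Finset.prod_eq_zero (mem_univ i.castSucc)
        rw [if_neg hni, if_pos (Finset.mem_image_of_mem _ hi)]
  rw [Finset.sum_congr rfl (fun T _ => h1 T), sum_subsets, Fin.prod_univ_castSucc,
    Fin.prod_univ_castSucc (fun u => 1 + x u)]
  have h5 : ∀ i : Fin K, ((if i.castSucc = Fin.last K then 0 else x i.castSucc) +
      (if i.castSucc ∈ D.image Fin.castSucc then (0 : ℚ) else 1)) =
      (1 + x i.castSucc) * (if i ∈ D then x i.castSucc / (1 + x i.castSucc) else 1) := by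
    intro i
    have := hx i.castSucc
    have h6 : i.castSucc ∈ D.image Fin.castSucc ↔ i ∈ D := by
      rw [Finset.mem_image]
      constructor
      · rintro ⟨a, ha, e⟩; rw [← Fin.castSucc_injective _ e]; exact ha
      · intro h; exact ⟨i, h, rfl⟩
    rw [if_neg (Fin.castSucc_lt_last i).ne]
    by_cases hi : i ∈ D
    · rw [if_pos (h6.mpr hi), if_pos hi]; field_simp; ring
    · rw [if_neg (fun h => hi (h6.mp h)), if_neg hi]; ring
  rw [Finset.prod_congr rfl (fun i _ => h5 i), Finset.prod_mul_distrib]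
  have h7 : ∏ i : Fin K, (if i ∈ D then x i.castSucc / (1 + x i.castSucc) else 1) =
      ∏ i ∈ D, (x i.castSucc / (1 + x i.castSucc)) := by
    rw [Finset.prod_ite_mem, Finset.univ_inter]
  have h8 : Fin.last K ∉ D.image Fin.castSucc := by
    rw [Finset.mem_image]
    rintro ⟨a, _, e⟩
    exact (Fin.castSucc_lt_last a).ne e
  rw [h7, if_pos rfl, if_neg h8]
  have := hx (Fin.last K)
  field_simp
  ring

theorem avg_rhs (hr : 1 ≤ r) (x : Fin (K + 1) → ℚ) (hx : ∀ u, 0 < x u) (D : Finset (Fin K)) :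
    ∑ S : Tup K r, wt x S * psi hr D S =
    (∏ _t : Fin r, ∏ u, (1 + x u)) * ((∏ i ∈ D, (x i.castSucc / (1 + x i.castSucc))) *
      ((1 - ∏ u, x u / (1 + x u)) ^ (r - 1) * (1 - x (Fin.last K) / (1 + x (Fin.last K))))) := by
  classical
  obtain ⟨s, rfl⟩ : ∃ s, r = s + 1 := ⟨r - 1, by omega⟩
  have h1 : ∀ S : Tup K (s + 1), wt x S * psi hr D S = ∏ t : Fin (s + 1),
      (if t = 0 then (if S t ≠ univ ∧ Fin.last K ∉ S t ∧ ∀ i ∈ D, i.castSucc ∈ S t
        then ∏ u ∈ S t, x u else 0) else (if S t ≠ univ then ∏ u ∈ S t, x u else 0)) := by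
    intro S
    have h0 : (⟨0, hr⟩ : Fin (s + 1)) = 0 := rfl
    unfold psi wt
    rw [h0]
    by_cases h : (∀ t, S t ≠ univ) ∧ Fin.last K ∉ S 0 ∧ ∀ i ∈ D, i.castSucc ∈ S 0
    · rw [if_pos h, mul_one]
      refine Finset.prod_congr rfl fun t _ => ?_
      by_cases ht : t = 0
      · subst ht
        rw [if_pos rfl, if_pos ⟨h.1 0, h.2⟩]
      · rw [if_neg ht, if_pos (h.1 t)]
    · rw [if_neg h, mul_zero]
      symm
      by_cases ha : ∀ t, S t ≠ univ
      · have hb : ¬ (Fin.last K ∉ S 0 ∧ ∀ i ∈ D, i.castSucc ∈ S 0) := fun h' => h ⟨ha, h'⟩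
        apply Finset.prod_eq_zero (mem_univ 0)
        rw [if_pos rfl, if_neg (fun h' => hb h'.2)]
      · push Not at ha
        obtain ⟨t, ht⟩ := ha
        apply Finset.prod_eq_zero (mem_univ t)
        by_cases ht0 : t = 0
        · rw [if_pos ht0, if_neg (fun h' => h'.1 ht)]
        · rw [if_neg ht0, if_neg (not_not.mpr ht)]
  rw [Finset.sum_congr rfl (fun S _ => h1 S),
    sum_tup (fun t T => (if t = 0 then (if T ≠ univ ∧ Fin.last K ∉ T ∧ ∀ i ∈ D, i.castSucc ∈ T
        then ∏ u ∈ T, x u else 0) else (if T ≠ univ then ∏ u ∈ T, x u else 0))),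
    Fin.prod_univ_succ, Fin.prod_univ_succ]
  simp only [if_true, Fin.succ_ne_zero, if_false]
  rw [sum_first x hx D, sum_not_univ x hx, Finset.prod_const, Finset.prod_const, Finset.card_univ,
    Fintype.card_fin, Nat.add_sub_cancel, mul_pow]
  ring

end PdetCyc
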