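import Mathlib

/-! Tools for the interval-order `q`-series identities at roots of unity. -/

namespace Pool.Agent.V11177.QInterval

open Finset PowerSeries

/-- `(a;b)_n = ∏_{k<n} (1 - a b^k)` -/
def poch {A : Type*} [CommRing A] (a b : A) (n : ℕ) : A := ∏ k ∈ range n, (1 - a * b ^ k)

section ring

variable {A : Type*} [CommRing A]

theorem poch_zero (a b : A) : poch a b 0 = 1 := by simp [poch]

theorem poch_succ (a b : A) (n : ℕ) : poch a b (n + 1) = poch a b n * (1 - a * b ^ n) := by
  unfold poch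
  rw [prod_range_succ]

theorem poch_succ' (a b : A) (n : ℕ) : poch a b (n + 1) = (1 - a) * poch (a * b) b n := by
  unfold poch
  rw [prod_range_succ', mul_comm]
  congr 1
  · simp
  · apply prod_congr rfl
    intro k _
    rw [pow_succ]; ring

theorem poch_add (a b : A) (m n : ℕ) :
    poch a b (m + n) = poch a b m * ∏ i ∈ range n, (1 - a * b ^ (m + i)) := by
  unfold poch
  rw [prod_range_add]

theorem map_poch {B : Type*} [CommRing B] (f : A →+* B) (a b : A) (n : ℕ) :
    f (poch a b n) = poch (f a) (f b) n := by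
  unfold poch
  rw [map_prod]
  apply prod_congr rfl
  intro k _
  simp

/-- partial sums of the common right-hand side, at `p q^N` -/
def SF (p q qi : A) (N M : ℕ) : A :=
  ∑ n ∈ range M, (p * q ^ N * qi) ^ (n + 1) * poch qi qi n

/-- partial sums of the left-hand side of (2), at `p q^N` -/
def SG (p q : A) (N M : ℕ) : A :=
  ∑ n ∈ range M, (p * q ^ N) * q ^ n * poch (p * q ^ N) q n * poch q q n

theorem SF_rec {p pi q qi : A} (hp : p * pi = 1) (hq : q * qi = 1) (N M : ℕ) :
    SF p q qi N M = 1 + (1 - pi * qi ^ N) * SF p q qi (N + 1) M -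
      (p * q ^ N) ^ M * poch qi qi M := by
  have hP : (p * q ^ N) * (pi * qi ^ N) = 1 := by
    have : q ^ N * qi ^ N = 1 := by rw [← mul_pow, hq, one_pow]
    calc (p * q ^ N) * (pi * qi ^ N) = (p * pi) * (q ^ N * qi ^ N) := by ring
      _ = 1 := by rw [hp, this, one_mul]
  induction M with
  | zero => simp [SF, poch_zero]
  | succ M ih =>
    have e1 : SF p q qi N (M + 1) = SF p q qi N M + (p * q ^ N * qi) ^ (M + 1) * poch qi qi M := by
      unfold SF; rw [sum_range_succ]
    have e2 : SF p q qi (N + 1) (M + 1) = SF p q qi (N + 1) M +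
        (p * q ^ N) ^ (M + 1) * poch qi qi M := by
      unfold SF
      rw [sum_range_succ]
      congr 3
      calc p * q ^ (N + 1) * qi = p * q ^ N * (q * qi) := by ring
        _ = p * q ^ N := by rw [hq, mul_one]
    rw [e1, e2, ih, poch_succ]
    have h3 : (pi * qi ^ N) * (p * q ^ N) ^ (M + 1) = (p * q ^ N) ^ M := by
      rw [pow_succ]
      calc (pi * qi ^ N) * ((p * q ^ N) ^ M * (p * q ^ N)) =
          (p * q ^ N) ^ M * ((p * q ^ N) * (pi * qi ^ N)) := by ring
        _ = _ := by rw [hP, mul_one]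
    have h4 : (p * q ^ N * qi) ^ (M + 1) = (p * q ^ N) ^ (M + 1) * (qi * qi ^ M) := by
      rw [mul_pow, pow_succ qi]; ring
    rw [h4]
    linear_combination (poch qi qi M) * h3

theorem SG_rec {p pi q qi : A} (hp : p * pi = 1) (hq : q * qi = 1) (N M : ℕ) :
    SG p q N M = 1 + (1 - pi * qi ^ N) * SG p q (N + 1) M -
      poch (p * q ^ N) q M * poch q q M := by
  have hP : (p * q ^ N) * (pi * qi ^ N) = 1 := by
    have : q ^ N * qi ^ N = 1 := by rw [← mul_pow, hq, one_pow]
    calc (p * q ^ N) * (pi * qi ^ N) = (p * pi) * (q ^ N * qi ^ N) := by ring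
      _ = 1 := by rw [hp, this, one_mul]
  induction M with
  | zero => simp [SG, poch_zero]
  | succ M ih =>
    have e1 : SG p q N (M + 1) = SG p q N M +
        (p * q ^ N) * q ^ M * poch (p * q ^ N) q M * poch q q M := by
      unfold SG; rw [sum_range_succ]
    have e2 : SG p q (N + 1) (M + 1) = SG p q (N + 1) M +
        (p * q ^ N * q) * q ^ M * poch (p * q ^ N * q) q M * poch q q M := by
      unfold SG
      rw [sum_range_succ]
      have : p * q ^ (N + 1) = p * q ^ N * q := by ring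
      rw [this]
    have h5 := poch_succ' (p * q ^ N) q M
    have h6 := poch_succ (p * q ^ N) q M
    have h7 := poch_succ q q M
    rw [e1, e2, ih, h7]
    set P := p * q ^ N with hPdef
    set Pi := pi * qi ^ N with hPi
    -- (1 - Pi) * (P q q^M poch (P q)) = - q^{M+1} poch P (M+1)
    have h8 : (1 - Pi) * (P * q * q ^ M * poch (P * q) q M * poch q q M) =
        - (q * q ^ M * poch P q (M + 1) * poch q q M) := by
      rw [h5]
      linear_combination (-(q * q ^ M * poch (P * q) q M * poch q q M)) * hP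
    rw [mul_add, h8, h6]
    ring

end ring

section adic

/-- two-variable power series `ℂ[[u,v]]`, `u` the inner and `v` the outer variable; the ideal of
series without terms of total degree less than `n` -/
def J (n : ℕ) : Ideal (PowerSeries (PowerSeries ℂ)) where
  carrier := {f | ∀ a b, a + b < n → coeff a (coeff b f) = 0}
  add_mem' := by
    intro f g hf hg a b hab
    simp [hf a b hab, hg a b hab]
  zero_mem' := by
    intro a b _
    simp
  smul_mem' := by
    intro f g hg a b hab
    rw [smul_eq_mul, coeff_mul, map_sum]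
    apply sum_eq_zero
    intro x hx
    rw [coeff_mul]
    apply sum_eq_zero
    intro y hy
    rw [HasAntidiagonal.mem_antidiagonal] at hx hy
    rw [hg y.2 x.2 (by omega), mul_zero]

theorem mem_J {n : ℕ} {f : PowerSeries (PowerSeries ℂ)} :
    f ∈ J n ↔ ∀ a b, a + b < n → coeff a (coeff b f) = 0 := Iff.rfl

theorem J_mul {m n : ℕ} {f g : PowerSeries (PowerSeries ℂ)} (hf : f ∈ J m) (hg : g ∈ J n) :
    f * g ∈ J (m + n) := by
  intro a b hab
  rw [coeff_mul, map_sum]
  apply sum_eq_zero
  intro x hx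
  rw [coeff_mul]
  apply sum_eq_zero
  intro y hy
  rw [HasAntidiagonal.mem_antidiagonal] at hx hy
  rcases Nat.lt_or_ge (y.1 + x.1) m with h | h
  · rw [hf y.1 x.1 h, zero_mul]
  · rw [hg y.2 x.2 (by omega), mul_zero]

theorem J_zero (f : PowerSeries (PowerSeries ℂ)) : f ∈ J 0 := by
  intro a b hab
  omega

theorem mem_J_one {f : PowerSeries (PowerSeries ℂ)}
    (h : constantCoeff (constantCoeff f) = 0) : f ∈ J 1 := by
  intro a b hab
  have ha : a = 0 := by omega
  have hb : b = 0 := by omega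
  subst ha; subst hb
  rw [coeff_zero_eq_constantCoeff_apply, coeff_zero_eq_constantCoeff_apply]
  exact h

/-- `p = p₀ + u` -/
noncomputable def PP (p0 : ℂ) : PowerSeries (PowerSeries ℂ) := C (C p0 + X)
/-- `1/p` -/
noncomputable def PPi (p0 : ℂ) : PowerSeries (PowerSeries ℂ) := C (C p0 + X)⁻¹
/-- `q = q₀ + v` as a series in `v` over any `ℂ`-algebra `R` -/
noncomputable def QQ {R : Type*} [CommRing R] (i : ℂ →+* R) (q0 : ℂ) : PowerSeries R :=
  PowerSeries.map i (C q0 + X)
/-- `1/q` -/
noncomputable def QQi {R : Type*} [CommRing R] (i : ℂ →+* R) (q0 : ℂ) : PowerSeries R :=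
  PowerSeries.map i (C q0 + X)⁻¹

theorem base_inv {z : ℂ} (hz : z ≠ 0) : (C z + X : PowerSeries ℂ) * (C z + X)⁻¹ = 1 := by
  apply PowerSeries.mul_inv_cancel
  simpa using hz

theorem PP_inv {p0 : ℂ} (h : p0 ≠ 0) : PP p0 * PPi p0 = 1 := by
  unfold PP PPi
  rw [← map_mul, base_inv h, map_one]

theorem QQ_inv {R : Type*} [CommRing R] (i : ℂ →+* R) {q0 : ℂ} (h : q0 ≠ 0) :
    QQ i q0 * QQi i q0 = 1 := by
  unfold QQ QQi
  rw [← map_mul, base_inv h, map_one]

theorem dvd_poch_base {z : PowerSeries ℂ} {k : ℕ} (hk : 1 ≤ k) (hz : (constantCoeff z) ^ k = 1)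
    (n : ℕ) : (X : PowerSeries ℂ) ^ n ∣ poch z z (k * n) := by
  induction n with
  | zero => simp
  | succ n ih =>
    rw [Nat.mul_succ, poch_add, pow_succ]
    apply mul_dvd_mul ih
    apply dvd_trans _ (dvd_prod_of_mem _ (mem_range.2 (show k - 1 < k by omega)))
    rw [X_dvd_iff]
    have e : z * z ^ (k * n + (k - 1)) = z ^ (k * (n + 1)) := by
      rw [← pow_succ']
      congr 1
      rw [Nat.mul_succ]; omega
    rw [e, map_sub, map_one, map_pow, pow_mul, hz, one_pow, sub_self]

theorem dvd_poch {R : Type*} [CommRing R] (i : ℂ →+* R) {z : PowerSeries ℂ} {k : ℕ} (hk : 1 ≤ k)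
    (hz : (constantCoeff z) ^ k = 1) (n m : ℕ) (hm : k * n ≤ m) :
    (X : PowerSeries R) ^ n ∣ poch (PowerSeries.map i z) (PowerSeries.map i z) m := by
  obtain ⟨t, rfl⟩ := Nat.exists_eq_add_of_le hm
  rw [poch_add]
  apply Dvd.dvd.mul_right
  rw [← map_poch]
  obtain ⟨g, hg⟩ := dvd_poch_base hk hz n
  rw [hg, map_mul, map_pow, map_X]
  exact Dvd.intro _ rfl

theorem const_QQi_base {q0 : ℂ} {k : ℕ} (hk : q0 ^ k = 1) :
    (constantCoeff (C q0 + X : PowerSeries ℂ)⁻¹) ^ k = 1 := by
  rw [constantCoeff_inv]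
  simp [hk]

theorem const_QQ_base {q0 : ℂ} {k : ℕ} (hk : q0 ^ k = 1) :
    (constantCoeff (C q0 + X : PowerSeries ℂ)) ^ k = 1 := by
  simp [hk]

theorem ne_zero_of_pow {q0 : ℂ} {k : ℕ} (hk1 : 1 ≤ k) (hk : q0 ^ k = 1) : q0 ≠ 0 := by
  rintro rfl
  rw [zero_pow (by omega)] at hk
  exact zero_ne_one hk

/-- `ε(f)` is the constant term -/
theorem eps_PPi (p0 : ℂ) : constantCoeff (constantCoeff (PPi p0)) = p0⁻¹ := by
  unfold PPi
  rw [constantCoeff_C, constantCoeff_inv]
  simp

theorem eps_QQi (q0 : ℂ) :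
    constantCoeff (constantCoeff (QQi (C : ℂ →+* PowerSeries ℂ) q0)) = q0⁻¹ := by
  unfold QQi
  have h : ∀ f : PowerSeries ℂ, constantCoeff (PowerSeries.map (C : ℂ →+* PowerSeries ℂ) f) =
      C (constantCoeff f) := by
    intro f
    rw [← coeff_zero_eq_constantCoeff_apply, coeff_map, coeff_zero_eq_constantCoeff_apply]
  rw [h, constantCoeff_C, constantCoeff_inv]
  simp

/-- `(1/p;1/q)_n` tends to zero when `p₀ q₀^j = 1` -/
theorem poch_mem_J {p0 q0 : ℂ} {k j : ℕ} (hq : q0 ^ k = 1) (hj : j < k)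
    (hpj : p0 * q0 ^ j = 1) (n m : ℕ) (hm : k * n ≤ m) :
    poch (PPi p0) (QQi (C : ℂ →+* PowerSeries ℂ) q0) m ∈ J n := by
  have base : ∀ n, poch (PPi p0) (QQi (C : ℂ →+* PowerSeries ℂ) q0) (k * n) ∈ J n := by
    intro n
    induction n with
    | zero => exact J_zero _
    | succ n ih =>
      rw [Nat.mul_succ, poch_add]
      apply J_mul ih
      have hfac : (1 - PPi p0 * QQi (C : ℂ →+* PowerSeries ℂ) q0 ^ (k * n + j)) ∈ J 1 := by
        apply mem_J_one
        rw [map_sub, map_sub, map_one, map_one, map_mul, map_mul, map_pow, map_pow, eps_PPi,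
          eps_QQi, pow_add, pow_mul, inv_pow, hq, inv_one, one_pow, one_mul, inv_pow]
        rw [← mul_inv, hpj, inv_one, sub_self]
      rw [← Finset.mul_prod_erase _ _ (mem_range.2 hj)]
      exact (J 1).mul_mem_right _ hfac
  obtain ⟨t, rfl⟩ := Nat.exists_eq_add_of_le hm
  rw [poch_add]
  exact (J n).mul_mem_right _ (base n)

theorem coeff_of_dvd {R : Type*} [CommRing R] {f : PowerSeries R} {K b : ℕ} (h : X ^ K ∣ f)
    (hb : b < K) : coeff b f = 0 := (X_pow_dvd_iff.1 h) b hb

theorem SF_iter {R : Type*} [CommRing R] {p pi q qi : PowerSeries R} (hp : p * pi = 1)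
    (hq : q * qi = 1) (K M : ℕ) (hM : X ^ K ∣ poch qi qi M) (N : ℕ) :
    X ^ K ∣ SF p q qi 0 M - ∑ n ∈ range N, poch pi qi n - poch pi qi N * SF p q qi N M := by
  induction N with
  | zero => simp [poch_zero]
  | succ N ih =>
    have h := SF_rec hp hq N M
    have e : SF p q qi 0 M - ∑ n ∈ range (N + 1), poch pi qi n -
        poch pi qi (N + 1) * SF p q qi (N + 1) M =
        (SF p q qi 0 M - ∑ n ∈ range N, poch pi qi n - poch pi qi N * SF p q qi N M) -
          poch pi qi N * (p * q ^ N) ^ M * poch qi qi M := by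
      rw [sum_range_succ, poch_succ]
      linear_combination (poch pi qi N) * h
    rw [e]
    exact dvd_sub ih (Dvd.dvd.mul_left hM _)

theorem SFG_iter {R : Type*} [CommRing R] {p pi q qi : PowerSeries R} (hp : p * pi = 1)
    (hq : q * qi = 1) (K M : ℕ) (hM : X ^ K ∣ poch qi qi M) (hM' : X ^ K ∣ poch q q M) (N : ℕ) :
    X ^ K ∣ (SF p q qi 0 M - SG p q 0 M) - poch pi qi N * (SF p q qi N M - SG p q N M) := by
  induction N with
  | zero => simp [poch_zero]
  | succ N ih =>
    have h := SF_rec hp hq N M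
    have h' := SG_rec hp hq N M
    have e : (SF p q qi 0 M - SG p q 0 M) -
        poch pi qi (N + 1) * (SF p q qi (N + 1) M - SG p q (N + 1) M) =
        ((SF p q qi 0 M - SG p q 0 M) - poch pi qi N * (SF p q qi N M - SG p q N M)) -
          poch pi qi N * (p * q ^ N) ^ M * poch qi qi M +
          poch pi qi N * poch (p * q ^ N) q M * poch q q M := by
      rw [poch_succ]
      linear_combination (poch pi qi N) * h - (poch pi qi N) * h'
    rw [e]
    exact dvd_add (dvd_sub ih (Dvd.dvd.mul_left hM _)) (Dvd.dvd.mul_left hM' _)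

end adic

end Pool.Agent.V11177.QInterval
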