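import Mathlib

/-! Determinants of sums of two network matrices, and an application to sequences determined by
equalities between block sums. -/

namespace NetDet

open Matrix Finset

/-- row `e_a - e_b`, where `none` stands for a deleted coordinate -/
def nrow {m : ℕ} (a b : Option (Fin m)) : Fin m → ℤ := fun s =>
  (if a = some s then 1 else 0) - (if b = some s then 1 else 0)

lemma exists_minor {m : ℕ} (j : Fin (m + 1)) (a : Option (Fin (m + 1))) :
    ∃ a' : Option (Fin m), ∀ s, (a' = some s ↔ a = some (j.succAbove s)) := by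
  classical
  by_cases h : ∃ s, a = some (j.succAbove s)
  · obtain ⟨s, hs⟩ := h
    refine ⟨some s, fun t => ?_⟩
    rw [hs]
    constructor
    · intro h; rw [Option.some_inj] at h; rw [h]
    · intro h
      rw [Option.some_inj] at h ⊢
      exact Fin.succAbove_right_injective h
  · push Not at h
    exact ⟨none, fun t => ⟨fun e => (by simp at e), fun e => absurd e (h t)⟩⟩

theorem net_det : ∀ (m : ℕ) (a b : Fin m → Option (Fin m)),
    |(Matrix.of (fun r => nrow (a r) (b r))).det| ≤ 1 := by
  intro m
  induction m with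
  | zero => intro a b; simp
  | succ m ih =>
    intro a b
    classical
    set M : Matrix (Fin (m + 1)) (Fin (m + 1)) ℤ := Matrix.of (fun r => nrow (a r) (b r)) with hM
    by_cases h : ∃ r, a r = none ∨ b r = none ∨ a r = b r
    · obtain ⟨r, hr⟩ := h
      -- at most one nonzero entry in row `r`
      have hone : ∃ j0, ∀ j, j ≠ j0 → M r j = 0 := by
        rcases hr with hr | hr | hr
        · rcases hb : b r with _ | t
          · exact ⟨0, fun j _ => by simp [hM, nrow, hr, hb]⟩
          · refine ⟨t, fun j hj => ?_⟩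
            simp only [hM, nrow, Matrix.of_apply, hr, hb]
            rw [if_neg (by simp), if_neg (by rw [Option.some_inj]; exact fun e => hj e.symm)]
            simp
        · rcases ha : a r with _ | t
          · exact ⟨0, fun j _ => by simp [hM, nrow, hr, ha]⟩
          · refine ⟨t, fun j hj => ?_⟩
            simp only [hM, nrow, Matrix.of_apply, hr, ha]
            rw [if_neg (by rw [Option.some_inj]; exact fun e => hj e.symm), if_neg (by simp)]
            simp
        · exact ⟨0, fun j _ => by simp [hM, nrow, hr]⟩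
      obtain ⟨j0, hj0⟩ := hone
      rw [Matrix.det_succ_row M r, Finset.sum_eq_single j0
        (fun j _ hj => by rw [hj0 j hj]; ring) (fun h => absurd (Finset.mem_univ _) h)]
      -- the minor is again a network matrix
      have hminor : ∃ a' b' : Fin m → Option (Fin m),
          M.submatrix r.succAbove j0.succAbove = Matrix.of (fun i => nrow (a' i) (b' i)) := by
        choose f hf using fun i : Fin m => exists_minor j0 (a (r.succAbove i))
        choose g hg using fun i : Fin m => exists_minor j0 (b (r.succAbove i))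
        refine ⟨f, g, ?_⟩
        ext i s
        simp only [hM, nrow, Matrix.of_apply, Matrix.submatrix_apply]
        congr 1
        · simp only [hf i s]
        · simp only [hg i s]
      obtain ⟨a', b', hab⟩ := hminor
      rw [hab, abs_mul, abs_mul, abs_pow, abs_neg, abs_one, one_pow, one_mul]
      have h1 := ih a' b'
      have h2 : |M r j0| ≤ 1 := by
        simp only [hM, nrow, Matrix.of_apply]
        split_ifs <;> simp
      calc |M r j0| * |(Matrix.of fun i => nrow (a' i) (b' i)).det| ≤ 1 * 1 :=
            mul_le_mul h2 h1 (abs_nonneg _) (by norm_num)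
        _ = 1 := by norm_num
    · push Not at h
      have hdet : M.det = 0 := by
        apply Matrix.exists_mulVec_eq_zero_iff.mp
        refine ⟨fun _ => 1, ?_, ?_⟩
        · intro h0
          have := congrFun h0 0
          simp at this
        · funext r
          obtain ⟨h1, h2, h3⟩ := h r
          obtain ⟨s, hs⟩ := Option.ne_none_iff_exists'.mp h1
          obtain ⟨t, ht⟩ := Option.ne_none_iff_exists'.mp h2
          simp only [Matrix.mulVec, dotProduct, hM, nrow, Matrix.of_apply, mul_one,
            Finset.sum_sub_distrib, hs, ht, Option.some_inj]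
          simp
      rw [hdet]; simp

theorem det_le (m : ℕ) (a b c e : Fin m → Option (Fin m)) :
    |(Matrix.of (fun r => nrow (a r) (b r) + nrow (c r) (e r))).det| ≤ 2 ^ m := by
  classical
  have h1 : (Matrix.of (fun r => nrow (a r) (b r) + nrow (c r) (e r))).det =
      ∑ s : Finset (Fin m), (Matrix.of (s.piecewise (fun r => nrow (a r) (b r))
        (fun r => nrow (c r) (e r)))).det := by
    exact (Matrix.detRowAlternating (n := Fin m) (R := ℤ)).toMultilinearMap.map_add_univ
      (fun r => nrow (a r) (b r)) (fun r => nrow (c r) (e r))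
  rw [h1]
  refine (Finset.abs_sum_le_sum_abs _ _).trans ?_
  have h2 : ∀ s ∈ (Finset.univ : Finset (Finset (Fin m))),
      |(Matrix.of (s.piecewise (fun r => nrow (a r) (b r))
        (fun r => nrow (c r) (e r)))).det| ≤ 1 := by
    intro s _
    have : s.piecewise (fun r => nrow (a r) (b r)) (fun r => nrow (c r) (e r)) =
        fun r => nrow (if r ∈ s then a r else c r) (if r ∈ s then b r else e r) := by
      funext r
      by_cases hr : r ∈ s
      · simp [Finset.piecewise, hr]
      · simp [Finset.piecewise, hr]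
    rw [this]
    exact net_det m _ _
  refine (Finset.sum_le_sum h2).trans ?_
  simp

/-- indicator vector of the first `s` coordinates -/
def chi {m : ℕ} (s : ℕ) : Fin (m + 1) → ℝ := fun t => if (t : ℕ) < s then 1 else 0

/-- the vector `(χ_x - χ_y) + (χ_z - χ_w)` -/
def q {m : ℕ} (x y z w : ℕ) : Fin (m + 1) → ℝ := (chi x - chi y) + (chi z - chi w)

/-- the interior point `s` of `0,...,m+1` -/
def pt (m s : ℕ) : Option (Fin m) :=
  if h : 1 ≤ s ∧ s ≤ m then some ⟨s - 1, by omega⟩ else none

lemma pt_succ (m : ℕ) (s : Fin m) (x : ℕ) : (pt m x = some s ↔ x = s + 1) := by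
  unfold pt
  split_ifs with h
  · rw [Option.some_inj, Fin.ext_iff]
    simp only
    omega
  · constructor
    · intro e; cases e
    · intro e; exfalso; apply h; have := s.2; omega

/-- prefix sums -/
def P {m : ℕ} (d : Fin (m + 1) → ℝ) (s : ℕ) : ℝ := chi s ⬝ᵥ d

lemma P_zero {m : ℕ} (d : Fin (m + 1) → ℝ) : P d 0 = 0 := by
  simp [P, chi, dotProduct]

lemma P_top {m : ℕ} (d : Fin (m + 1) → ℝ) : P d (m + 1) = ∑ t, d t := by
  simp [P, chi, dotProduct, Fin.is_le]

lemma P_succ {m : ℕ} (d : Fin (m + 1) → ℝ) (t : Fin (m + 1)) :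
    P d (t + 1) - P d t = d t := by
  unfold P
  rw [← sub_dotProduct]
  have : (chi ((t : ℕ) + 1) - chi (t : ℕ) : Fin (m + 1) → ℝ) = Pi.single t 1 := by
    funext s
    simp only [chi, Pi.sub_apply, Pi.single_apply, Fin.ext_iff]
    split_ifs <;> first | omega | norm_num
  rw [this, single_one_dotProduct]

lemma P_eq {m : ℕ} (d : Fin (m + 1) → ℝ) (x : ℕ) (hx : x ≤ m + 1) :
    P d x = ∑ s : Fin m, (if pt m x = some s then (1 : ℝ) else 0) * P d (s + 1) +
      (if x = m + 1 then (1 : ℝ) else 0) * P d (m + 1) := by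
  by_cases h : 1 ≤ x ∧ x ≤ m
  · rw [if_neg (by omega), Finset.sum_eq_single (⟨x - 1, by omega⟩ : Fin m)]
    · rw [if_pos ((pt_succ m _ x).mpr (by simp only; omega))]
      have : x - 1 + 1 = x := by omega
      simp only [this]; ring
    · intro s _ hs
      rw [if_neg, zero_mul]
      rw [pt_succ]
      intro e
      apply hs
      rw [Fin.ext_iff]; simp only; omega
    · intro h; exact absurd (Finset.mem_univ _) h
  · have hz : ∀ s : Fin m, (if pt m x = some s then (1 : ℝ) else 0) * P d (s + 1) = 0 := by
      intro s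
      rw [if_neg, zero_mul]
      rw [pt_succ]
      intro e
      apply h
      have := s.2; omega
    rw [Finset.sum_eq_zero (fun s _ => hz s)]
    by_cases hx1 : x = m + 1
    · rw [if_pos hx1, hx1]; ring
    · rw [if_neg hx1]
      have : x = 0 := by omega
      rw [this, P_zero]; ring

/-- the integer coefficient of the last point -/
def lastCoef (m x y z w : ℕ) : ℤ :=
  ((if x = m + 1 then 1 else 0) - (if y = m + 1 then 1 else 0)) +
    ((if z = m + 1 then 1 else 0) - (if w = m + 1 then 1 else 0))

lemma q_dot {m : ℕ} (d : Fin (m + 1) → ℝ) (x y z w : ℕ) (hx : x ≤ m + 1) (hy : y ≤ m + 1)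
    (hz : z ≤ m + 1) (hw : w ≤ m + 1) :
    q x y z w ⬝ᵥ d = ∑ s : Fin m, (((nrow (pt m x) (pt m y) + nrow (pt m z) (pt m w)) s : ℤ) : ℝ)
      * P d (s + 1) + (lastCoef m x y z w : ℝ) * P d (m + 1) := by
  have h1 : q x y z w ⬝ᵥ d = (P d x - P d y) + (P d z - P d w) := by
    unfold q P
    rw [add_dotProduct, sub_dotProduct, sub_dotProduct]
  rw [h1, P_eq d x hx, P_eq d y hy, P_eq d z hz, P_eq d w hw]
  have h2 : ∀ s : Fin m, (((nrow (pt m x) (pt m y) + nrow (pt m z) (pt m w)) s : ℤ) : ℝ)
      * P d (s + 1) = ((if pt m x = some s then (1 : ℝ) else 0) * P d (s + 1) -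
        (if pt m y = some s then (1 : ℝ) else 0) * P d (s + 1)) +
        ((if pt m z = some s then (1 : ℝ) else 0) * P d (s + 1) -
        (if pt m w = some s then (1 : ℝ) else 0) * P d (s + 1)) := by
    intro s
    simp only [nrow, Pi.add_apply]
    push_cast
    ring
  rw [Finset.sum_congr rfl (fun s _ => h2 s), Finset.sum_add_distrib, Finset.sum_sub_distrib,
    Finset.sum_sub_distrib]
  unfold lastCoef
  push_cast
  ring

/-- The key estimate. -/
theorem core (m : ℕ) (x y z w : Fin m → ℕ) (hx : ∀ r, x r ≤ m + 1) (hy : ∀ r, y r ≤ m + 1)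
    (hz : ∀ r, z r ≤ m + 1) (hw : ∀ r, w r ≤ m + 1)
    (li : LinearIndependent ℝ (fun r => (q (x r) (y r) (z r) (w r) : Fin (m + 1) → ℝ)))
    (d : Fin (m + 1) → ℝ) (hpos : ∀ t, 0 < d t)
    (hker : ∀ r, q (x r) (y r) (z r) (w r) ⬝ᵥ d = 0) :
    ∀ t, ∑ i, d i ≤ 2 ^ m * d t := by
  classical
  set N : Matrix (Fin m) (Fin m) ℤ := Matrix.of (fun r => nrow (pt m (x r)) (pt m (y r)) +
    nrow (pt m (z r)) (pt m (w r))) with hN
  have hNle : |N.det| ≤ 2 ^ m := det_le m _ _ _ _
  set T : ℝ := ∑ i, d i with hT
  have hTpos : 0 < T := Finset.sum_pos (fun i _ => hpos i) ⟨0, Finset.mem_univ _⟩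
  -- the kernel is one-dimensional
  have hkerdim : ∀ v : Fin (m + 1) → ℝ, (∀ r, q (x r) (y r) (z r) (w r) ⬝ᵥ v = 0) →
      ∃ c : ℝ, c • d = v := by
    set Q : Matrix (Fin m) (Fin (m + 1)) ℝ := Matrix.of (fun r => q (x r) (y r) (z r) (w r)) with hQ
    have hrank : Q.rank = m := by
      have := LinearIndependent.rank_matrix (M := Q) li
      rw [this, Fintype.card_fin]
    have hfin : Module.finrank ℝ (LinearMap.ker Q.mulVecLin) = 1 := by
      have h := LinearMap.finrank_range_add_finrank_ker Q.mulVecLin
      have h2 : Module.finrank ℝ (LinearMap.range Q.mulVecLin) = m := hrank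
      rw [h2, Module.finrank_fin_fun] at h
      omega
    have hdker : d ∈ LinearMap.ker Q.mulVecLin := by
      rw [LinearMap.mem_ker, Matrix.mulVecLin_apply]
      funext r; exact hker r
    have hdne : (⟨d, hdker⟩ : LinearMap.ker Q.mulVecLin) ≠ 0 := by
      intro h
      have : d = 0 := congrArg Subtype.val h
      have h0 := hpos 0
      rw [this] at h0
      simp at h0
    intro v hv
    have hvker : v ∈ LinearMap.ker Q.mulVecLin := by
      rw [LinearMap.mem_ker, Matrix.mulVecLin_apply]
      funext r; exact hv r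
    obtain ⟨c, hc⟩ := (finrank_eq_one_iff_of_nonzero' _ hdne).mp hfin ⟨v, hvker⟩
    exact ⟨c, congrArg Subtype.val hc⟩
  -- the determinant does not vanish
  have hdet : N.det ≠ 0 := by
    intro h0
    have h0' : (N.map (Int.castRingHom ℝ)).det = 0 := by
      rw [← RingHom.mapMatrix_apply, ← RingHom.map_det, h0, map_zero]
    obtain ⟨v, hv0, hv⟩ := Matrix.exists_mulVec_eq_zero_iff.mpr h0'
    -- the vector with prefix sums `v` and total `0`
    let V : ℕ → ℝ := fun s => if h : 1 ≤ s ∧ s ≤ m then v ⟨s - 1, by omega⟩ else 0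
    let d' : Fin (m + 1) → ℝ := fun t => V (t + 1) - V t
    have hP : ∀ s, s ≤ m + 1 → P d' s = V s := by
      intro s
      induction s with
      | zero => intro _; rw [P_zero]; simp [V]
      | succ k ih =>
          intro hk
          have h1 := P_succ d' ⟨k, by omega⟩
          have h2 := ih (by omega)
          simp only at h1
          rw [h2] at h1
          have h3 : d' ⟨k, by omega⟩ = V (k + 1) - V k := rfl
          rw [h3] at h1
          linarith
    have hT' : P d' (m + 1) = 0 := by
      rw [hP _ le_rfl]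
      simp [V]
    have hk' : ∀ r, q (x r) (y r) (z r) (w r) ⬝ᵥ d' = 0 := by
      intro r
      rw [q_dot d' _ _ _ _ (hx r) (hy r) (hz r) (hw r), hT', mul_zero, add_zero]
      have h1 := congrFun hv r
      simp only [Matrix.mulVec, dotProduct, Pi.zero_apply] at h1
      rw [← h1]
      refine Finset.sum_congr rfl fun s _ => ?_
      have h2 : P d' (s + 1) = v s := by
        rw [hP _ (by have := s.2; omega)]
        simp only [V]
        have hs := s.2
        rw [dif_pos (by omega)]
        congr 1
      rw [h2]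
      rfl
    obtain ⟨c, hc⟩ := hkerdim d' hk'
    have hc0 : c = 0 := by
      have h1 : P d' (m + 1) = c * T := by
        rw [← hc, P_top, hT, Finset.mul_sum]; rfl
      rw [hT'] at h1
      rcases mul_eq_zero.mp h1.symm with h | h
      · exact h
      · exact absurd h hTpos.ne'
    apply hv0
    funext s
    have hs := s.2
    have h2 : P d' (s + 1) = v s := by
      rw [hP _ (by omega)]
      simp only [V]
      rw [dif_pos (by omega)]
      congr 1
    have h3 : d' = 0 := by rw [← hc, hc0, zero_smul]
    rw [← h2, h3]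
    simp [P]
  -- Cramer's rule
  set L : Fin m → ℤ := fun r => -lastCoef m (x r) (y r) (z r) (w r) with hL
  have hsys : (N.map (Int.castRingHom ℝ)).mulVec (fun s : Fin m => P d (s + 1)) =
      fun r => T * (L r : ℝ) := by
    funext r
    have h1 := hker r
    rw [q_dot d _ _ _ _ (hx r) (hy r) (hz r) (hw r), P_top] at h1
    have h2 : (N.map (Int.castRingHom ℝ)).mulVec (fun s : Fin m => P d (s + 1)) r =
        ∑ s : Fin m, (((nrow (pt m (x r)) (pt m (y r)) + nrow (pt m (z r)) (pt m (w r))) s : ℤ) : ℝ)
          * P d (s + 1) := rfl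
    rw [h2, hL]
    push_cast
    linarith
  have hint : ∀ s : Fin m, ∃ k : ℤ, (N.det : ℝ) * P d (s + 1) = T * k := by
    intro s
    refine ⟨(N.adjugate.mulVec L) s, ?_⟩
    have h1 : (N.map (Int.castRingHom ℝ)).adjugate.mulVec
        ((N.map (Int.castRingHom ℝ)).mulVec (fun s : Fin m => P d (s + 1))) =
        (N.map (Int.castRingHom ℝ)).adjugate.mulVec (fun r => T * (L r : ℝ)) := by rw [hsys]
    rw [Matrix.mulVec_mulVec, Matrix.adjugate_mul, Matrix.smul_mulVec, Matrix.one_mulVec] at h1
    have h2 := congrFun h1 s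
    have h3 : (N.map (Int.castRingHom ℝ)).det = (N.det : ℝ) := by
      rw [← RingHom.mapMatrix_apply, ← RingHom.map_det]; rfl
    have h4 : (N.map (Int.castRingHom ℝ)).adjugate = N.adjugate.map (Int.castRingHom ℝ) := by
      rw [← RingHom.mapMatrix_apply, ← RingHom.map_adjugate]; rfl
    rw [h3, h4] at h2
    simp only [Pi.smul_apply, smul_eq_mul] at h2
    rw [h2]
    simp only [Matrix.mulVec, dotProduct, Matrix.map_apply]
    push_cast
    rw [Finset.mul_sum]
    refine Finset.sum_congr rfl fun r _ => ?_
    simp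
    ring
  have hint' : ∀ s, s ≤ m + 1 → ∃ k : ℤ, (N.det : ℝ) * P d s = T * k := by
    intro s hs
    by_cases h0 : s = 0
    · exact ⟨0, by rw [h0, P_zero]; simp⟩
    · by_cases h1 : s = m + 1
      · exact ⟨N.det, by rw [h1, P_top, hT]; ring⟩
      · obtain ⟨k, hk⟩ := hint ⟨s - 1, by omega⟩
        refine ⟨k, ?_⟩
        have e : s - 1 + 1 = s := by omega
        simp only [e] at hk
        exact hk
  intro t
  have ht := t.2
  obtain ⟨k1, hk1⟩ := hint' (t + 1) (by omega)
  obtain ⟨k2, hk2⟩ := hint' t (by omega)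
  have hdt : (N.det : ℝ) * d t = T * ((k1 - k2 : ℤ) : ℝ) := by
    rw [← P_succ d t, mul_sub, hk1, hk2, Int.cast_sub]; ring
  have hk : (k1 - k2 : ℤ) ≠ 0 := by
    intro h
    rw [h] at hdt
    simp only [Int.cast_zero, mul_zero] at hdt
    rcases mul_eq_zero.mp hdt with h | h
    · exact hdet (by exact_mod_cast h)
    · exact absurd h (hpos t).ne'
  have habs : (1 : ℝ) ≤ |((k1 - k2 : ℤ) : ℝ)| := by
    have := Int.one_le_abs hk
    exact_mod_cast this
  have h1 : |(N.det : ℝ)| * d t = T * |((k1 - k2 : ℤ) : ℝ)| := by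
    rw [← abs_of_pos (hpos t), ← abs_mul, hdt, abs_mul, abs_of_pos hTpos]
  have h2 : |(N.det : ℝ)| ≤ 2 ^ m := by exact_mod_cast hNle
  calc T ≤ T * |((k1 - k2 : ℤ) : ℝ)| := by nlinarith
    _ = |(N.det : ℝ)| * d t := h1.symm
    _ ≤ 2 ^ m * d t := by
        apply mul_le_mul_of_nonneg_right h2 (hpos t).le

end NetDet
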