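import Mathlib
import Pool.Agent.V11177.NetDet

/-! The doubling sequence `1,1,2,4,...` and the final step of the minimum computation. -/

namespace NetDet

open Matrix Finset

/-- `1,1,2,4,8,...` -/
def dbl (t : ℕ) : ℕ := if t = 0 then 1 else 2 ^ (t - 1)

lemma dbl_pos (t : ℕ) : 1 ≤ dbl t := by
  unfold dbl; split_ifs
  · exact le_rfl
  · exact Nat.one_le_two_pow

lemma sum_dbl (n : ℕ) : ∑ t ∈ range (n + 1), dbl t = 2 ^ n := by
  induction n with
  | zero => simp [dbl]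
  | succ k ih =>
      rw [Finset.sum_range_succ, ih]
      simp only [dbl, Nat.succ_ne_zero, if_false, Nat.add_sub_cancel]
      ring

lemma dbl_li (m : ℕ) : LinearIndependent ℝ
    (fun r : Fin m => (q ((r : ℕ) + 1) 0 ((r : ℕ) + 1) ((r : ℕ) + 2) : Fin (m + 1) → ℝ)) := by
  -- restrict to the coordinates `1,...,m`
  let f : (Fin (m + 1) → ℝ) →ₗ[ℝ] (Fin m → ℝ) := LinearMap.funLeft ℝ ℝ Fin.succ
  apply LinearIndependent.of_comp f
  set Mx : Matrix (Fin m) (Fin m) ℝ := Matrix.of (fun r s =>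
    (q ((r : ℕ) + 1) 0 ((r : ℕ) + 1) ((r : ℕ) + 2) : Fin (m + 1) → ℝ) s.succ) with hMx
  have hent : ∀ r s, Mx r s = if s < r then 1 else if s = r then -1 else 0 := by
    intro r s
    simp only [hMx, Matrix.of_apply, q, chi, Pi.add_apply, Pi.sub_apply, Fin.val_succ,
      Fin.lt_def, Fin.ext_iff]
    split_ifs <;> first | omega | norm_num
  have htri : Mx.BlockTriangular OrderDual.toDual := by
    intro i j hij
    have h : i < j := hij
    rw [hent, if_neg (not_lt.mpr h.le), if_neg h.ne']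
  have hdet : Mx.det ≠ 0 := by
    rw [Matrix.det_of_isLowerTriangular Mx htri]
    apply Finset.prod_ne_zero_iff.mpr
    intro i _
    rw [hent, if_neg (lt_irrefl i), if_pos rfl]
    norm_num
  have := Matrix.linearIndependent_rows_of_det_ne_zero hdet
  exact this

lemma dbl_dot (m : ℕ) (r : Fin m) :
    (q ((r : ℕ) + 1) 0 ((r : ℕ) + 1) ((r : ℕ) + 2) : Fin (m + 1) → ℝ) ⬝ᵥ
      (fun t : Fin (m + 1) => (dbl t : ℝ)) = 0 := by
  have hP : ∀ s, s ≤ m → P (fun t : Fin (m + 1) => (dbl t : ℝ)) (s + 1) = 2 ^ s := by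
    intro s
    induction s with
    | zero =>
        intro _
        have h := P_succ (fun t : Fin (m + 1) => (dbl t : ℝ)) 0
        have hd : ((dbl 0 : ℕ) : ℝ) = 1 := by simp [dbl]
        simp only [Fin.val_zero] at h
        rw [P_zero, hd] at h
        rw [pow_zero]
        linarith
    | succ k ih =>
        intro hk
        have h := P_succ (fun t : Fin (m + 1) => (dbl t : ℝ)) ⟨k + 1, by omega⟩
        have hd : ((dbl (k + 1) : ℕ) : ℝ) = 2 ^ k := by simp [dbl]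
        simp only at h
        rw [ih (by omega), hd] at h
        rw [pow_succ]
        linarith
  have hr := r.2
  unfold q
  rw [add_dotProduct, sub_dotProduct, sub_dotProduct]
  have e1 : (chi ((r : ℕ) + 1) : Fin (m + 1) → ℝ) ⬝ᵥ (fun t : Fin (m + 1) => (dbl t : ℝ)) =
      2 ^ (r : ℕ) := hP r (by omega)
  have e2 : (chi ((r : ℕ) + 2) : Fin (m + 1) → ℝ) ⬝ᵥ (fun t : Fin (m + 1) => (dbl t : ℝ)) =
      2 ^ ((r : ℕ) + 1) := hP (r + 1) (by omega)
  have e3 : (chi 0 : Fin (m + 1) → ℝ) ⬝ᵥ (fun t : Fin (m + 1) => (dbl t : ℝ)) = 0 := P_zero _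
  rw [e1, e2, e3, pow_succ]
  ring

lemma dbl_total (m : ℕ) : ∑ t : Fin (m + 1), ((dbl t : ℕ) : ℝ) = 2 ^ m := by
  have h := sum_dbl m
  rw [Finset.sum_range] at h
  exact_mod_cast h

lemma dbl_gcd (m : ℕ) : Finset.univ.gcd (fun t : Fin (m + 1) => dbl t) = 1 := by
  have h : Finset.univ.gcd (fun t : Fin (m + 1) => dbl t) ∣ dbl ((0 : Fin (m + 1)) : ℕ) :=
    Finset.gcd_dvd (Finset.mem_univ 0)
  have h1 : dbl ((0 : Fin (m + 1)) : ℕ) = 1 := by simp [dbl]
  rw [h1] at h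
  exact Nat.dvd_one.mp h

lemma dbl_iInf (m : ℕ) : (⨅ t : Fin (m + 1), ((dbl t : ℕ) : ℝ)) = 1 := by
  apply le_antisymm
  · refine (ciInf_le (Set.finite_range _).bddBelow (0 : Fin (m + 1))).trans ?_
    simp [dbl]
  · apply le_ciInf
    intro t
    exact_mod_cast dbl_pos t

/-- final step: a uniform bound `∑ d ≤ 2^m d_t` bounds the ratio from below -/
lemma ratio_ge (m : ℕ) (d : Fin (m + 1) → ℝ) (hpos : ∀ t, 0 < d t)
    (h : ∀ t, ∑ i, d i ≤ 2 ^ m * d t) : 1 / 2 ^ m ≤ (⨅ t, d t) / ∑ t, d t := by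
  have hT : 0 < ∑ i, d i := Finset.sum_pos (fun i _ => hpos i) ⟨0, Finset.mem_univ _⟩
  have h1 : (∑ i, d i) / 2 ^ m ≤ ⨅ t, d t := by
    apply le_ciInf
    intro t
    rw [div_le_iff₀ (by positivity)]
    have := h t
    linarith
  rw [div_le_div_iff₀ (by positivity) hT]
  rw [div_le_iff₀ (by positivity)] at h1
  linarith

end NetDet
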