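import Mathlib

/-! Quiddity solutions over `ℤ/Nℤ`: definitions and basic facts. -/

namespace Pool.Agent.V11177.Quiddity

open Matrix

variable {N : ℕ}

/-- the matrix with rows `(a, -1)` and `(1, 0)` -/
def mat (a : ZMod N) : Matrix (Fin 2) (Fin 2) (ZMod N) := !![a, -1; 1, 0]

/-- `M_n(a_1,…,a_n) = mat a_n * ⋯ * mat a_1` for the tuple `[a_1,…,a_n]` -/
def M : List (ZMod N) → Matrix (Fin 2) (Fin 2) (ZMod N)
  | [] => 1
  | a :: l => M l * mat a

/-- `l` is a solution of `(E_N)` -/
def IsSol (l : List (ZMod N)) : Prop := M l = 1 ∨ M l = -1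

/-- `c = a ⊕ b`, i.e. `a = (a_1,…,a_n)`, `b = (b_1,…,b_m)` and
`c = (a_1+b_m, a_2,…,a_{n-1}, a_n+b_1, b_2,…,b_{m-1})` -/
def IsSum (a b c : List (ZMod N)) : Prop :=
  ∃ (a1 : ZMod N) (al : List (ZMod N)) (an b1 : ZMod N) (be : List (ZMod N)) (bm : ZMod N),
    a = a1 :: (al ++ [an]) ∧ b = b1 :: (be ++ [bm]) ∧
    c = (a1 + bm) :: (al ++ (an + b1) :: be)

/-- `b` is a cyclic rotation of `a` or of the reversal of `a` -/
def Equivalent (a b : List (ZMod N)) : Prop := a.IsRotated b ∨ a.reverse.IsRotated b

/-- `c` is equivalent to the sum of two solutions of size at least three -/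
def Reducible (c : List (ZMod N)) : Prop :=
  ∃ a b d : List (ZMod N), IsSol a ∧ IsSol b ∧ 3 ≤ a.length ∧ 3 ≤ b.length ∧ IsSum a b d ∧
    Equivalent c d

/-- irreducible solutions of `(E_N)` -/
def Irred (c : List (ZMod N)) : Prop := IsSol c ∧ 3 ≤ c.length ∧ ¬ Reducible c

theorem M_append (x y : List (ZMod N)) : M (x ++ y) = M y * M x := by
  induction x with
  | nil => simp [M]
  | cons a l ih =>
    simp only [List.cons_append, M, ih]
    rw [Matrix.mul_assoc]

theorem det_mat (a : ZMod N) : (mat a).det = 1 := by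
  simp [mat, Matrix.det_fin_two_of]

theorem det_M (l : List (ZMod N)) : (M l).det = 1 := by
  induction l with
  | nil => simp [M]
  | cons a l ih => rw [M, det_mul, ih, det_mat, one_mul]

theorem isSol_comm {x y : List (ZMod N)} (h : IsSol (x ++ y)) : IsSol (y ++ x) := by
  unfold IsSol at *
  rw [M_append] at *
  rcases h with h | h
  · left
    exact mul_eq_one_comm.1 h
  · right
    have h1 : (-M y) * M x = 1 := by rw [neg_mul, h, neg_neg]
    have h2 := mul_eq_one_comm.1 h1
    rw [mul_neg] at h2
    exact neg_eq_iff_eq_neg.1 h2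

theorem isSol_iff (l : List (ZMod N)) :
    IsSol l ↔ ∃ e : ZMod N, (e = 1 ∨ e = -1) ∧ M l = e • (1 : Matrix (Fin 2) (Fin 2) (ZMod N)) := by
  unfold IsSol
  constructor
  · rintro (h | h)
    · exact ⟨1, Or.inl rfl, by rw [h, one_smul]⟩
    · exact ⟨-1, Or.inr rfl, by rw [h, neg_smul, one_smul]⟩
  · rintro ⟨e, rfl | rfl, h⟩
    · left; rw [h, one_smul]
    · right; rw [h, neg_smul, one_smul]

theorem M_split (u v : ZMod N) (al : List (ZMod N)) :
    M (u :: (al ++ [v])) = mat v * M al * mat u := by
  simp [M, M_append]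

/-- a block with continuant `±1` whose complement has at least three entries makes a solution
reducible -/
theorem reducible_of_block {x be y : List (ZMod N)} (hc : IsSol (x ++ be ++ y)) (hbe : be ≠ [])
    (hxy : 3 ≤ (y ++ x).length) (hK : M be 0 0 = 1 ∨ M be 0 0 = -1) :
    Reducible (x ++ be ++ y) := by
  obtain ⟨u, al, v, hal, hyx⟩ : ∃ (u : ZMod N) (al : List (ZMod N)) (v : ZMod N), 1 ≤ al.length ∧
      y ++ x = u :: (al ++ [v]) := by
    rcases hl : y ++ x with _ | ⟨u, t⟩
    · rw [hl] at hxy; simp at hxy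
    · rw [hl] at hxy
      have ht : t ≠ [] := by rintro rfl; simp at hxy
      refine ⟨u, t.dropLast, t.getLast ht, ?_, by rw [List.dropLast_append_getLast]⟩
      rw [List.length_dropLast]
      simp only [List.length_cons] at hxy
      omega
  have hd : IsSol ((u :: (al ++ [v])) ++ be) := by
    rw [← hyx, List.append_assoc]
    exact isSol_comm hc
  obtain ⟨eta, heta, hMd⟩ := (isSol_iff _).1 hd
  rw [M_append, M_split] at hMd
  have hdet := det_M be
  have hX : mat v * M al * mat u = eta • adjugate (M be) := by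
    calc mat v * M al * mat u = adjugate (M be) * (M be * (mat v * M al * mat u)) := by
          rw [← mul_assoc (adjugate _), adjugate_mul, det_M, one_smul, one_mul]
      _ = eta • adjugate (M be) := by rw [hMd]; simp
  rw [Matrix.det_fin_two] at hdet
  have e00 := congr_fun (congr_fun hX 0) 0
  have e01 := congr_fun (congr_fun hX 0) 1
  have e10 := congr_fun (congr_fun hX 1) 0
  have e11 := congr_fun (congr_fun hX 1) 1
  simp only [mat, Matrix.adjugate_fin_two, Matrix.mul_apply, Fin.sum_univ_two, Matrix.smul_apply,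
    Matrix.of_apply, Matrix.cons_val', Matrix.cons_val_zero, Matrix.cons_val_one,
    smul_eq_mul] at e00 e01 e10 e11
  set ep := M be 0 0 with hep
  have hep2 : ep * ep = 1 := by rcases hK with h | h <;> rw [h] <;> ring
  set P := M be 0 1 with hP
  set Q := M be 1 0 with hQ
  set S := M be 1 1 with hS
  refine ⟨(u - ep * Q) :: (al ++ [v - (-(ep * P))]), (-(ep * P)) :: (be ++ [ep * Q]),
    u :: (al ++ v :: be), ?_, ?_, ?_, ?_, ?_, ?_⟩
  · rw [isSol_iff]
    refine ⟨eta * ep, ?_, ?_⟩
    · rcases heta with h | h <;> rcases hK with h' | h' <;> rw [h, h'] <;> simp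
    · rw [M_split]
      ext i j
      fin_cases i <;> fin_cases j <;>
      simp only [mat, Matrix.mul_apply, Fin.sum_univ_two, Matrix.smul_apply,
        Matrix.of_apply, Matrix.cons_val', Matrix.cons_val_zero, Matrix.cons_val_one,
        smul_eq_mul, Fin.zero_eta, Fin.mk_one, Matrix.one_apply_eq, Fin.isValue]
      · linear_combination e00 + (ep * Q) * e01 + (ep * P) * e10 + (ep * P * ep * Q) * e11 + eta * ep * hdet + (-(eta * S) + eta * ep * P * Q) * hep2
      · rw [Matrix.one_apply_ne (by decide)]
        linear_combination e01 + (ep * P) * e11 + (eta * P) * hep2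
      · rw [Matrix.one_apply_ne (by decide)]
        linear_combination e10 + (ep * Q) * e11 + (eta * Q) * hep2
      · linear_combination e11
  · rw [isSol_iff]
    refine ⟨-ep, ?_, ?_⟩
    · rcases hK with h' | h' <;> rw [h'] <;> simp
    · rw [M_split]
      ext i j
      fin_cases i <;> fin_cases j <;>
      simp only [mat, Matrix.mul_apply, Fin.sum_univ_two, Matrix.smul_apply,
        Matrix.of_apply, Matrix.cons_val', Matrix.cons_val_zero, Matrix.cons_val_one,
        smul_eq_mul, Fin.zero_eta, Fin.mk_one, Matrix.one_apply_eq, Fin.isValue, ← hep, ← hP, ← hQ, ← hS]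
      · linear_combination (-(ep * P * Q) + S) * hep2 - ep * hdet
      · rw [Matrix.one_apply_ne (by decide)]
        linear_combination (-Q) * hep2
      · rw [Matrix.one_apply_ne (by decide)]
        linear_combination (-P) * hep2
      · ring
  · simp only [List.length_cons, List.length_append, List.length_nil]
    omega
  · have : 1 ≤ be.length := by
      rcases be with _ | ⟨_, _⟩
      · exact absurd rfl hbe
      · simp
    simp only [List.length_cons, List.length_append, List.length_nil]
    omega
  · exact ⟨_, _, _, _, _, _, rfl, rfl, by simp⟩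
  · left
    have h1 : (u :: (al ++ v :: be)) = y ++ (x ++ be) := by
      rw [← List.append_assoc, hyx]
      simp
    rw [h1, show x ++ be ++ y = (x ++ be) ++ y from rfl]
    exact List.isRotated_append

end Pool.Agent.V11177.Quiddity
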