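import Mathlib

/-! Toric ideal of the polytope `S_n`, graded reverse lexicographic orders, reduced Groebner
bases. -/

namespace ToricSn

open Finset MvPolynomial

/-- lattice points of `S_n`: symmetric nonnegative integer matrices with all line sums `2` -/
abbrev Lat (n : ℕ) := {M : Matrix (Fin n) (Fin n) ℕ //
  (∀ i j, M i j = M j i) ∧ ∀ i, ∑ j, M i j = 2}

/-- number of entries equal to `2` -/
def twos {n : ℕ} (M : Lat n) : ℕ :=
  (univ.filter (fun p : Fin n × Fin n => M.1 p.1 p.2 = 2)).card

/-- `lt` is a (strict) total order extending the partial order: matrices with more entries equal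
to `2` are smaller -/
structure Admissible {n : ℕ} (lt : Lat n → Lat n → Prop) : Prop where
  strictTotal : IsStrictTotalOrder (Lat n) lt
  ext : ∀ M N, twos N < twos M → lt M N

/-- graded reverse lexicographic order `u ≺ v` on monomials (exponent vectors), the variables being
ordered by `lt` -/
def rlt {n : ℕ} (lt : Lat n → Lat n → Prop) (u v : Lat n →₀ ℕ) : Prop :=
  u.degree < v.degree ∨
    (u.degree = v.degree ∧ ∃ M, v M < u M ∧ ∀ N, lt N M → u N = v N)

/-- the map `π`, `t_M ↦ x^M z`; `none` is the index of `z` -/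
noncomputable def toricMap (n : ℕ) (k : Type*) [Field k] :
    MvPolynomial (Lat n) k →ₐ[k] MvPolynomial (Option (Fin n × Fin n)) k :=
  aeval (fun M : Lat n => (∏ p : Fin n × Fin n, X (some p) ^ (M.1 p.1 p.2)) * X none)

/-- the toric ideal of `S_n` -/
noncomputable def toricIdeal (n : ℕ) (k : Type*) [Field k] : Ideal (MvPolynomial (Lat n) k) :=
  RingHom.ker (toricMap n k)

/-- `w` is the leading monomial of `f` -/
def IsLead {n : ℕ} {k : Type*} [Field k] (lt : Lat n → Lat n → Prop)
    (f : MvPolynomial (Lat n) k) (w : Lat n →₀ ℕ) : Prop :=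
  w ∈ f.support ∧ ∀ v ∈ f.support, v ≠ w → rlt lt v w

/-- `G` is a reduced Groebner basis of the toric ideal of `S_n` -/
structure IsReducedGB {n : ℕ} {k : Type*} [Field k] (lt : Lat n → Lat n → Prop)
    (G : Set (MvPolynomial (Lat n) k)) : Prop where
  sub : ∀ g ∈ G, g ∈ toricIdeal n k
  basis : ∀ f ∈ toricIdeal n k, f ≠ 0 →
    ∃ g ∈ G, ∃ w v, IsLead lt f w ∧ IsLead lt g v ∧ v ≤ w
  monic : ∀ g ∈ G, ∃ v, IsLead lt g v ∧ coeff v g = 1
  reduced : ∀ g ∈ G, ∀ h ∈ G, h ≠ g → ∀ v, IsLead lt h v → ∀ w ∈ g.support, ¬ v ≤ w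

/-- the matrix of a monomial: the sum, with multiplicity, of the lattice points indexing it -/
noncomputable def matSum {n : ℕ} (u : Lat n →₀ ℕ) : Matrix (Fin n) (Fin n) ℕ :=
  u.sum (fun M e => e • M.1)

/-- the matrix `A` has a block form -/
def BlockForm {n : ℕ} (A : Matrix (Fin n) (Fin n) ℕ) : Prop :=
  ∃ V : Finset (Fin n), V.Nonempty ∧ Vᶜ.Nonempty ∧ ∀ i ∈ V, ∀ j ∈ Vᶜ, A i j = 0

/-! ### The order -/

section order

variable {n : ℕ} {lt : Lat n → Lat n → Prop}

lemma rlt_trans (h : IsStrictTotalOrder (Lat n) lt) {u v w : Lat n →₀ ℕ}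
    (h1 : rlt lt u v) (h2 : rlt lt v w) : rlt lt u w := by
  rcases h1 with h1 | ⟨h1, M, hM, hM'⟩
  · rcases h2 with h2 | ⟨h2, -⟩
    · exact Or.inl (h1.trans h2)
    · exact Or.inl (h2 ▸ h1)
  · rcases h2 with h2 | ⟨h2, N, hN, hN'⟩
    · exact Or.inl (h1 ▸ h2)
    · refine Or.inr ⟨h1.trans h2, ?_⟩
      rcases trichotomous_of lt M N with h3 | h3 | h3
      · refine ⟨M, ?_, fun K hK => (hM' K hK).trans (hN' K (_root_.trans hK h3))⟩
        rw [← hN' M h3]; exact hM
      · subst h3
        exact ⟨M, hN.trans hM, fun K hK => (hM' K hK).trans (hN' K hK)⟩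
      · refine ⟨N, ?_, fun K hK => (hM' K (_root_.trans hK h3)).trans (hN' K hK)⟩
        rw [hM' N h3]; exact hN

lemma rlt_irrefl {u : Lat n →₀ ℕ} : ¬ rlt lt u u := by
  rintro (h | ⟨_, M, hM, _⟩)
  · exact lt_irrefl _ h
  · exact lt_irrefl _ hM

lemma rlt_asymm (h : IsStrictTotalOrder (Lat n) lt) {u v : Lat n →₀ ℕ}
    (h1 : rlt lt u v) (h2 : rlt lt v u) : False := rlt_irrefl (rlt_trans h h1 h2)

instance finite_Lat (n : ℕ) : Finite (Lat n) := by
  have hle : ∀ (M : Lat n) (i j : Fin n), M.1 i j < 3 := by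
    intro M i j
    have h1 := M.2.2 i
    have h2 : M.1 i j ≤ ∑ j, M.1 i j := Finset.single_le_sum (fun _ _ => Nat.zero_le _) (mem_univ j)
    omega
  refine Finite.of_injective (β := Fin n → Fin n → Fin 3) (fun M i j => ⟨M.1 i j, hle M i j⟩) ?_
  intro M N h
  apply Subtype.ext
  funext i j
  have := congrFun (congrFun h i) j
  exact congrArg Fin.val this

lemma rlt_total (h : IsStrictTotalOrder (Lat n) lt) {u v : Lat n →₀ ℕ} (huv : u ≠ v) :
    rlt lt u v ∨ rlt lt v u := by
  rcases Nat.lt_trichotomy u.degree v.degree with h1 | h1 | h1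
  · exact Or.inl (Or.inl h1)
  · have hwf : WellFounded lt := Finite.wellFounded_of_trans_of_irrefl lt
    obtain ⟨M0, hM0⟩ : ∃ M, u M ≠ v M := by
      by_contra hc
      push Not at hc
      exact huv (Finsupp.ext hc)
    have hmin := hwf.min_mem {M | u M ≠ v M} ⟨M0, hM0⟩
    set M := hwf.min {M | u M ≠ v M} ⟨M0, hM0⟩ with hM
    have hlt : ∀ N, lt N M → u N = v N := by
      intro N hN
      by_contra hc
      exact hwf.not_lt_min {M | u M ≠ v M} hc hN
    rcases Nat.lt_or_gt_of_ne hmin with h2 | h2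
    · exact Or.inr (Or.inr ⟨h1.symm, M, h2, fun N hN => (hlt N hN).symm⟩)
    · exact Or.inl (Or.inr ⟨h1, M, h2, hlt⟩)
  · exact Or.inr (Or.inl h1)

lemma rlt_add {u v a : Lat n →₀ ℕ} (h : rlt lt u v) : rlt lt (a + u) (a + v) := by
  rcases h with h | ⟨h, M, hM, hM'⟩
  · left
    rw [map_add, map_add]; omega
  · right
    refine ⟨by rw [map_add, map_add, h], M, ?_, fun N hN => ?_⟩
    · rw [Finsupp.add_apply, Finsupp.add_apply]; omega
    · rw [Finsupp.add_apply, Finsupp.add_apply, hM' N hN]

lemma rlt_of_add {u v a : Lat n →₀ ℕ} (h : rlt lt (a + u) (a + v)) : rlt lt u v := by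
  rcases h with h | ⟨h, M, hM, hM'⟩
  · left
    rw [map_add, map_add] at h; omega
  · right
    rw [map_add, map_add] at h
    refine ⟨by omega, M, ?_, fun N hN => ?_⟩
    · rw [Finsupp.add_apply, Finsupp.add_apply] at hM; omega
    · have := hM' N hN
      rw [Finsupp.add_apply, Finsupp.add_apply] at this; omega

lemma exists_max (h : IsStrictTotalOrder (Lat n) lt) (s : Finset (Lat n →₀ ℕ)) :
    s.Nonempty → ∃ w ∈ s, ∀ v ∈ s, v ≠ w → rlt lt v w := by
  classical
  induction s using Finset.induction_on with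
  | empty => intro h; exact absurd h (by simp)
  | insert a s ha ih =>
    intro _
    rcases s.eq_empty_or_nonempty with hs | hs
    · subst hs
      refine ⟨a, by simp, fun v hv hva => ?_⟩
      simp at hv
      exact absurd hv hva
    · obtain ⟨w, hw, hw'⟩ := ih hs
      have haw : a ≠ w := fun e => ha (e ▸ hw)
      rcases rlt_total h haw with h1 | h1
      · refine ⟨w, mem_insert_of_mem hw, fun v hv hvw => ?_⟩
        rcases mem_insert.mp hv with h2 | h2
        · rw [h2]; exact h1
        · exact hw' v h2 hvw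
      · refine ⟨a, mem_insert_self _ _, fun v hv hva => ?_⟩
        rcases mem_insert.mp hv with h2 | h2
        · exact absurd h2 hva
        · by_cases hvw : v = w
          · rw [hvw]; exact h1
          · exact rlt_trans h (hw' v h2 hvw) h1

lemma exists_min (h : IsStrictTotalOrder (Lat n) lt) (s : Finset (Lat n →₀ ℕ)) :
    s.Nonempty → ∃ w ∈ s, ∀ v ∈ s, v ≠ w → rlt lt w v := by
  classical
  induction s using Finset.induction_on with
  | empty => intro h; exact absurd h (by simp)
  | insert a s ha ih =>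
    intro _
    rcases s.eq_empty_or_nonempty with hs | hs
    · subst hs
      refine ⟨a, by simp, fun v hv hva => ?_⟩
      simp at hv
      exact absurd hv hva
    · obtain ⟨w, hw, hw'⟩ := ih hs
      have haw : a ≠ w := fun e => ha (e ▸ hw)
      rcases rlt_total h haw with h1 | h1
      · refine ⟨a, mem_insert_self _ _, fun v hv hva => ?_⟩
        rcases mem_insert.mp hv with h2 | h2
        · exact absurd h2 hva
        · by_cases hvw : v = w
          · rw [hvw]; exact h1
          · exact rlt_trans h h1 (hw' v h2 hvw)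
      · refine ⟨w, mem_insert_of_mem hw, fun v hv hvw => ?_⟩
        rcases mem_insert.mp hv with h2 | h2
        · rw [h2]; exact h1
        · exact hw' v h2 hvw

end order

/-! ### The toric map on monomials -/

section toric

variable {n : ℕ} {k : Type*} [Field k]

/-- exponent of `x^M z` -/
noncomputable def expo1 (M : Lat n) : Option (Fin n × Fin n) →₀ ℕ :=
  Finsupp.equivFunOnFinite.symm (fun o => o.elim 1 (fun p => M.1 p.1 p.2))

/-- exponent of the image of a monomial -/
noncomputable def expo (u : Lat n →₀ ℕ) : Option (Fin n × Fin n) →₀ ℕ :=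
  u.sum (fun M e => e • expo1 M)

lemma expo_add (u v : Lat n →₀ ℕ) : expo (u + v) = expo u + expo v := by
  unfold expo
  exact Finsupp.sum_add_index' (fun _ => zero_smul _ _) (fun _ _ _ => add_smul _ _ _)

lemma expo_single (M : Lat n) : expo (Finsupp.single M 1) = expo1 M := by
  unfold expo
  rw [Finsupp.sum_single_index (by simp), one_smul]

lemma expo_none (u : Lat n →₀ ℕ) : expo u none = u.degree := by
  unfold expo Finsupp.sum
  rw [Finsupp.finsetSum_apply, Finsupp.degree_apply]
  refine Finset.sum_congr rfl fun M _ => ?_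
  simp [expo1]

lemma expo_some (u : Lat n →₀ ℕ) (p : Fin n × Fin n) : expo u (some p) = matSum u p.1 p.2 := by
  unfold expo matSum Finsupp.sum
  rw [Finsupp.finsetSum_apply, Matrix.sum_apply]
  refine Finset.sum_congr rfl fun M _ => ?_
  simp [expo1]

lemma expo_eq_iff (u v : Lat n →₀ ℕ) :
    expo u = expo v ↔ (u.degree = v.degree ∧ matSum u = matSum v) := by
  constructor
  · intro h
    refine ⟨by rw [← expo_none, ← expo_none, h], ?_⟩
    ext i j
    have := congrArg (fun e => e (some (i, j))) h
    simpa only [expo_some] using this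
  · rintro ⟨h1, h2⟩
    ext o
    rcases o with _ | p
    · rw [expo_none, expo_none, h1]
    · rw [expo_some, expo_some, h2]

lemma toricMap_X (M : Lat n) :
    ((∏ p : Fin n × Fin n, X (some p) ^ (M.1 p.1 p.2)) * X none :
      MvPolynomial (Option (Fin n × Fin n)) k) = monomial (expo1 M) 1 := by
  rw [monomial_eq, C_1, one_mul, Finsupp.prod_fintype _ _ (fun _ => pow_zero _),
    Fintype.prod_option]
  simp only [expo1, Finsupp.equivFunOnFinite_symm_apply_apply, Option.elim]
  rw [pow_one, mul_comm]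

lemma toricMap_monomial (u : Lat n →₀ ℕ) (c : k) :
    toricMap n k (monomial u c) = monomial (expo u) c := by
  unfold toricMap
  rw [aeval_monomial]
  simp only [toricMap_X]
  have h1 : (u.prod fun M e => (monomial (expo1 M) (1 : k)) ^ e) = monomial (expo u) 1 := by
    unfold Finsupp.prod expo Finsupp.sum
    rw [monomial_sum_one]
    refine Finset.prod_congr rfl fun M _ => ?_
    show (monomial (expo1 M) (1 : k)) ^ (u M) = monomial (u M • expo1 M) 1
    rw [monomial_pow, one_pow]
  rw [h1, algebraMap_eq, C_mul_monomial, mul_one]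

lemma coeff_toricMap (f : MvPolynomial (Lat n) k) (e : Option (Fin n × Fin n) →₀ ℕ) :
    coeff e (toricMap n k f) = ∑ u ∈ f.support, if expo u = e then coeff u f else 0 := by
  conv_lhs => rw [f.as_sum]
  rw [map_sum, coeff_sum]
  refine Finset.sum_congr rfl fun u _ => ?_
  rw [toricMap_monomial, coeff_monomial]

lemma exists_other {f : MvPolynomial (Lat n) k} (hf : f ∈ toricIdeal n k) {w : Lat n →₀ ℕ}
    (hw : w ∈ f.support) : ∃ v ∈ f.support, v ≠ w ∧ expo v = expo w := by
  by_contra hc
  push Not at hc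
  have h0 : toricMap n k f = 0 := hf
  have h1 := coeff_toricMap f (expo w)
  rw [h0, coeff_zero, Finset.sum_eq_single_of_mem w hw, if_pos rfl] at h1
  · exact (mem_support_iff.mp hw) h1.symm
  · intro b hb hbw
    rw [if_neg (hc b hb hbw)]

lemma binomial_mem {u v : Lat n →₀ ℕ} (h : expo u = expo v) :
    (monomial u 1 - monomial v 1 : MvPolynomial (Lat n) k) ∈ toricIdeal n k := by
  show toricMap n k _ = 0
  rw [map_sub, toricMap_monomial, toricMap_monomial, h, sub_self]

end toric

/-! ### Standard monomials -/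

section std

variable {n : ℕ} {k : Type*} [Field k] {lt : Lat n → Lat n → Prop}

/-- `w` is the smallest monomial in its fiber -/
def Std (lt : Lat n → Lat n → Prop) (w : Lat n →₀ ℕ) : Prop :=
  ∀ v, expo v = expo w → v ≠ w → rlt lt w v

lemma Std.of_le {w v : Lat n →₀ ℕ} (hw : Std lt w) (hv : v ≤ w) : Std lt v := by
  intro v' he hne
  obtain ⟨a, rfl⟩ : ∃ a, w = a + v := ⟨w - v, (tsub_add_cancel_of_le hv).symm⟩
  apply rlt_of_add (a := a)
  apply hw
  · rw [expo_add, expo_add, he]
  · intro h; exact hne (add_left_cancel h)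

lemma lead_not_std (h : IsStrictTotalOrder (Lat n) lt) {f : MvPolynomial (Lat n) k}
    (hf : f ∈ toricIdeal n k) {w : Lat n →₀ ℕ} (hw : IsLead lt f w) : ¬ Std lt w := by
  intro hs
  obtain ⟨v, hv, hvw, he⟩ := exists_other hf hw.1
  exact rlt_asymm h (hw.2 v hv hvw) (hs v he hvw)

lemma lead_unique (h : IsStrictTotalOrder (Lat n) lt) {f : MvPolynomial (Lat n) k}
    {w w' : Lat n →₀ ℕ} (hw : IsLead lt f w) (hw' : IsLead lt f w') : w = w' := by
  by_contra hne
  exact rlt_asymm h (hw.2 w' hw'.1 (Ne.symm hne)) (hw'.2 w hw.1 hne)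

lemma exists_lead (h : IsStrictTotalOrder (Lat n) lt) {f : MvPolynomial (Lat n) k} (hf : f ≠ 0) :
    ∃ w, IsLead lt f w := by
  have : f.support.Nonempty := by
    rw [Finset.nonempty_iff_ne_empty]
    intro h0
    exact hf (by rwa [support_eq_empty] at h0)
  obtain ⟨w, hw, hw'⟩ := exists_max h f.support this
  exact ⟨w, hw, hw'⟩

lemma support_binomial {u v : Lat n →₀ ℕ} (huv : u ≠ v) (x : Lat n →₀ ℕ) :
    x ∈ (monomial u 1 - monomial v 1 : MvPolynomial (Lat n) k).support ↔ x = u ∨ x = v := by
  rw [mem_support_iff, coeff_sub, coeff_monomial, coeff_monomial]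
  by_cases h1 : u = x
  · subst h1
    rw [if_pos rfl, if_neg (Ne.symm huv)]
    simp
  · by_cases h2 : v = x
    · subst h2
      rw [if_neg h1, if_pos rfl]
      simp
    · rw [if_neg h1, if_neg h2]
      simp [eq_comm, h1, h2]

lemma lead_binomial {u v : Lat n →₀ ℕ} (huv : rlt lt v u) :
    IsLead lt (monomial u 1 - monomial v 1 : MvPolynomial (Lat n) k) u := by
  have hne : u ≠ v := fun e => rlt_irrefl (lt := lt) (u := v) (by rw [e] at huv; exact huv)
  refine ⟨(support_binomial hne u).mpr (Or.inl rfl), fun x hx hxu => ?_⟩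
  rcases (support_binomial hne x).mp hx with h | h
  · exact absurd h hxu
  · rw [h]; exact huv

/-- a binomial whose smaller monomial is standard and whose leading monomial is a minimal
non-standard monomial belongs to every reduced Groebner basis -/
theorem mem_of_reducedGB (h : IsStrictTotalOrder (Lat n) lt) {w v : Lat n →₀ ℕ}
    (he : expo w = expo v) (hne : w ≠ v) (hv : Std lt v)
    (hdiv : ∀ w', w' ≤ w → w' ≠ w → Std lt w')
    (G : Set (MvPolynomial (Lat n) k)) (hG : IsReducedGB lt G) :
    (monomial w 1 - monomial v 1 : MvPolynomial (Lat n) k) ∈ G := by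
  set f : MvPolynomial (Lat n) k := monomial w 1 - monomial v 1 with hf
  have hfI : f ∈ toricIdeal n k := binomial_mem he
  have hvw : rlt lt v w := hv w he hne
  have hlead : IsLead lt f w := lead_binomial hvw
  have hf0 : f ≠ 0 := by
    intro h0
    have := hlead.1
    rw [h0] at this
    simp at this
  have hcf : coeff w f = 1 := by
    rw [hf, coeff_sub, coeff_monomial, coeff_monomial, if_pos rfl, if_neg (Ne.symm hne), sub_zero]
  obtain ⟨g, hgG, w1, v1, hw1, hv1, hle⟩ := hG.basis f hfI hf0
  have hw1w : w1 = w := lead_unique h hw1 hlead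
  subst hw1w
  have hv1w : v1 = w1 := by
    by_contra hc
    exact lead_not_std h (hG.sub g hgG) hv1 (hdiv v1 hle hc)
  subst hv1w
  obtain ⟨v2, hv2, hc2⟩ := hG.monic g hgG
  have hv2' : v2 = v1 := lead_unique h hv2 hv1
  subst hv2'
  by_cases hgf : g - f = 0
  · rw [sub_eq_zero] at hgf
    rw [← hgf]; exact hgG
  · exfalso
    have hI : g - f ∈ toricIdeal n k := Ideal.sub_mem _ (hG.sub g hgG) hfI
    obtain ⟨g', hg'G, w3, v3, hw3, hv3, hle3⟩ := hG.basis (g - f) hI hgf
    have hw3c : coeff w3 (g - f) ≠ 0 := mem_support_iff.mp hw3.1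
    have hw3ne : w3 ≠ v2 := by
      intro e
      rw [e, coeff_sub, hc2, hcf, sub_self] at hw3c
      exact hw3c rfl
    by_cases hw3v : w3 = v
    · rw [hw3v] at hle3
      exact lead_not_std h (hG.sub g' hg'G) hv3 (hv.of_le hle3)
    · have hw3g : w3 ∈ g.support := by
        rw [mem_support_iff]
        intro h0
        apply hw3c
        rw [coeff_sub, h0, hf, coeff_sub, coeff_monomial, coeff_monomial, if_neg (Ne.symm hw3ne),
          if_neg (Ne.symm hw3v)]
        simp
      by_cases hgg : g' = g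
      · rw [hgg] at hv3
        have : v3 = v2 := lead_unique h hv3 hv2
        rw [this] at hle3
        have hlt := hv2.2 w3 hw3g hw3ne
        have hdeg : w3.degree ≤ v2.degree := by
          rcases hlt with h1 | ⟨h1, _⟩ <;> omega
        obtain ⟨a, ha⟩ : ∃ a, w3 = a + v2 := ⟨w3 - v2, (tsub_add_cancel_of_le hle3).symm⟩
        rw [ha, map_add] at hdeg
        have ha0 : a.degree = 0 := by omega
        rw [Finsupp.degree_eq_zero_iff] at ha0
        rw [ha0, zero_add] at ha
        exact hw3ne ha
      · exact hG.reduced g hgG g' hg'G hgg v3 hv3 w3 hw3g hle3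

/-- every fiber has a smallest monomial -/
lemma exists_std (h : IsStrictTotalOrder (Lat n) lt) (w : Lat n →₀ ℕ) :
    ∃ v, expo v = expo w ∧ Std lt v := by
  have hfin : {v : Lat n →₀ ℕ | expo v = expo w}.Finite := by
    refine (Finsupp.finite_of_degree_eq (σ := Lat n) w.degree).subset ?_
    intro v hv
    exact ((expo_eq_iff v w).mp hv).1
  obtain ⟨v, hv, hv'⟩ := exists_min h hfin.toFinset ⟨w, by simp⟩
  have hv1 : expo v = expo w := by simpa using hv
  refine ⟨v, hv1, fun u hu huv => hv' u ?_ huv⟩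
  simp only [Set.Finite.mem_toFinset, Set.mem_ofPred_eq]
  rw [hu, hv1]

/-- reduced Groebner bases exist -/
theorem exists_reducedGB (h : IsStrictTotalOrder (Lat n) lt) (k : Type*) [Field k] :
    ∃ G : Set (MvPolynomial (Lat n) k), IsReducedGB lt G := by
  classical
  let G : Set (MvPolynomial (Lat n) k) := {g | ∃ w v : Lat n →₀ ℕ, ¬ Std lt w ∧
    (∀ w', w' ≤ w → w' ≠ w → Std lt w') ∧ expo v = expo w ∧ Std lt v ∧
    g = monomial w 1 - monomial v 1}
  have hlead : ∀ w v : Lat n →₀ ℕ, ¬ Std lt w → expo v = expo w → Std lt v →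
      w ≠ v ∧ IsLead lt (monomial w 1 - monomial v 1 : MvPolynomial (Lat n) k) w := by
    intro w v hw he hv
    have hne : w ≠ v := fun e => hw (by rw [e]; exact hv)
    exact ⟨hne, lead_binomial (hv w he.symm hne)⟩
  refine ⟨G, ?_, ?_, ?_, ?_⟩
  · rintro g ⟨w, v, _, _, he, _, rfl⟩
    exact binomial_mem he.symm
  · intro f hf hf0
    obtain ⟨w, hw⟩ := exists_lead h hf0
    have hns := lead_not_std h hf hw
    -- a minimal nonstandard divisor
    have key : ∀ (d : ℕ) (w : Lat n →₀ ℕ), w.degree = d → ¬ Std lt w →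
        ∃ w0, w0 ≤ w ∧ ¬ Std lt w0 ∧ ∀ w', w' ≤ w0 → w' ≠ w0 → Std lt w' := by
      intro d
      induction d using Nat.strong_induction_on with
      | _ d ih =>
        intro w hwd hns
        by_cases hall : ∀ w', w' ≤ w → w' ≠ w → Std lt w'
        · exact ⟨w, le_refl _, hns, hall⟩
        · push Not at hall
          obtain ⟨w', hle, hne, hns'⟩ := hall
          have hdeg : w'.degree < d := by
            obtain ⟨a, ha⟩ : ∃ a, w = a + w' := ⟨w - w', (tsub_add_cancel_of_le hle).symm⟩
            have h1 : w.degree = a.degree + w'.degree := by rw [ha, map_add]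
            have h2 : a.degree ≠ 0 := by
              intro h0
              rw [Finsupp.degree_eq_zero_iff] at h0
              rw [h0, zero_add] at ha
              exact hne ha.symm
            omega
          obtain ⟨w0, h1, h2, h3⟩ := ih w'.degree hdeg w' rfl hns'
          exact ⟨w0, h1.trans hle, h2, h3⟩
    obtain ⟨w0, hw0le, hw0ns, hw0min⟩ := key w.degree w rfl hns
    obtain ⟨v, hv, hvs⟩ := exists_std h w0
    exact ⟨monomial w0 1 - monomial v 1, ⟨w0, v, hw0ns, hw0min, hv, hvs, rfl⟩, w, w0, hw,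
      (hlead w0 v hw0ns hv hvs).2, hw0le⟩
  · rintro g ⟨w, v, hns, _, he, hv, rfl⟩
    obtain ⟨hne, hl⟩ := hlead w v hns he hv
    refine ⟨w, hl, ?_⟩
    rw [coeff_sub, coeff_monomial, coeff_monomial, if_pos rfl, if_neg (Ne.symm hne), sub_zero]
  · rintro g ⟨w, v, hns, hmin, he, hv, rfl⟩ g' ⟨w', v', hns', hmin', he', hv', rfl⟩ hgg u hu x hx hux
    obtain ⟨hne, hl⟩ := hlead w v hns he hv
    obtain ⟨hne', hl'⟩ := hlead w' v' hns' he' hv'
    have hu' : u = w' := lead_unique h hu hl'
    subst hu'
    rcases (support_binomial hne x).mp hx with h1 | h1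
    · subst h1
      have h2 : u = x := by
        by_contra hc
        exact hns' (hmin u hux hc)
      subst h2
      apply hgg
      have h3 : v' = v := by
        by_contra hc
        exact rlt_asymm h (hv v' (by rw [he', he]) hc) (hv' v (by rw [he', he]) (Ne.symm hc))
      rw [h3]
    · subst h1
      exact hns' (hv.of_le hux)

end std

end ToricSn
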