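import Pool.Agent.V11177.ConfDef

namespace Pool.Agent.V11177.Conf

open Finset Module

variable {n : ℕ} (C : Config n)

/-- number of lines meeting Q in exactly k points -/
def cnt (Q : Finset (Fin n)) (k : ℕ) : ℕ := (C.lines.filter (fun l => (Q ∩ l).card = k)).card

lemma sum_cnt (Q : Finset (Fin n)) (g : ℕ → ℕ) :
    ∑ l ∈ C.lines, g (Q ∩ l).card = ∑ k ∈ range 4, cnt C Q k * g k := by
  have hm : ∀ l ∈ C.lines, (Q ∩ l).card ∈ range 4 := by
    intro l hl
    have := card_le_card (inter_subset_right : Q ∩ l ⊆ l)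
    rw [C.card_line l hl] at this
    exact mem_range.2 (by omega)
  rw [← Finset.sum_fiberwise_of_maps_to hm]
  refine Finset.sum_congr rfl (fun k _ => ?_)
  unfold cnt
  rw [Finset.card_eq_sum_ones, Finset.sum_mul]
  refine Finset.sum_congr rfl (fun l hl => ?_)
  rw [(mem_filter.1 hl).2, one_mul]

lemma cnt_total (Q : Finset (Fin n)) :
    cnt C Q 0 + cnt C Q 1 + cnt C Q 2 + cnt C Q 3 = n := by
  have h := sum_cnt C Q (fun _ => 1)
  simp only [sum_const, smul_eq_mul, mul_one, C.card_lines] at h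
  simp only [Finset.sum_range_succ, Finset.sum_range_zero] at h
  omega

lemma cnt_inc (Q : Finset (Fin n)) :
    cnt C Q 1 + 2 * cnt C Q 2 + 3 * cnt C Q 3 = 3 * Q.card := by
  have h := sum_cnt C Q (fun k => k)
  rw [Finset.sum_card_inter (n := 3) (fun a _ => C.deg a)] at h
  simp only [Finset.sum_range_succ, Finset.sum_range_zero] at h
  omega

lemma cnt_pairs (Q : Finset (Fin n)) :
    2 * cnt C Q 2 + 6 * cnt C Q 3 ≤ Q.card * Q.card - Q.card := by
  have h := sum_cnt C Q (fun k => k * k - k)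
  have h2 : ∑ l ∈ C.lines, ((Q ∩ l).card * (Q ∩ l).card - (Q ∩ l).card) ≤
      Q.card * Q.card - Q.card := by
    have e : ∀ l ∈ C.lines, (Q ∩ l).card * (Q ∩ l).card - (Q ∩ l).card = (Q ∩ l).offDiag.card := by
      intro l _
      rw [offDiag_card]
    rw [Finset.sum_congr rfl e, ← Finset.card_biUnion]
    · rw [← offDiag_card]
      refine card_le_card ?_
      intro x hx
      rw [mem_biUnion] at hx
      obtain ⟨l, _, hl⟩ := hx
      rw [mem_offDiag] at hl ⊢
      exact ⟨(mem_inter.1 hl.1).1, (mem_inter.1 hl.2.1).1, hl.2.2⟩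
    · intro l hl l' hl' hne
      rw [Function.onFun, Finset.disjoint_left]
      intro x hx hx'
      rw [mem_coe] at hl hl'
      rw [mem_offDiag] at hx hx'
      exact hne (C.linear x.1 x.2 hx.2.2 l hl l' hl' (mem_inter.1 hx.1).2 (mem_inter.1 hx.2.1).2
        (mem_inter.1 hx'.1).2 (mem_inter.1 hx'.2.1).2)
  simp only [Finset.sum_range_succ, Finset.sum_range_zero] at h
  omega

/-- local count at a point -/
lemma local_le (Q : Finset (Fin n)) (i : Fin n) (hi : i ∈ Q) :
    ∑ l ∈ C.lines.filter (fun l => i ∈ l), ((Q ∩ l).card - 1) ≤ Q.card - 1 := by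
  have e : ∀ l ∈ C.lines.filter (fun l => i ∈ l), (Q ∩ l).card - 1 = ((Q ∩ l).erase i).card := by
    intro l hl
    rw [card_erase_of_mem (mem_inter.2 ⟨hi, (mem_filter.1 hl).2⟩)]
  rw [Finset.sum_congr rfl e, ← Finset.card_biUnion, ← card_erase_of_mem hi]
  · refine card_le_card ?_
    intro x hx
    rw [mem_biUnion] at hx
    obtain ⟨l, _, hl⟩ := hx
    rw [mem_erase] at hl ⊢
    exact ⟨hl.1, (mem_inter.1 hl.2).1⟩
  · intro l hl l' hl' hne
    rw [Function.onFun, Finset.disjoint_left]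
    intro x hx hx'
    rw [mem_erase] at hx hx'
    rw [mem_coe, mem_filter] at hl hl'
    exact hne (C.linear i x hx.1.symm l hl.1 l' hl'.1 hl.2 (mem_inter.1 hx.2).2 hl'.2
      (mem_inter.1 hx'.2).2)

lemma local_eq (Q : Finset (Fin n)) (i : Fin n) (hi : i ∈ Q)
    (h : Q.card - 1 ≤ ∑ l ∈ C.lines.filter (fun l => i ∈ l), ((Q ∩ l).card - 1)) :
    ∀ j ∈ Q, j ≠ i → ∃ l ∈ C.lines, i ∈ l ∧ j ∈ l := by
  have e : ∀ l ∈ C.lines.filter (fun l => i ∈ l), (Q ∩ l).card - 1 = ((Q ∩ l).erase i).card := by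
    intro l hl
    rw [card_erase_of_mem (mem_inter.2 ⟨hi, (mem_filter.1 hl).2⟩)]
  rw [Finset.sum_congr rfl e, ← Finset.card_biUnion, ← card_erase_of_mem hi] at h
  · have hs : (C.lines.filter (fun l => i ∈ l)).biUnion (fun l => (Q ∩ l).erase i) ⊆ Q.erase i := by
      intro x hx
      rw [mem_biUnion] at hx
      obtain ⟨l, _, hl⟩ := hx
      rw [mem_erase] at hl ⊢
      exact ⟨hl.1, (mem_inter.1 hl.2).1⟩
    have heq := eq_of_subset_of_card_le hs h
    intro j hj hji
    have : j ∈ Q.erase i := mem_erase.2 ⟨hji, hj⟩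
    rw [← heq, mem_biUnion] at this
    obtain ⟨l, hl, hjl⟩ := this
    exact ⟨l, (mem_filter.1 hl).1, (mem_filter.1 hl).2, (mem_inter.1 (mem_erase.1 hjl).2).2⟩
  · intro l hl l' hl' hne
    rw [Function.onFun, Finset.disjoint_left]
    intro x hx hx'
    rw [mem_erase] at hx hx'
    rw [mem_coe, mem_filter] at hl hl'
    exact hne (C.linear i x hx.1.symm l hl.1 l' hl'.1 hl.2 (mem_inter.1 hx.2).2 hl'.2
      (mem_inter.1 hx'.2).2)

/-- T-sets: no line meets U in exactly one point. -/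
def TSet (U : Finset (Fin n)) : Prop := ∀ l ∈ C.lines, (U ∩ l).card ≠ 1

variable {C}

lemma TSet.cnt1 {U : Finset (Fin n)} (h : TSet C U) : cnt C U 1 = 0 := by
  unfold cnt
  rw [card_eq_zero, filter_eq_empty_iff]
  intro l hl
  exact h l hl

lemma TSet.four_le {U : Finset (Fin n)} (h : TSet C U) (hU : U.Nonempty) : 4 ≤ U.card := by
  have h1 := h.cnt1
  have h2 := cnt_inc C U
  have h3 := cnt_pairs C U
  have h4 : 0 < U.card := hU.card_pos
  by_contra hlt
  push Not at hlt
  have : U.card = 1 ∨ U.card = 2 ∨ U.card = 3 := by omega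
  rcases this with h5 | h5 | h5 <;> rw [h5] at h2 h3 <;> omega

lemma TSet.cnt4 {U : Finset (Fin n)} (h : TSet C U) (hU : U.card = 4) :
    cnt C U 2 = 6 ∧ cnt C U 3 = 0 := by
  have h1 := h.cnt1
  have h2 := cnt_inc C U
  have h3 := cnt_pairs C U
  rw [hU] at h2 h3
  omega

lemma TSet.cnt5 {U : Finset (Fin n)} (h : TSet C U) (hU : U.card = 5) :
    cnt C U 2 = 6 ∧ cnt C U 3 = 1 := by
  have h1 := h.cnt1
  have h2 := cnt_inc C U
  have h3 := cnt_pairs C U
  rw [hU] at h2 h3
  omega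

/-- number of lines meeting U -/
lemma TSet.meet {U : Finset (Fin n)} (h : TSet C U) (hU : U.card = 4 ∨ U.card = 5) :
    (C.lines.filter (fun l => (U ∩ l).Nonempty)).card = U.card + 2 := by
  have h0 : (C.lines.filter (fun l => (U ∩ l).Nonempty)).card + cnt C U 0 = n := by
    unfold cnt
    have : C.lines.filter (fun l => (U ∩ l).card = 0) =
        C.lines.filter (fun l => ¬ (U ∩ l).Nonempty) := by
      refine filter_congr (fun l _ => ?_)
      rw [card_eq_zero, not_nonempty_iff_eq_empty]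
    rw [this, Finset.card_filter_add_card_filter_not, C.card_lines]
  have h1 := cnt_total C U
  have h2 := h.cnt1
  rcases hU with hU | hU
  · have := h.cnt4 hU
    omega
  · have := h.cnt5 hU
    omega

lemma inter_le_three (U : Finset (Fin n)) {l : Finset (Fin n)} (hl : l ∈ C.lines) :
    (U ∩ l).card ≤ 3 := by
  have := card_le_card (inter_subset_right : U ∩ l ⊆ l)
  rwa [C.card_line l hl] at this

lemma cnt_zero_imp {U : Finset (Fin n)} {k : ℕ} (h : cnt C U k = 0) {l : Finset (Fin n)}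
    (hl : l ∈ C.lines) : (U ∩ l).card ≠ k := by
  unfold cnt at h
  rw [card_eq_zero, filter_eq_empty_iff] at h
  exact h hl

lemma inter_pos {U l : Finset (Fin n)} {i : Fin n} (h1 : i ∈ U) (h2 : i ∈ l) :
    0 < (U ∩ l).card := card_pos.2 ⟨i, mem_inter.2 ⟨h1, h2⟩⟩

/-- every two points of a 4-point T-set are joined -/
lemma TSet.joined4 {U : Finset (Fin n)} (h : TSet C U) (hU : U.card = 4) :
    ∀ i ∈ U, ∀ j ∈ U, j ≠ i → ∃ l ∈ C.lines, i ∈ l ∧ j ∈ l := by
  intro i hi
  apply local_eq C U i hi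
  have : ∀ l ∈ C.lines.filter (fun l => i ∈ l), (U ∩ l).card - 1 = 1 := by
    intro l hl
    rw [mem_filter] at hl
    have h1 := inter_le_three U hl.1
    have h2 := h l hl.1
    have h3 := cnt_zero_imp (h.cnt4 hU).2 hl.1
    have h4 := inter_pos hi hl.2
    omega
  rw [Finset.sum_congr rfl this, hU, sum_const, C.deg i]
  norm_num

lemma TSet.joined5 {U : Finset (Fin n)} (h : TSet C U) (hU : U.card = 5)
    {l0 : Finset (Fin n)} (hl0 : l0 ∈ C.lines) (hl0U : l0 ⊆ U) :
    ∀ i ∈ l0, ∀ j ∈ U, j ≠ i → ∃ l ∈ C.lines, i ∈ l ∧ j ∈ l := by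
  intro i hi0
  have hi := hl0U hi0
  apply local_eq C U i hi
  have hmem : l0 ∈ C.lines.filter (fun l => i ∈ l) := mem_filter.2 ⟨hl0, hi0⟩
  rw [← Finset.add_sum_erase _ _ hmem]
  have h1 : (U ∩ l0).card = 3 := by
    rw [inter_eq_right.2 hl0U, C.card_line l0 hl0]
  have h2 : ∀ l ∈ (C.lines.filter (fun l => i ∈ l)).erase l0, 1 ≤ (U ∩ l).card - 1 := by
    intro l hl
    rw [mem_erase, mem_filter] at hl
    have h2 := h l hl.2.1
    have h4 := inter_pos hi hl.2.2
    omega
  have h3 := Finset.card_nsmul_le_sum _ _ 1 h2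
  rw [card_erase_of_mem hmem, C.deg i] at h3
  rw [h1, hU]
  simp at h3
  omega

end Pool.Agent.V11177.Conf
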