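import Pool.Agent.V11177.ConfA

namespace Pool.Agent.V11177.Conf

open Finset Module

variable {n : ℕ} {C : Config n} {W : Type*} [AddCommGroup W] [Module ℝ W]

/-- linearised representation -/
structure LRep (C : Config n) (v : Fin n → W) : Prop where
  r1 : ∀ p q : Fin n, p ≠ q → ∀ r : ℝ, v p ≠ r • v q
  r2 : ∀ l ∈ C.lines, ∀ a ∈ l, ∀ b ∈ l, ∀ c ∈ l, a ≠ b → ∃ α β : ℝ, v c = α • v a + β • v b
  r3 : ∀ l ∈ C.lines, ∀ a ∈ l, ∀ b ∈ l, ∀ d, ∀ α β : ℝ, v d = α • v a + β • v b → d ∈ l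

structure Good (C : Config n) (v : Fin n → W) (U : Finset (Fin n)) (φ : W →ₗ[ℝ] ℝ) : Prop where
  T : TSet C U
  nz : ∀ u ∈ U, φ (v u) ≠ 0
  z : ∀ l ∈ C.lines, (U ∩ l).card = 2 → ∀ x ∈ l, x ∉ U → φ (v x) = 0

/-- third points of lines meeting U in two points -/
def XS (C : Config n) (U : Finset (Fin n)) : Finset (Fin n) :=
  univ.filter (fun x => x ∉ U ∧ ∃ l ∈ C.lines, x ∈ l ∧ (U ∩ l).card = 2)

/-- a, b in U are on a line with third point x outside U -/
def Jn (C : Config n) (U : Finset (Fin n)) (a b x : Fin n) : Prop :=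
  x ∉ U ∧ ∃ l ∈ C.lines, a ∈ l ∧ b ∈ l ∧ x ∈ l

lemma LRep.closed {v : Fin n → W} (R : LRep C v) (S : Submodule ℝ W) {l : Finset (Fin n)}
    (hl : l ∈ C.lines) {a b c : Fin n} (ha : a ∈ l) (hb : b ∈ l) (hc : c ∈ l) (hab : a ≠ b)
    (hSa : v a ∈ S) (hSb : v b ∈ S) : v c ∈ S := by
  obtain ⟨α, β, h⟩ := R.r2 l hl a ha b hb c hc hab
  rw [h]
  exact S.add_mem (S.smul_mem _ hSa) (S.smul_mem _ hSb)

lemma Jn.symm {U : Finset (Fin n)} {a b x : Fin n} (h : Jn C U a b x) : Jn C U b a x := by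
  obtain ⟨h1, l, h2, h3, h4, h5⟩ := h
  exact ⟨h1, l, h2, h4, h3, h5⟩

lemma card_four_le {α : Type*} [DecidableEq α] {s : Finset α} {a b c d : α} (ha : a ∈ s) (hb : b ∈ s)
    (hc : c ∈ s) (hd : d ∈ s) (hab : a ≠ b) (hac : a ≠ c) (had : a ≠ d) (hbc : b ≠ c) (hbd : b ≠ d)
    (hcd : c ≠ d) : 4 ≤ s.card := by
  have h : ({a, b, c, d} : Finset α).card = 4 := by
    rw [card_insert_of_notMem, card_insert_of_notMem, card_insert_of_notMem, card_singleton]
    · simpa using hcd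
    · simp [hbc, hbd]
    · simp [hab, hac, had]
  rw [← h]
  refine card_le_card ?_
  intro x hx
  simp only [mem_insert, mem_singleton] at hx
  rcases hx with rfl | rfl | rfl | rfl <;> assumption

lemma Jn.card {U : Finset (Fin n)} {a b x : Fin n} (h : Jn C U a b x) (ha : a ∈ U) (hb : b ∈ U)
    (hab : a ≠ b) : ∃ l ∈ C.lines, a ∈ l ∧ b ∈ l ∧ x ∈ l ∧ (U ∩ l).card = 2 := by
  obtain ⟨h1, l, h2, h3, h4, h5⟩ := h
  refine ⟨l, h2, h3, h4, h5, ?_⟩
  apply le_antisymm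
  · have : (U ∩ l) ⊆ l.erase x := by
      intro y hy
      rw [mem_inter] at hy
      rw [mem_erase]
      exact ⟨fun e => h1 (e ▸ hy.1), hy.2⟩
    have h6 := card_le_card this
    rw [card_erase_of_mem h5, C.card_line l h2] at h6
    exact h6
  · have : ({a, b} : Finset (Fin n)) ⊆ U ∩ l := by
      intro y hy
      simp only [mem_insert, mem_singleton] at hy
      rcases hy with rfl | rfl
      · exact mem_inter.2 ⟨ha, h3⟩
      · exact mem_inter.2 ⟨hb, h4⟩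
    have h6 := card_le_card this
    rwa [card_pair hab] at h6

lemma Jn.memXS {U : Finset (Fin n)} {a b x : Fin n} (h : Jn C U a b x) (ha : a ∈ U) (hb : b ∈ U)
    (hab : a ≠ b) : x ∈ XS C U := by
  obtain ⟨l, h1, _, _, h4, h5⟩ := h.card ha hb hab
  exact mem_filter.2 ⟨mem_univ _, h.1, l, h1, h4, h5⟩

lemma Jn.dist {U : Finset (Fin n)} {a b c x : Fin n} (h : Jn C U a b x) (h' : Jn C U a c x)
    (ha : a ∈ U) (hb : b ∈ U) (hc : c ∈ U) (hab : a ≠ b) (hac : a ≠ c) (hbc : b ≠ c) : False := by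
  obtain ⟨h1, l, h2, h3, h4, h5⟩ := h
  obtain ⟨_, l', h2', h3', h4', h5'⟩ := h'
  have hax : a ≠ x := fun e => h1 (e ▸ ha)
  have hbx : b ≠ x := fun e => h1 (e ▸ hb)
  have hcx : c ≠ x := fun e => h1 (e ▸ hc)
  have := C.linear a x hax l h2 l' h2' h3 h5 h3' h5'
  subst this
  have h6 := card_four_le h3 h4 h4' h5 hab hac hax hbc hbx hcx
  rw [C.card_line l h2] at h6
  omega

/-- scaled vectors -/
noncomputable def ww (v : Fin n → W) (φ : W →ₗ[ℝ] ℝ) (p : Fin n) : W := (φ (v p))⁻¹ • v p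

lemma Good.vec {v : Fin n → W} (R : LRep C v) {U : Finset (Fin n)} {φ : W →ₗ[ℝ] ℝ}
    (G : Good C v U φ) {a b x : Fin n} (h : Jn C U a b x) (ha : a ∈ U) (hb : b ∈ U) (hab : a ≠ b) :
    ∃ α : ℝ, α ≠ 0 ∧ v x = α • (ww v φ a - ww v φ b) := by
  obtain ⟨l, h2, h3, h4, h5, h6⟩ := h.card ha hb hab
  have h7 := G.z l h2 h6 x h5 h.1
  obtain ⟨s, t, h8⟩ := R.r2 l h2 a h3 b h4 x h5 hab
  have ha' := G.nz a ha
  have hb' := G.nz b hb
  have h9 : s * φ (v a) + t * φ (v b) = 0 := by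
    rw [h8] at h7
    simpa using h7
  have hxa : x ≠ a := fun e => h.1 (e ▸ ha)
  refine ⟨s * φ (v a), ?_, ?_⟩
  · intro h0
    have hs : s = 0 := by
      rcases mul_eq_zero.1 h0 with h | h
      · exact h
      · exact absurd h ha'
    have ht : t = 0 := by
      rw [h0, zero_add] at h9
      rcases mul_eq_zero.1 h9 with h | h
      · exact h
      · exact absurd h hb'
    rw [hs, ht] at h8
    exact R.r1 x a hxa 0 (by rw [h8]; simp)
  · have ht : t = -(s * φ (v a)) * (φ (v b))⁻¹ := by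
      field_simp
      linarith
    have hs : s = (s * φ (v a)) * (φ (v a))⁻¹ := by
      field_simp
    unfold ww
    rw [smul_sub, smul_smul, smul_smul, ← hs, h8, ht]
    module

lemma Good.indep {v : Fin n → W} (R : LRep C v) {U : Finset (Fin n)} {φ : W →ₗ[ℝ] ℝ}
    (G : Good C v U φ) {a b c : Fin n} (ha : a ∈ U) (hb : b ∈ U) (hc : c ∈ U) (hab : a ≠ b)
    {l : Finset (Fin n)} (hl : l ∈ C.lines) (hal : a ∈ l) (hbl : b ∈ l) (hcl : c ∉ l) :
    ∀ s t : ℝ, s • (ww v φ a - ww v φ b) + t • (ww v φ a - ww v φ c) = 0 → s = 0 ∧ t = 0 := by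
  intro s t h
  have ha' := G.nz a ha
  have hb' := G.nz b hb
  have hc' := G.nz c hc
  have ht : t = 0 := by
    by_contra ht
    apply hcl
    refine R.r3 l hl a hal b hbl c (φ (v c) * t⁻¹ * (s + t) * (φ (v a))⁻¹)
      (φ (v c) * t⁻¹ * (-s) * (φ (v b))⁻¹) ?_
    unfold ww at h
    generalize φ (v c) = fc at *
    have h2 : v c - ((fc * t⁻¹ * (s + t) * (φ (v a))⁻¹) • v a +
        (fc * t⁻¹ * (-s) * (φ (v b))⁻¹) • v b) =
        (-(fc * t⁻¹)) • (s • ((φ (v a))⁻¹ • v a - (φ (v b))⁻¹ • v b) +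
          t • ((φ (v a))⁻¹ • v a - fc⁻¹ • v c)) := by
      have h3 : v c = ((fc * t⁻¹) * t * fc⁻¹) • v c := by
        have : (fc * t⁻¹) * t * fc⁻¹ = 1 := by field_simp
        rw [this, one_smul]
      conv_lhs => rw [h3]
      module
    rw [h, smul_zero, sub_eq_zero] at h2
    exact h2
  subst ht
  refine ⟨?_, rfl⟩
  by_contra hs
  rw [zero_smul, add_zero, smul_eq_zero] at h
  rcases h with h | h
  · exact hs h
  · rw [sub_eq_zero] at h
    unfold ww at h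
    apply R.r1 a b hab (φ (v a) * (φ (v b))⁻¹)
    rw [mul_smul, ← h, smul_smul, mul_inv_cancel₀ ha', one_smul]

lemma XS_sub {v : Fin n → W} (R : LRep C v) {U : Finset (Fin n)} {φ : W →ₗ[ℝ] ℝ}
    (G : Good C v U φ) (M : Submodule ℝ W) (a : Fin n) (h : ∀ i ∈ U, ww v φ a - ww v φ i ∈ M) :
    ∀ x ∈ XS C U, v x ∈ M := by
  intro x hx
  unfold XS at hx
  rw [mem_filter] at hx
  obtain ⟨_, hxU, l, hl, hxl, hc⟩ := hx
  obtain ⟨i, j, hij, hUl⟩ := card_eq_two.1 hc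
  have hi : i ∈ U ∩ l := by rw [hUl]; simp
  have hj : j ∈ U ∩ l := by rw [hUl]; simp
  rw [mem_inter] at hi hj
  have hJ : Jn C U i j x := ⟨hxU, l, hl, hi.2, hj.2, hxl⟩
  obtain ⟨α, _, h1⟩ := G.vec R hJ hi.1 hj.1 hij
  rw [h1]
  apply M.smul_mem
  have : ww v φ i - ww v φ j = (ww v φ a - ww v φ j) - (ww v φ a - ww v φ i) := by abel
  rw [this]
  exact M.sub_mem (h j hj.1) (h i hi.1)

lemma fano_vec {p q r : W} {a b c : ℝ} (h : ∀ s t : ℝ, s • p + t • q = 0 → s = 0 ∧ t = 0)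
    (e1 : q - p = a • r) (e2 : r - p = b • q) (e3 : r - q = c • p) : False := by
  have hr : r = p + b • q := by rw [← e2]; abel
  subst hr
  have h1 : (-(1 + a)) • p + (1 - a * b) • q = (q - p) - a • (p + b • q) := by module
  rw [e1, sub_self] at h1
  have h2 := h _ _ h1
  have h3 : (1 - c) • p + (b - 1) • q = (p + b • q - q) - c • p := by module
  rw [e3, sub_self] at h3
  have h4 := h _ _ h3
  have ha : a = -1 := by linarith [h2.1]
  have hb : b = 1 := by linarith [h4.2]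
  have := h2.2
  rw [ha, hb] at this
  norm_num at this

lemma proj_vec {k g d : W} {a b c t : ℝ} (h : ∀ s t : ℝ, s • k + t • g = 0 → s = 0 ∧ t = 0)
    (e1 : d = a • (g - k)) (e2 : d - k = b • (g - t • k)) (e3 : d - t • k = c • g) : False := by
  subst e1
  have h1 : (-a - 1 + b * t) • k + (a - b) • g = (a • (g - k) - k) - b • (g - t • k) := by module
  rw [e2, sub_self] at h1
  have h2 : (-a - t) • k + (a - c) • g = (a • (g - k) - t • k) - c • g := by module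
  rw [e3, sub_self] at h2
  have h3 := h _ _ h1
  have h4 := h _ _ h2
  have hb : b = a := by linarith [h3.2]
  have ht : t = -a := by linarith [h4.1]
  have h5 := h3.1
  rw [hb, ht] at h5
  nlinarith [sq_nonneg (a + 1 / 2)]

end Pool.Agent.V11177.Conf
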