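import Pool.Agent.V11177.ConfB

namespace Pool.Agent.V11177.Conf

open Finset Module

variable {n : ℕ} {C : Config n} {W : Type*} [AddCommGroup W] [Module ℝ W]

lemma exists_third {U l : Finset (Fin n)} (hl : l ∈ C.lines) (h : (U ∩ l).card = 2) :
    ∃ x ∈ l, x ∉ U := by
  by_contra hcon
  push Not at hcon
  have : U ∩ l = l := inter_eq_right.2 hcon
  rw [this, C.card_line l hl] at h
  omega

lemma card_six_le {α : Type*} [DecidableEq α] {s : Finset α} (f : Fin 6 → α)
    (hf : ∀ i, f i ∈ s) (hi : Function.Injective f) : 6 ≤ s.card := by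
  have h := card_le_card (s := univ.image f) (t := s) (by
    intro x hx
    rw [mem_image] at hx
    obtain ⟨i, _, rfl⟩ := hx
    exact hf i)
  rw [card_image_of_injective _ hi] at h
  simpa using h

lemma fin6_inj {α : Type*} {a b c d e f : α} (h01 : a ≠ b) (h02 : a ≠ c) (h03 : a ≠ d)
    (h04 : a ≠ e) (h05 : a ≠ f) (h12 : b ≠ c) (h13 : b ≠ d) (h14 : b ≠ e) (h15 : b ≠ f)
    (h23 : c ≠ d) (h24 : c ≠ e) (h25 : c ≠ f) (h34 : d ≠ e) (h35 : d ≠ f) (h45 : e ≠ f) :
    Function.Injective ![a, b, c, d, e, f] := by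
  intro i j hij
  fin_cases i <;> fin_cases j <;>
    first
      | rfl
      | (exfalso; simp at hij; first
          | exact h01 hij | exact h02 hij | exact h03 hij | exact h04 hij | exact h05 hij
          | exact h12 hij | exact h13 hij | exact h14 hij | exact h15 hij
          | exact h23 hij | exact h24 hij | exact h25 hij | exact h34 hij | exact h35 hij
          | exact h45 hij
          | exact h01 hij.symm | exact h02 hij.symm | exact h03 hij.symm | exact h04 hij.symm
          | exact h05 hij.symm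
          | exact h12 hij.symm | exact h13 hij.symm | exact h14 hij.symm | exact h15 hij.symm
          | exact h23 hij.symm | exact h24 hij.symm | exact h25 hij.symm | exact h34 hij.symm
          | exact h35 hij.symm
          | exact h45 hij.symm)

lemma card_four_decomp {α : Type*} [DecidableEq α] {s : Finset α} (h : s.card = 4) :
    ∃ a b c d : α, a ≠ b ∧ a ≠ c ∧ a ≠ d ∧ b ≠ c ∧ b ≠ d ∧ c ≠ d ∧ s = {a, b, c, d} := by
  obtain ⟨a, ha⟩ : s.Nonempty := card_pos.1 (by omega)
  have h3 : (s.erase a).card = 3 := by rw [card_erase_of_mem ha, h]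
  obtain ⟨b, c, d, hbc, hbd, hcd, hs⟩ := card_eq_three.1 h3
  have hb : b ∈ s.erase a := by rw [hs]; simp
  have hc : c ∈ s.erase a := by rw [hs]; simp
  have hd : d ∈ s.erase a := by rw [hs]; simp
  refine ⟨a, b, c, d, (mem_erase.1 hb).1.symm, (mem_erase.1 hc).1.symm, (mem_erase.1 hd).1.symm,
    hbc, hbd, hcd, ?_⟩
  rw [← insert_erase ha, hs]

/-- linear independence of a triple from finrank three, in usable form -/
lemma triple_indep [FiniteDimensional ℝ W] {p q r : W}
    (h : ¬ finrank ℝ (Submodule.span ℝ (Set.range ![p, q, r])) ≤ 2) :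
    ∀ s t u : ℝ, s • p + t • q + u • r = 0 → s = 0 ∧ t = 0 ∧ u = 0 := by
  have hli : LinearIndependent ℝ ![p, q, r] := by
    rw [linearIndependent_iff_card_le_finrank_span]
    simp only [Fintype.card_fin, Set.finrank]
    omega
  rw [Fintype.linearIndependent_iff] at hli
  intro s t u hs
  have := hli ![s, t, u] (by simpa [Fin.sum_univ_three] using hs)
  exact ⟨this 0, this 1, this 2⟩

lemma span3_le [FiniteDimensional ℝ W] (p q r : W) :
    finrank ℝ (Submodule.span ℝ (Set.range ![p, q, r])) ≤ 3 := by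
  have := finrank_range_le_card (R := ℝ) ![p, q, r]
  simpa [Set.finrank] using this

lemma span2_le [FiniteDimensional ℝ W] (p q : W) :
    finrank ℝ (Submodule.span ℝ (Set.range ![p, q])) ≤ 2 := by
  have := finrank_range_le_card (R := ℝ) ![p, q]
  simpa [Set.finrank] using this

lemma mem3 (p q r : W) : p ∈ Submodule.span ℝ (Set.range ![p, q, r]) ∧
    q ∈ Submodule.span ℝ (Set.range ![p, q, r]) ∧ r ∈ Submodule.span ℝ (Set.range ![p, q, r]) :=
  ⟨Submodule.subset_span ⟨0, rfl⟩, Submodule.subset_span ⟨1, rfl⟩, Submodule.subset_span ⟨2, rfl⟩⟩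

lemma cover_lemma {p q r : W} {F F' : Submodule ℝ W} (hp : p ∈ F) (hq : q ∈ F) (hr : r ∈ F')
    (h1 : r - p ∈ F ∨ r - p ∈ F') (h2 : r - q ∈ F ∨ r - q ∈ F') :
    (p ∈ F ∧ q ∈ F ∧ r ∈ F) ∨ (p ∈ F' ∧ q ∈ F' ∧ r ∈ F') := by
  rcases h1 with h1 | h1
  · left
    refine ⟨hp, hq, ?_⟩
    have := F.add_mem h1 hp
    simpa using this
  · rcases h2 with h2 | h2
    · left
      refine ⟨hp, hq, ?_⟩
      have := F.add_mem h2 hq
      simpa using this
    · right
      refine ⟨?_, ?_, hr⟩
      · have := F'.sub_mem hr h1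
        simpa using this
      · have := F'.sub_mem hr h2
        simpa using this

lemma cover_lemma2 {p q r : W} {F F' : Submodule ℝ W} (hp : p ∈ F ∨ p ∈ F') (hq : q ∈ F ∨ q ∈ F')
    (hr : r ∈ F ∨ r ∈ F')
    (h0 : q - p ∈ F ∨ q - p ∈ F') (h1 : r - p ∈ F ∨ r - p ∈ F') (h2 : r - q ∈ F ∨ r - q ∈ F') :
    (p ∈ F ∧ q ∈ F ∧ r ∈ F) ∨ (p ∈ F' ∧ q ∈ F' ∧ r ∈ F') := by
  have n0 : p - q ∈ F ∨ p - q ∈ F' := by
    rcases h0 with h | h
    · left; have := F.neg_mem h; simpa using this
    · right; have := F'.neg_mem h; simpa using this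
  have n1 : p - r ∈ F ∨ p - r ∈ F' := by
    rcases h1 with h | h
    · left; have := F.neg_mem h; simpa using this
    · right; have := F'.neg_mem h; simpa using this
  have n2 : q - r ∈ F ∨ q - r ∈ F' := by
    rcases h2 with h | h
    · left; have := F.neg_mem h; simpa using this
    · right; have := F'.neg_mem h; simpa using this
  rcases hp with hp | hp <;> rcases hq with hq | hq <;> rcases hr with hr | hr
  · left; exact ⟨hp, hq, hr⟩
  · exact cover_lemma hp hq hr h1 h2
  · rcases cover_lemma hp hr hq h0 n2 with h | h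
    · left; exact ⟨h.1, h.2.2, h.2.1⟩
    · right; exact ⟨h.1, h.2.2, h.2.1⟩
  · rcases cover_lemma hq hr hp n0.symm n1.symm with h | h
    · right; exact ⟨h.2.2, h.1, h.2.1⟩
    · left; exact ⟨h.2.2, h.1, h.2.1⟩
  · rcases cover_lemma hq hr hp n0 n1 with h | h
    · left; exact ⟨h.2.2, h.1, h.2.1⟩
    · right; exact ⟨h.2.2, h.1, h.2.1⟩
  · rcases cover_lemma hp hr hq h0.symm n2.symm with h | h
    · right; exact ⟨h.1, h.2.2, h.2.1⟩
    · left; exact ⟨h.1, h.2.2, h.2.1⟩
  · rcases cover_lemma hp hq hr h1.symm h2.symm with h | h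
    · right; exact h
    · left; exact h
  · right; exact ⟨hp, hq, hr⟩

def Col (C : Config n) (v : Fin n → W) (U : Finset (Fin n)) : Prop :=
  ∃ M : Submodule ℝ W, finrank ℝ M ≤ 2 ∧ 4 ≤ (XS C U).card ∧ ∀ x ∈ XS C U, v x ∈ M

/-- the span of a line has dimension at most two -/
lemma LRep.line_span [FiniteDimensional ℝ W] {v : Fin n → W} (R : LRep C v) {l : Finset (Fin n)}
    (hl : l ∈ C.lines) : ∃ F : Submodule ℝ W, finrank ℝ F ≤ 2 ∧ ∀ x ∈ l, v x ∈ F := by
  have h3 := C.card_line l hl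
  obtain ⟨a, b, c, hab, hac, hbc, hs⟩ := card_eq_three.1 h3
  have ha : a ∈ l := by rw [hs]; simp
  have hb : b ∈ l := by rw [hs]; simp
  refine ⟨Submodule.span ℝ (Set.range ![v a, v b]), span2_le _ _, ?_⟩
  intro x hx
  exact R.closed _ hl ha hb hx hab (Submodule.subset_span ⟨0, rfl⟩)
    (Submodule.subset_span ⟨1, rfl⟩)

theorem key4 [FiniteDimensional ℝ W] {v : Fin n → W} (R : LRep C v) {U : Finset (Fin n)}
    {φ : W →ₗ[ℝ] ℝ} (G : Good C v U φ) (hU : U.card = 4) :
    4 ≤ (XS C U).card ∧ (Col C v U ∨ (6 ≤ (XS C U).card ∧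
      (∃ M : Submodule ℝ W, finrank ℝ M ≤ 3 ∧ ∀ x ∈ XS C U, v x ∈ M) ∧
      ∀ l₁ ∈ C.lines, ∀ l₂ ∈ C.lines, ¬ XS C U ⊆ l₁ ∪ l₂)) := by
  obtain ⟨a, b, c, d, hab, hac, had, hbc, hbd, hcd, hUeq⟩ := card_four_decomp hU
  have ha : a ∈ U := by rw [hUeq]; simp
  have hb : b ∈ U := by rw [hUeq]; simp
  have hc : c ∈ U := by rw [hUeq]; simp
  have hd : d ∈ U := by rw [hUeq]; simp
  have hJ : ∀ i ∈ U, ∀ j ∈ U, i ≠ j → ∃ x, Jn C U i j x := by
    intro i hi j hj hij
    obtain ⟨l, hl, h1, h2⟩ := G.T.joined4 hU i hi j hj hij.symm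
    have h3 := inter_le_three U hl
    have h4 := G.T l hl
    have h5 := cnt_zero_imp (G.T.cnt4 hU).2 hl
    have h6 := inter_pos hi h1
    obtain ⟨x, hx, hxU⟩ := exists_third hl (U := U) (by omega)
    exact ⟨x, hxU, l, hl, h1, h2, hx⟩
  obtain ⟨x1, j1⟩ := hJ a ha b hb hab
  obtain ⟨x2, j2⟩ := hJ a ha c hc hac
  obtain ⟨x3, j3⟩ := hJ a ha d hd had
  obtain ⟨x4, j4⟩ := hJ b hb c hc hbc
  obtain ⟨x5, j5⟩ := hJ b hb d hd hbd
  obtain ⟨x6, j6⟩ := hJ c hc d hd hcd
  have m1 := j1.memXS ha hb hab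
  have m2 := j2.memXS ha hc hac
  have m3 := j3.memXS ha hd had
  have m4 := j4.memXS hb hc hbc
  have m5 := j5.memXS hb hd hbd
  have m6 := j6.memXS hc hd hcd
  obtain ⟨α1, n1, e1⟩ := G.vec R j1 ha hb hab
  obtain ⟨α2, n2, e2⟩ := G.vec R j2 ha hc hac
  obtain ⟨α3, n3, e3⟩ := G.vec R j3 ha hd had
  obtain ⟨α4, n4, e4⟩ := G.vec R j4 hb hc hbc
  obtain ⟨α5, n5, e5⟩ := G.vec R j5 hb hd hbd
  obtain ⟨α6, n6, e6⟩ := G.vec R j6 hc hd hcd
  have d12 : x1 ≠ x2 := fun e => j1.dist (e ▸ j2) ha hb hc hab hac hbc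
  have d13 : x1 ≠ x3 := fun e => j1.dist (e ▸ j3) ha hb hd hab had hbd
  have d23 : x2 ≠ x3 := fun e => j2.dist (e ▸ j3) ha hc hd hac had hcd
  have d14 : x1 ≠ x4 := fun e => j1.symm.dist (e ▸ j4) hb ha hc hab.symm hbc hac
  have d15 : x1 ≠ x5 := fun e => j1.symm.dist (e ▸ j5) hb ha hd hab.symm hbd had
  have d24 : x2 ≠ x4 := fun e => j2.symm.dist (e ▸ j4.symm) hc ha hb hac.symm hbc.symm hab
  have d26 : x2 ≠ x6 := fun e => j2.symm.dist (e ▸ j6) hc ha hd hac.symm hcd had
  have d35 : x3 ≠ x5 := fun e => j3.symm.dist (e ▸ j5.symm) hd ha hb had.symm hbd.symm hab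
  have d36 : x3 ≠ x6 := fun e => j3.symm.dist (e ▸ j6.symm) hd ha hc had.symm hcd.symm hac
  have d45 : x4 ≠ x5 := fun e => j4.dist (e ▸ j5) hb hc hd hbc hbd hcd
  have d46 : x4 ≠ x6 := fun e => j4.symm.dist (e ▸ j6) hc hb hd hbc.symm hcd hbd
  have d56 : x5 ≠ x6 := fun e => j5.symm.dist (e ▸ j6.symm) hd hb hc hbd.symm hcd.symm hbc
  set p := ww v φ a - ww v φ b with hp
  set q := ww v φ a - ww v φ c with hq
  set r := ww v φ a - ww v φ d with hr
  have e4' : v x4 = α4 • (q - p) := by rw [e4, hp, hq]; congr 1; abel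
  have e5' : v x5 = α5 • (r - p) := by rw [e5, hp, hr]; congr 1; abel
  have e6' : v x6 = α6 • (r - q) := by rw [e6, hq, hr]; congr 1; abel
  have hfour : 4 ≤ (XS C U).card := by
    by_contra hlt
    push Not at hlt
    have h3 : ({x1, x2, x3} : Finset (Fin n)).card = 3 := by
      rw [card_eq_three]
      exact ⟨x1, x2, x3, d12, d13, d23, rfl⟩
    have hsub : ({x1, x2, x3} : Finset (Fin n)) ⊆ XS C U := by
      intro y hy
      simp only [mem_insert, mem_singleton] at hy
      rcases hy with rfl | rfl | rfl <;> assumption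
    have heq := eq_of_subset_of_card_le hsub (by omega)
    rw [← heq] at m4 m5 m6
    simp only [mem_insert, mem_singleton] at m4 m5 m6
    have q4 : x4 = x3 := by
      rcases m4 with h | h | h
      · exact absurd h.symm d14
      · exact absurd h.symm d24
      · exact h
    have q5 : x5 = x2 := by
      rcases m5 with h | h | h
      · exact absurd h.symm d15
      · exact h
      · exact absurd h.symm d35
    have q6 : x6 = x1 := by
      rcases m6 with h | h | h
      · exact h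
      · exact absurd h.symm d26
      · exact absurd h.symm d36
    rw [q4, e3] at e4'
    rw [q5, e2] at e5'
    rw [q6, e1] at e6'
    obtain ⟨l, hl, hal, hbl, hxl, hcard⟩ := j1.card ha hb hab
    have hcl : c ∉ l := by
      intro hcl
      have hax : a ≠ x1 := fun e => j1.1 (e ▸ ha)
      have hbx : b ≠ x1 := fun e => j1.1 (e ▸ hb)
      have hcx : c ≠ x1 := fun e => j1.1 (e ▸ hc)
      have := card_four_le hal hbl hcl hxl hab hac hax hbc hbx hcx
      rw [C.card_line l hl] at this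
      omega
    refine fano_vec (p := p) (q := q) (r := r) (a := α4⁻¹ * α3) (b := α5⁻¹ * α2)
      (c := α6⁻¹ * α1) (G.indep R ha hb hc hab hl hal hbl hcl) ?_ ?_ ?_
    · rw [mul_smul, e4', smul_smul, inv_mul_cancel₀ n4, one_smul]
    · rw [mul_smul, e5', smul_smul, inv_mul_cancel₀ n5, one_smul]
    · rw [mul_smul, e6', smul_smul, inv_mul_cancel₀ n6, one_smul]
  refine ⟨hfour, ?_⟩
  obtain ⟨mp, mq, mr⟩ := mem3 p q r
  have hM : ∀ x ∈ XS C U, v x ∈ Submodule.span ℝ (Set.range ![p, q, r]) := by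
    apply XS_sub R G _ a
    intro i hi
    rw [hUeq] at hi
    simp only [mem_insert, mem_singleton] at hi
    rcases hi with rfl | rfl | rfl | rfl
    · rw [sub_self]; exact Submodule.zero_mem _
    · exact mp
    · exact mq
    · exact mr
  by_cases hfin : finrank ℝ (Submodule.span ℝ (Set.range ![p, q, r])) ≤ 2
  · left
    exact ⟨_, hfin, hfour, hM⟩
  · right
    have hind := triple_indep hfin
    have d16 : x1 ≠ x6 := by
      intro h
      rw [← h, e1] at e6'
      have : α1 • p + α6 • q + (-α6) • r = 0 :=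
        calc α1 • p + α6 • q + (-α6) • r = α1 • p - α6 • (r - q) := by module
          _ = 0 := by rw [e6', sub_self]
      exact n1 (hind _ _ _ this).1
    have d25 : x2 ≠ x5 := by
      intro h
      rw [← h, e2] at e5'
      have : α5 • p + α2 • q + (-α5) • r = 0 :=
        calc α5 • p + α2 • q + (-α5) • r = α2 • q - α5 • (r - p) := by module
          _ = 0 := by rw [e5', sub_self]
      exact n2 (hind _ _ _ this).2.1
    have d34 : x3 ≠ x4 := by
      intro h
      rw [← h, e3] at e4'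
      have : α4 • p + (-α4) • q + α3 • r = 0 :=
        calc α4 • p + (-α4) • q + α3 • r = α3 • r - α4 • (q - p) := by module
          _ = 0 := by rw [e4', sub_self]
      exact n3 (hind _ _ _ this).2.2
    refine ⟨?_, ⟨_, span3_le p q r, hM⟩, ?_⟩
    · refine card_six_le ![x1, x2, x3, x4, x5, x6] ?_
        (fin6_inj d12 d13 d14 d15 d16 d23 d24 d25 d26 d34 d35 d36 d45 d46 d56)
      intro i
      fin_cases i
      · exact m1
      · exact m2
      · exact m3
      · exact m4
      · exact m5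
      · exact m6
    · intro l₁ hl₁ l₂ hl₂ hcov
      obtain ⟨F₁, hF₁, hm₁⟩ := R.line_span hl₁
      obtain ⟨F₂, hF₂, hm₂⟩ := R.line_span hl₂
      have key : ∀ x ∈ XS C U, v x ∈ F₁ ∨ v x ∈ F₂ := by
        intro x hx
        rcases mem_union.1 (hcov hx) with h | h
        · left; exact hm₁ x h
        · right; exact hm₂ x h
      have smul_iff : ∀ (F : Submodule ℝ W) (α : ℝ) (y : W), α ≠ 0 → α • y ∈ F → y ∈ F := by
        intro F α y hα h
        exact (F.smul_mem_iff hα).1 h
      have k1 : p ∈ F₁ ∨ p ∈ F₂ := by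
        rcases key x1 m1 with h | h
        · left; exact smul_iff _ _ _ n1 (e1 ▸ h)
        · right; exact smul_iff _ _ _ n1 (e1 ▸ h)
      have k2 : q ∈ F₁ ∨ q ∈ F₂ := by
        rcases key x2 m2 with h | h
        · left; exact smul_iff _ _ _ n2 (e2 ▸ h)
        · right; exact smul_iff _ _ _ n2 (e2 ▸ h)
      have k3 : r ∈ F₁ ∨ r ∈ F₂ := by
        rcases key x3 m3 with h | h
        · left; exact smul_iff _ _ _ n3 (e3 ▸ h)
        · right; exact smul_iff _ _ _ n3 (e3 ▸ h)
      have k4 : q - p ∈ F₁ ∨ q - p ∈ F₂ := by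
        rcases key x4 m4 with h | h
        · left; exact smul_iff _ _ _ n4 (e4' ▸ h)
        · right; exact smul_iff _ _ _ n4 (e4' ▸ h)
      have k5 : r - p ∈ F₁ ∨ r - p ∈ F₂ := by
        rcases key x5 m5 with h | h
        · left; exact smul_iff _ _ _ n5 (e5' ▸ h)
        · right; exact smul_iff _ _ _ n5 (e5' ▸ h)
      have k6 : r - q ∈ F₁ ∨ r - q ∈ F₂ := by
        rcases key x6 m6 with h | h
        · left; exact smul_iff _ _ _ n6 (e6' ▸ h)
        · right; exact smul_iff _ _ _ n6 (e6' ▸ h)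
      have fin_le : ∀ F : Submodule ℝ W, finrank ℝ F ≤ 2 → (p ∈ F ∧ q ∈ F ∧ r ∈ F) → False := by
        intro F hF ⟨f1, f2, f3⟩
        apply hfin
        refine le_trans (Submodule.finrank_mono ?_) hF
        rw [Submodule.span_le]
        rintro _ ⟨i, rfl⟩
        fin_cases i
        · exact f1
        · exact f2
        · exact f3
      rcases cover_lemma2 k1 k2 k3 k4 k5 k6 with h | h
      · exact fin_le _ hF₁ h
      · exact fin_le _ hF₂ h

end Pool.Agent.V11177.Conf
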