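import Pool.Agent.V11177.ConfC

namespace Pool.Agent.V11177.Conf

open Finset Module

variable {n : ℕ} {C : Config n} {W : Type*} [AddCommGroup W] [Module ℝ W]

lemma collinear_third {v : Fin n → W} (R : LRep C v) {U : Finset (Fin n)} {φ : W →ₗ[ℝ] ℝ}
    (G : Good C v U φ) {a b c : Fin n} (ha : a ∈ U) (hb : b ∈ U) (hc : c ∈ U) (hab : a ≠ b)
    {l : Finset (Fin n)} (hl : l ∈ C.lines) (hal : a ∈ l) (hbl : b ∈ l) (hcl : c ∈ l) :
    ∃ t : ℝ, ww v φ a - ww v φ c = t • (ww v φ a - ww v φ b) := by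
  obtain ⟨α, β, h⟩ := R.r2 l hl a hal b hbl c hcl hab
  have ha' := G.nz a ha
  have hb' := G.nz b hb
  have hc' := G.nz c hc
  have h9 : φ (v c) = α * φ (v a) + β * φ (v b) := by
    rw [h]; simp
  refine ⟨β * φ (v b) * (φ (v c))⁻¹, ?_⟩
  unfold ww
  have e : (φ (v c))⁻¹ • v c = ((φ (v c))⁻¹ * α) • v a + ((φ (v c))⁻¹ * β) • v b := by
    generalize φ (v c) = fc
    rw [h, smul_add, smul_smul, smul_smul]
  rw [e]
  have h1 : (φ (v a))⁻¹ - (φ (v c))⁻¹ * α = β * φ (v b) * (φ (v c))⁻¹ * (φ (v a))⁻¹ := by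
    field_simp
    linarith
  have h2 : (φ (v c))⁻¹ * β = β * φ (v b) * (φ (v c))⁻¹ * (φ (v b))⁻¹ := by
    field_simp
  have h3 : (φ (v a))⁻¹ • v a - (((φ (v c))⁻¹ * α) • v a + ((φ (v c))⁻¹ * β) • v b) =
      ((φ (v a))⁻¹ - (φ (v c))⁻¹ * α) • v a - ((φ (v c))⁻¹ * β) • v b := by module
  rw [h3, h1, h2]
  module

theorem key5 [FiniteDimensional ℝ W] {v : Fin n → W} (R : LRep C v) {U : Finset (Fin n)}
    {φ : W →ₗ[ℝ] ℝ} (G : Good C v U φ) (hU : U.card = 5) :
    Col C v U ∨ (6 ≤ (XS C U).card ∧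
      (∃ M : Submodule ℝ W, finrank ℝ M ≤ 3 ∧ ∀ x ∈ XS C U, v x ∈ M)) := by
  have hc3 := (G.T.cnt5 hU).2
  unfold cnt at hc3
  obtain ⟨l0, hl0eq⟩ := card_eq_one.1 hc3
  have hl0' : l0 ∈ C.lines.filter (fun l => (U ∩ l).card = 3) := by rw [hl0eq]; simp
  obtain ⟨hl0, hl03⟩ := mem_filter.1 hl0'
  have hl0U : l0 ⊆ U := by
    have : U ∩ l0 = l0 := eq_of_subset_of_card_le inter_subset_right (by
      rw [hl03, C.card_line l0 hl0])
    rw [← this]
    exact inter_subset_left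
  obtain ⟨a, b, c, hab, hac, hbc, hl0s⟩ := card_eq_three.1 (C.card_line l0 hl0)
  have hcard2 : (U \ l0).card = 2 := by
    rw [card_sdiff_of_subset hl0U, hU, C.card_line l0 hl0]
  obtain ⟨d, e, hde, hds⟩ := card_eq_two.1 hcard2
  have hal : a ∈ l0 := by rw [hl0s]; simp
  have hbl : b ∈ l0 := by rw [hl0s]; simp
  have hcl : c ∈ l0 := by rw [hl0s]; simp
  have ha := hl0U hal
  have hb := hl0U hbl
  have hc := hl0U hcl
  have hd' : d ∈ U \ l0 := by rw [hds]; simp
  have he' : e ∈ U \ l0 := by rw [hds]; simp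
  obtain ⟨hd, hdl⟩ := mem_sdiff.1 hd'
  obtain ⟨he, hel⟩ := mem_sdiff.1 he'
  have hJ : ∀ i ∈ l0, ∀ j ∈ U, j ∉ l0 → ∃ x, Jn C U i j x := by
    intro i hi j hj hjl
    have hij : j ≠ i := fun h => hjl (h ▸ hi)
    obtain ⟨l, hl, h1, h2⟩ := G.T.joined5 hU hl0 hl0U i hi j hj hij
    have h3 := inter_le_three U hl
    have h4 := G.T l hl
    have h5 : (U ∩ l).card ≠ 3 := by
      intro h
      have : l ∈ C.lines.filter (fun l => (U ∩ l).card = 3) := mem_filter.2 ⟨hl, h⟩
      rw [hl0eq, mem_singleton] at this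
      exact hjl (this ▸ h2)
    have h6 := inter_pos (hl0U hi) h1
    obtain ⟨x, hx, hxU⟩ := exists_third hl (U := U) (by omega)
    exact ⟨x, hxU, l, hl, h1, h2, hx⟩
  have nda : a ≠ d := fun h => hdl (h ▸ hal)
  have ndb : b ≠ d := fun h => hdl (h ▸ hbl)
  have ndc : c ≠ d := fun h => hdl (h ▸ hcl)
  have nea : a ≠ e := fun h => hel (h ▸ hal)
  have neb : b ≠ e := fun h => hel (h ▸ hbl)
  have nec : c ≠ e := fun h => hel (h ▸ hcl)
  obtain ⟨x1, j1⟩ := hJ a hal d hd hdl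
  obtain ⟨x2, j2⟩ := hJ b hbl d hd hdl
  obtain ⟨x3, j3⟩ := hJ c hcl d hd hdl
  obtain ⟨x4, j4⟩ := hJ a hal e he hel
  obtain ⟨x5, j5⟩ := hJ b hbl e he hel
  obtain ⟨x6, j6⟩ := hJ c hcl e he hel
  have m1 := j1.memXS ha hd nda
  have m2 := j2.memXS hb hd ndb
  have m3 := j3.memXS hc hd ndc
  have m4 := j4.memXS ha he nea
  have m5 := j5.memXS hb he neb
  have m6 := j6.memXS hc he nec
  obtain ⟨α1, n1, e1⟩ := G.vec R j1 ha hd nda
  obtain ⟨α2, n2, e2⟩ := G.vec R j2 hb hd ndb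
  obtain ⟨α3, n3, e3⟩ := G.vec R j3 hc hd ndc
  obtain ⟨α4, n4, e4⟩ := G.vec R j4 ha he nea
  obtain ⟨α5, n5, e5⟩ := G.vec R j5 hb he neb
  obtain ⟨α6, n6, e6⟩ := G.vec R j6 hc he nec
  have d12 : x1 ≠ x2 := fun h => j1.symm.dist (h ▸ j2.symm) hd ha hb nda.symm ndb.symm hab
  have d13 : x1 ≠ x3 := fun h => j1.symm.dist (h ▸ j3.symm) hd ha hc nda.symm ndc.symm hac
  have d23 : x2 ≠ x3 := fun h => j2.symm.dist (h ▸ j3.symm) hd hb hc ndb.symm ndc.symm hbc
  have d45 : x4 ≠ x5 := fun h => j4.symm.dist (h ▸ j5.symm) he ha hb nea.symm neb.symm hab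
  have d46 : x4 ≠ x6 := fun h => j4.symm.dist (h ▸ j6.symm) he ha hc nea.symm nec.symm hac
  have d56 : x5 ≠ x6 := fun h => j5.symm.dist (h ▸ j6.symm) he hb hc neb.symm nec.symm hbc
  have d14 : x1 ≠ x4 := fun h => j1.dist (h ▸ j4) ha hd he nda nea hde
  have d25 : x2 ≠ x5 := fun h => j2.dist (h ▸ j5) hb hd he ndb neb hde
  have d36 : x3 ≠ x6 := fun h => j3.dist (h ▸ j6) hc hd he ndc nec hde
  obtain ⟨t, ht⟩ := collinear_third R G ha hb hc hab hl0 hal hbl hcl
  have ig := G.indep R ha hb he hab hl0 hal hbl hel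
  have id := G.indep R ha hb hd hab hl0 hal hbl hdl
  have hbd : ww v φ b - ww v φ d = (ww v φ a - ww v φ d) - (ww v φ a - ww v φ b) := by abel
  have hbe : ww v φ b - ww v φ e = (ww v φ a - ww v φ e) - (ww v φ a - ww v φ b) := by abel
  have hcd : ww v φ c - ww v φ d = (ww v φ a - ww v φ d) - (ww v φ a - ww v φ c) := by abel
  have hce : ww v φ c - ww v φ e = (ww v φ a - ww v φ e) - (ww v φ a - ww v φ c) := by abel
  rw [hbd] at e2
  rw [hbe] at e5
  rw [hcd, ht] at e3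
  rw [hce, ht] at e6
  have hac' : ww v φ a - ww v φ c = t • (ww v φ a - ww v φ b) := ht
  generalize hk : ww v φ a - ww v φ b = k at *
  generalize hg : ww v φ a - ww v φ e = g at *
  generalize hdl' : ww v φ a - ww v φ d = δ at *
  have hfour : 4 ≤ (XS C U).card := by
    by_contra hlt
    push Not at hlt
    have h3 : ({x1, x2, x3} : Finset (Fin n)).card = 3 := by
      rw [card_eq_three]
      exact ⟨x1, x2, x3, d12, d13, d23, rfl⟩
    have hsub : ({x1, x2, x3} : Finset (Fin n)) ⊆ XS C U := by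
      intro y hy
      simp only [mem_insert, mem_singleton] at hy
      rcases hy with rfl | rfl | rfl <;> assumption
    have heq := eq_of_subset_of_card_le hsub (by omega)
    rw [← heq] at m4 m5 m6
    simp only [mem_insert, mem_singleton] at m4 m5 m6
    rcases m4 with h4 | h4 | h4
    · exact d14 h4.symm
    · -- x4 = x2
      rcases m5 with h5 | h5 | h5
      · rcases m6 with h6 | h6 | h6
        · exact d56 (h5.trans h6.symm)
        · exact d46 (h4.trans h6.symm)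
        · exact d36 h6.symm
      · exact d25 h5.symm
      · rcases m6 with h6 | h6 | h6
        · -- x4 = x2, x5 = x3, x6 = x1
          rw [h4, e2] at e4
          rw [h5, e3] at e5
          rw [h6, e1] at e6
          refine proj_vec (k := k) (g := δ) (d := g) (a := α4⁻¹ * α2) (b := α5⁻¹ * α3)
            (c := α6⁻¹ * α1) (t := t) id ?_ ?_ ?_
          · rw [mul_smul, e4, smul_smul, inv_mul_cancel₀ n4, one_smul]
          · rw [mul_smul, e5, smul_smul, inv_mul_cancel₀ n5, one_smul]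
          · rw [mul_smul, e6, smul_smul, inv_mul_cancel₀ n6, one_smul]
        · exact d46 (h4.trans h6.symm)
        · exact d36 h6.symm
    · -- x4 = x3
      rcases m5 with h5 | h5 | h5
      · rcases m6 with h6 | h6 | h6
        · exact d56 (h5.trans h6.symm)
        · -- x4 = x3, x5 = x1, x6 = x2
          rw [h4, e3] at e4
          rw [h5, e1] at e5
          rw [h6, e2] at e6
          refine proj_vec (k := k) (g := g) (d := δ) (a := α1⁻¹ * α5) (b := α2⁻¹ * α6)
            (c := α3⁻¹ * α4) (t := t) ig ?_ ?_ ?_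
          · rw [mul_smul, ← e5, smul_smul, inv_mul_cancel₀ n1, one_smul]
          · rw [mul_smul, ← e6, smul_smul, inv_mul_cancel₀ n2, one_smul]
          · rw [mul_smul, ← e4, smul_smul, inv_mul_cancel₀ n3, one_smul]
        · exact d36 h6.symm
      · exact d25 h5.symm
      · exact d45 (h4.trans h5.symm)
  obtain ⟨mk, mδ, mg⟩ := mem3 k δ g
  have hM : ∀ x ∈ XS C U, v x ∈ Submodule.span ℝ (Set.range ![k, δ, g]) := by
    apply XS_sub R G _ a
    intro i hi
    by_cases hil : i ∈ l0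
    · rw [hl0s] at hil
      simp only [mem_insert, mem_singleton] at hil
      rcases hil with rfl | rfl | rfl
      · rw [sub_self]; exact Submodule.zero_mem _
      · rw [hk]; exact mk
      · rw [hac']; exact Submodule.smul_mem _ _ mk
    · have : i ∈ U \ l0 := mem_sdiff.2 ⟨hi, hil⟩
      rw [hds] at this
      simp only [mem_insert, mem_singleton] at this
      rcases this with rfl | rfl
      · rw [hdl']; exact mδ
      · rw [hg]; exact mg
  by_cases hfin : finrank ℝ (Submodule.span ℝ (Set.range ![k, δ, g])) ≤ 2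
  · left
    exact ⟨_, hfin, hfour, hM⟩
  · right
    have hind := triple_indep hfin
    have gen : ∀ s s' α β : ℝ, α ≠ 0 → α • (δ - s • k) = β • (g - s' • k) → False := by
      intro s s' α β hα h
      have : (-(α * s) + β * s') • k + α • δ + (-β) • g = 0 :=
        calc (-(α * s) + β * s') • k + α • δ + (-β) • g
            = α • (δ - s • k) - β • (g - s' • k) := by module
          _ = 0 := by rw [h, sub_self]
      exact hα (hind _ _ _ this).2.1
    have f1 : v x1 = α1 • (δ - (0 : ℝ) • k) := by rw [e1]; simp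
    have f2 : v x2 = α2 • (δ - (1 : ℝ) • k) := by rw [e2]; simp
    have f4 : v x4 = α4 • (g - (0 : ℝ) • k) := by rw [e4]; simp
    have f5 : v x5 = α5 • (g - (1 : ℝ) • k) := by rw [e5]; simp
    have d15 : x1 ≠ x5 := fun h => gen 0 1 α1 α5 n1 (by rw [← f1, ← f5, h])
    have d16 : x1 ≠ x6 := fun h => gen 0 t α1 α6 n1 (by rw [← f1, ← e6, h])
    have d24 : x2 ≠ x4 := fun h => gen 1 0 α2 α4 n2 (by rw [← f2, ← f4, h])
    have d26 : x2 ≠ x6 := fun h => gen 1 t α2 α6 n2 (by rw [← f2, ← e6, h])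
    have d34 : x3 ≠ x4 := fun h => gen t 0 α3 α4 n3 (by rw [← e3, ← f4, h])
    have d35 : x3 ≠ x5 := fun h => gen t 1 α3 α5 n3 (by rw [← e3, ← f5, h])
    refine ⟨?_, _, span3_le k δ g, hM⟩
    refine card_six_le ![x1, x2, x3, x4, x5, x6] ?_
        (fin6_inj d12 d13 d14 d15 d16 d23 d24 d25 d26 d34 d35 d36 d45 d46 d56)
    intro i
    fin_cases i
    · exact m1
    · exact m2
    · exact m3
    · exact m4
    · exact m5
    · exact m6

end Pool.Agent.V11177.Conf
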