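import Mathlib

/-!
Definitions for the affine dimension of (n_3) configurations (used by MP_ac1762_co).
-/

namespace Pool.Agent.V11177.Conf

/-- A combinatorial (n_3) configuration on the point set Fin n: a set of n lines, each a
3-element set of points, every point lying on exactly 3 lines, and two distinct points lying
on at most one common line. -/
structure Config (n : ℕ) where
  lines : Finset (Finset (Fin n))
  card_lines : lines.card = n
  card_line : ∀ l ∈ lines, l.card = 3
  deg : ∀ p : Fin n, (lines.filter (fun l => p ∈ l)).card = 3
  linear : ∀ p q : Fin n, p ≠ q → ∀ l₁ ∈ lines, ∀ l₂ ∈ lines,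
    p ∈ l₁ → q ∈ l₁ → p ∈ l₂ → q ∈ l₂ → l₁ = l₂

/-- A geometric representation of C in Euclidean m-space: an injective map of the points of C
to points, and a map of the lines of C to pairwise distinct straight lines (affine subspaces,
nonempty and of dimension 1), such that an image point lies on an image line exactly when the
point is incident with the line in C. -/
structure GeomRep {n : ℕ} (C : Config n) (m : ℕ) where
  pt : Fin n → EuclideanSpace ℝ (Fin m)
  line : Finset (Fin n) → AffineSubspace ℝ (EuclideanSpace ℝ (Fin m))
  inj : Function.Injective pt
  straight : ∀ l ∈ C.lines,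
    (line l : Set (EuclideanSpace ℝ (Fin m))).Nonempty ∧
      Module.finrank ℝ (line l).direction = 1
  distinct : ∀ l ∈ C.lines, ∀ l' ∈ C.lines, line l = line l' → l = l'
  inc : ∀ l ∈ C.lines, ∀ p : Fin n, pt p ∈ line l ↔ p ∈ l

/-- C is realizable if it has a geometric representation in some Euclidean space. -/
def Realizable {n : ℕ} (C : Config n) : Prop := ∃ m : ℕ, Nonempty (GeomRep C m)

/-- The set of all dimensions of the affine hull of the image point set, over all geometric
representations of C in all Euclidean spaces. -/
def dims {n : ℕ} (C : Config n) : Set ℕ :=
  {d | ∃ m : ℕ, ∃ ρ : GeomRep C m,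
    Module.finrank ℝ (affineSpan ℝ (Set.range ρ.pt)).direction = d}

/-- The dimension of C is d: d is the largest element of dims C. -/
def HasDimension {n : ℕ} (C : Config n) (d : ℕ) : Prop := IsGreatest (dims C) d

end Pool.Agent.V11177.Conf
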