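import Pool.Agent.V11177.ConfD

namespace Pool.Agent.V11177.Conf

open Finset Module

variable {n : ℕ} {C : Config n} {W : Type*} [AddCommGroup W] [Module ℝ W]

/-- span of the vectors of A -/
def sp (v : Fin n → W) (A : Finset (Fin n)) : Submodule ℝ W :=
  Submodule.span ℝ (v '' (A : Set (Fin n)))

open Classical in
/-- points in the span of A -/
noncomputable def Fl (v : Fin n → W) (A : Finset (Fin n)) : Finset (Fin n) :=
  univ.filter (fun p => v p ∈ sp v A)

lemma mem_Fl {v : Fin n → W} {A : Finset (Fin n)} {p : Fin n} : p ∈ Fl v A ↔ v p ∈ sp v A := by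
  unfold Fl; simp

lemma mem_sp {v : Fin n → W} {A : Finset (Fin n)} {p : Fin n} (h : p ∈ A) : v p ∈ sp v A :=
  Submodule.subset_span ⟨p, h, rfl⟩

lemma sp_mono {v : Fin n → W} {A B : Finset (Fin n)} (h : A ⊆ B) : sp v A ≤ sp v B :=
  Submodule.span_mono (Set.image_mono (by exact_mod_cast h))

lemma Fl_mono {v : Fin n → W} {A B : Finset (Fin n)} (h : A ⊆ B) : Fl v A ⊆ Fl v B := by
  intro p hp
  rw [mem_Fl] at hp ⊢
  exact sp_mono h hp

lemma fl_cnt2 {v : Fin n → W} (R : LRep C v) (A : Finset (Fin n)) : cnt C (Fl v A) 2 = 0 := by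
  unfold cnt
  rw [card_eq_zero, filter_eq_empty_iff]
  intro l hl h
  obtain ⟨x, hx, hxU⟩ := exists_third hl h
  obtain ⟨i, j, hij, hUl⟩ := card_eq_two.1 h
  have hi : i ∈ Fl v A ∩ l := by rw [hUl]; simp
  have hj : j ∈ Fl v A ∩ l := by rw [hUl]; simp
  rw [mem_inter, mem_Fl] at hi hj
  apply hxU
  rw [mem_Fl]
  exact R.closed _ hl hi.2 hj.2 hx hij hi.1 hj.1

lemma grow {v : Fin n → W} {A : Finset (Fin n)} (hA : LinearIndepOn ℝ v (A : Set (Fin n)))
    {q : Fin n} (hq : q ∉ Fl v A) :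
    LinearIndepOn ℝ v ((insert q A : Finset (Fin n)) : Set (Fin n)) ∧
      (insert q A).card = A.card + 1 := by
  have hqA : q ∉ A := fun h => hq (mem_Fl.2 (mem_sp h))
  refine ⟨?_, card_insert_of_notMem hqA⟩
  rw [coe_insert, linearIndepOn_insert (by simpa using hqA)]
  exact ⟨hA, fun h => hq (mem_Fl.2 h)⟩

lemma grow_line {v : Fin n → W} (R : LRep C v) {A : Finset (Fin n)} {l : Finset (Fin n)}
    (hl : l ∈ C.lines) (h1 : (Fl v A ∩ l).card = 1) {q : Fin n} (hql : q ∈ l) (hq : q ∉ Fl v A) :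
    l ⊆ Fl v (insert q A) := by
  obtain ⟨a, ha⟩ := card_eq_one.1 h1
  have ha' : a ∈ Fl v A ∩ l := by rw [ha]; simp
  rw [mem_inter] at ha'
  intro x hx
  rw [mem_Fl]
  have haq : a ≠ q := fun h => hq (h ▸ ha'.1)
  refine R.closed _ hl ha'.2 hql hx haq ?_ (mem_sp (mem_insert_self _ _))
  exact mem_Fl.1 (Fl_mono (subset_insert _ _) ha'.1)

lemma sdiff_two {U l : Finset (Fin n)} (hl : l ∈ C.lines) (h : (U ∩ l).card = 1) :
    (l \ U).card = 2 := by
  have h1 := card_sdiff_add_card_inter l U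
  rw [inter_comm l U, h, C.card_line l hl] at h1
  omega

lemma exists_two {Q : Finset (Fin n)} (h : n < Q.card + 2 * cnt C Q 1) :
    ∃ l₁ ∈ C.lines, ∃ l₂ ∈ C.lines, l₁ ≠ l₂ ∧ (Q ∩ l₁).card = 1 ∧ (Q ∩ l₂).card = 1 ∧
      ∃ q, q ∉ Q ∧ q ∈ l₁ ∧ q ∈ l₂ := by
  by_contra hcon
  push Not at hcon
  have h1 : ((C.lines.filter (fun l => (Q ∩ l).card = 1)).biUnion (fun l => l \ Q)).card =
      2 * cnt C Q 1 := by
    rw [Finset.card_biUnion]
    · have : ∀ l ∈ C.lines.filter (fun l => (Q ∩ l).card = 1), (l \ Q).card = 2 := by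
        intro l hl
        rw [mem_filter] at hl
        exact sdiff_two hl.1 hl.2
      rw [Finset.sum_congr rfl this, sum_const, smul_eq_mul, mul_comm]
      rfl
    · intro l hl l' hl' hne
      rw [mem_coe, mem_filter] at hl hl'
      rw [Function.onFun, Finset.disjoint_left]
      intro x hx hx'
      rw [mem_sdiff] at hx hx'
      exact hcon l hl.1 l' hl'.1 hne hl.2 hl'.2 x hx.2 hx.1 hx'.1
  have h2 : ((C.lines.filter (fun l => (Q ∩ l).card = 1)).biUnion (fun l => l \ Q)) ⊆ Qᶜ := by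
    intro x hx
    rw [mem_biUnion] at hx
    obtain ⟨l, _, hx⟩ := hx
    rw [mem_compl]
    exact (mem_sdiff.1 hx).2
  have h3 := card_le_card h2
  rw [h1, card_compl, Fintype.card_fin] at h3
  have h4 := card_le_univ Q
  rw [Fintype.card_fin] at h4
  omega

lemma union_card {Q l₁ l₂ : Finset (Fin n)} (hl₁ : l₁ ∈ C.lines) (hl₂ : l₂ ∈ C.lines)
    (hne : l₁ ≠ l₂) (h1 : (Q ∩ l₁).card = 1) (h2 : (Q ∩ l₂).card = 1) {q : Fin n} (hq : q ∉ Q)
    (hq1 : q ∈ l₁) (hq2 : q ∈ l₂) : Q.card + 3 ≤ (Q ∪ l₁ ∪ l₂).card := by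
  have h3 := sdiff_two hl₁ h1
  have h4 := sdiff_two hl₂ h2
  have h5 : (Q ∪ l₁).card = Q.card + (l₁ \ Q).card := by
    rw [← union_sdiff_self_eq_union, card_union_of_disjoint disjoint_sdiff]
  have h6 : ((Q ∪ l₁) ∪ l₂).card = (Q ∪ l₁).card + (l₂ \ (Q ∪ l₁)).card := by
    rw [← union_sdiff_self_eq_union, card_union_of_disjoint disjoint_sdiff]
  have h7 : 0 < (l₂ \ (Q ∪ l₁)).card := by
    rw [card_pos]
    have hq' : q ∈ l₂ \ Q := mem_sdiff.2 ⟨hq2, hq⟩
    have h8 : ((l₂ \ Q).erase q).card = 1 := by rw [card_erase_of_mem hq', h4]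
    obtain ⟨y, hy⟩ := card_eq_one.1 h8
    have hy' : y ∈ (l₂ \ Q).erase q := by rw [hy]; simp
    rw [mem_erase, mem_sdiff] at hy'
    refine ⟨y, ?_⟩
    rw [mem_sdiff, mem_union]
    refine ⟨hy'.2.1, ?_⟩
    rintro (h | h)
    · exact hy'.2.2 h
    · exact hne (C.linear q y hy'.1.symm l₁ hl₁ l₂ hl₂ hq1 h hq2 hy'.2.1)
  omega

lemma exists_notin [FiniteDimensional ℝ W] {v : Fin n → W}
    (hdim : 5 ≤ finrank ℝ (Submodule.span ℝ (Set.range v))) {A : Finset (Fin n)}
    (hA : A.card ≤ 4) : ∃ q, q ∉ Fl v A := by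
  by_contra hcon
  push Not at hcon
  have h1 : Submodule.span ℝ (Set.range v) ≤ sp v A := by
    rw [Submodule.span_le]
    rintro _ ⟨p, rfl⟩
    exact mem_Fl.1 (hcon p)
  have h2 := Submodule.finrank_mono h1
  have h3 : finrank ℝ (sp v A) ≤ A.card := by
    classical
    unfold sp
    have : v '' (A : Set (Fin n)) = ((A.image v : Finset W) : Set W) := by simp
    rw [this]
    exact (finrank_span_finset_le_card _).trans card_image_le
  omega

lemma finrank_sp [FiniteDimensional ℝ W] {v : Fin n → W} {A : Finset (Fin n)}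
    (hA : LinearIndepOn ℝ v (A : Set (Fin n))) : finrank ℝ (sp v A) = A.card := by
  have h1 : sp v A = Submodule.span ℝ (Set.range (fun i : (A : Set (Fin n)) => v i)) := by
    unfold sp
    rw [Set.image_eq_range]
  rw [h1, finrank_span_eq_card hA]
  simp

/-- if span(A) has dimension bigger than G, some point of A is outside G -/
lemma exists_out [FiniteDimensional ℝ W] {v : Fin n → W} {A : Finset (Fin n)}
    (hA : LinearIndepOn ℝ v (A : Set (Fin n))) (G : Submodule ℝ W) (hG : finrank ℝ G < A.card) :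
    ∃ p ∈ A, v p ∉ G := by
  by_contra hcon
  push Not at hcon
  have h1 : sp v A ≤ G := by
    unfold sp
    rw [Submodule.span_le]
    rintro _ ⟨p, hp, rfl⟩
    exact hcon p hp
  have h2 := Submodule.finrank_mono h1
  rw [finrank_sp hA] at h2
  omega

lemma mem_span2 {x p q : W} (h : x ∈ Submodule.span ℝ (Set.range ![p, q])) :
    ∃ s t : ℝ, x = s • p + t • q := by
  rw [Matrix.range_cons, Matrix.range_cons, Matrix.range_empty, Set.union_empty,
    Set.singleton_union, Submodule.mem_span_pair] at h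
  obtain ⟨s, t, h⟩ := h
  exact ⟨s, t, h.symm⟩

lemma stage1 [FiniteDimensional ℝ W] {v : Fin n → W} (R : LRep C v) (hn : 0 < n) :
    ∃ A : Finset (Fin n), A.card = 2 ∧ LinearIndepOn ℝ v (A : Set (Fin n)) ∧
      Fl v A ∈ C.lines := by
  obtain ⟨l, hl⟩ : C.lines.Nonempty := card_pos.1 (by rw [C.card_lines]; exact hn)
  obtain ⟨a, b, c, hab, hac, hbc, hs⟩ := card_eq_three.1 (C.card_line l hl)
  have ha : a ∈ l := by rw [hs]; simp
  have hb : b ∈ l := by rw [hs]; simp
  refine ⟨{a, b}, card_pair hab, ?_, ?_⟩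
  · rw [coe_insert, coe_singleton, linearIndepOn_insert (by simpa using hab)]
    constructor
    · rw [linearIndepOn_singleton_iff]
      intro h
      exact R.r1 b a hab.symm 0 (by rw [h, zero_smul])
    · rw [Set.image_singleton, Submodule.mem_span_singleton]
      rintro ⟨r, hr⟩
      exact R.r1 a b hab r hr.symm
  · have : Fl v {a, b} = l := by
      ext p
      rw [mem_Fl]
      constructor
      · intro h
        unfold sp at h
        rw [coe_insert, coe_singleton, Set.image_pair, Submodule.mem_span_pair] at h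
        obtain ⟨s, t, h⟩ := h
        exact R.r3 l hl a ha b hb p s t h.symm
      · intro h
        exact R.closed _ hl ha hb h hab (mem_sp (by simp)) (mem_sp (by simp))
    rw [this]
    exact hl

lemma stage2 [FiniteDimensional ℝ W] {v : Fin n → W} (R : LRep C v) (hn : 0 < n) (hn' : n ≤ 14) :
    ∃ A : Finset (Fin n), A.card = 3 ∧ LinearIndepOn ℝ v (A : Set (Fin n)) ∧
      6 ≤ (Fl v A).card := by
  obtain ⟨A, hA, hAi, hAl⟩ := stage1 R hn
  have hQ := C.card_line _ hAl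
  have h2 := fl_cnt2 R A
  have h3 : cnt C (Fl v A) 3 ≤ 1 := by
    unfold cnt
    rw [card_le_one]
    intro l hl l' hl'
    rw [mem_filter] at hl hl'
    have e1 : Fl v A ∩ l = Fl v A := eq_of_subset_of_card_le inter_subset_left (by rw [hl.2, hQ])
    have e2 : Fl v A ∩ l = l := eq_of_subset_of_card_le inter_subset_right
      (by rw [hl.2, C.card_line l hl.1])
    have e3 : Fl v A ∩ l' = Fl v A := eq_of_subset_of_card_le inter_subset_left
      (by rw [hl'.2, hQ])
    have e4 : Fl v A ∩ l' = l' := eq_of_subset_of_card_le inter_subset_right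
      (by rw [hl'.2, C.card_line l' hl'.1])
    rw [← e2, e1, ← e4, e3]
  have h4 := cnt_inc C (Fl v A)
  rw [h2, hQ] at h4
  obtain ⟨l₁, hl₁, l₂, hl₂, hne, c1, c2, q, hq, hq1, hq2⟩ :=
    exists_two (C := C) (Q := Fl v A) (by rw [hQ]; omega)
  obtain ⟨g1, g2⟩ := grow hAi hq
  refine ⟨insert q A, by rw [g2, hA], g1, ?_⟩
  have h5 := union_card hl₁ hl₂ hne c1 c2 hq hq1 hq2
  have h6 : Fl v A ∪ l₁ ∪ l₂ ⊆ Fl v (insert q A) := by
    refine union_subset (union_subset (Fl_mono (subset_insert _ _)) ?_) ?_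
    · exact grow_line R hl₁ c1 hq1 hq
    · exact grow_line R hl₂ c2 hq2 hq
  have h7 := card_le_card h6
  omega

lemma split1 {U l : Finset (Fin n)} (hl : l ∈ C.lines) (h : (U ∩ l).card = 1) :
    ∃ u y z : Fin n, u ∈ U ∧ u ∈ l ∧ y ∈ l ∧ z ∈ l ∧ y ≠ z ∧ y ∉ U ∧ z ∉ U := by
  obtain ⟨u, hu⟩ := card_eq_one.1 h
  have hu' : u ∈ U ∩ l := by rw [hu]; simp
  obtain ⟨y, z, hyz, hs⟩ := card_eq_two.1 (sdiff_two hl h)
  have hy : y ∈ l \ U := by rw [hs]; simp
  have hz : z ∈ l \ U := by rw [hs]; simp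
  rw [mem_inter] at hu'
  rw [mem_sdiff] at hy hz
  exact ⟨u, y, z, hu'.1, hu'.2, hy.1, hz.1, hyz, hy.2, hz.2⟩

/-- no seven points closed under all their lines -/
lemma no_fano [FiniteDimensional ℝ W] {v : Fin n → W} (R : LRep C v) {Q : Finset (Fin n)}
    (hQ : Q.card = 7) (hclosed : ∀ l ∈ C.lines, (Q ∩ l).Nonempty → l ⊆ Q) : False := by
  classical
  obtain ⟨p0, hp0⟩ : Q.Nonempty := card_pos.1 (by omega)
  have hdeg := C.deg p0
  obtain ⟨l0, hl0'⟩ : (C.lines.filter (fun l => p0 ∈ l)).Nonempty := card_pos.1 (by omega)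
  obtain ⟨hl0, hp0l⟩ := mem_filter.1 hl0'
  have hl0Q : l0 ⊆ Q := hclosed l0 hl0 ⟨p0, mem_inter.2 ⟨hp0, hp0l⟩⟩
  obtain ⟨a, b, c, hab, hac, hbc, hs⟩ := card_eq_three.1 (C.card_line l0 hl0)
  have ha : a ∈ l0 := by rw [hs]; simp
  have hb : b ∈ l0 := by rw [hs]; simp
  obtain ⟨u0, hu0⟩ : (Q \ l0).Nonempty := card_pos.1 (by
    rw [card_sdiff_of_subset hl0Q, hQ, C.card_line l0 hl0]; omega)
  obtain ⟨hu0Q, hu0l⟩ := mem_sdiff.1 hu0
  have hu0S : v u0 ∉ Submodule.span ℝ (Set.range ![v a, v b]) := by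
    intro h
    obtain ⟨s, t, h⟩ := mem_span2 h
    exact hu0l (R.r3 l0 hl0 a ha b hb u0 s t h)
  obtain ⟨φ, hφ0, hφ⟩ := Submodule.exists_le_ker_of_notMem hu0S
  have hl0z : ∀ x ∈ l0, φ (v x) = 0 := by
    intro x hx
    have : v x ∈ Submodule.span ℝ (Set.range ![v a, v b]) :=
      R.closed _ hl0 ha hb hx hab (Submodule.subset_span ⟨0, rfl⟩)
        (Submodule.subset_span ⟨1, rfl⟩)
    exact LinearMap.mem_ker.1 (hφ this)
  set U := Q.filter (fun p => φ (v p) ≠ 0) with hUdef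
  have hG : Good C v U φ := by
    refine ⟨?_, ?_, ?_⟩
    · intro l hl h
      obtain ⟨u, y, z, huU, hul, hyl, hzl, hyz, hyU, hzU⟩ := split1 hl h
      have hu' := mem_filter.1 huU
      have hlQ := hclosed l hl ⟨u, mem_inter.2 ⟨hu'.1, hul⟩⟩
      have hy0 : φ (v y) = 0 := by
        by_contra h0
        exact hyU (mem_filter.2 ⟨hlQ hyl, h0⟩)
      have hz0 : φ (v z) = 0 := by
        by_contra h0
        exact hzU (mem_filter.2 ⟨hlQ hzl, h0⟩)
      exact hu'.2 (LinearMap.mem_ker.1 (R.closed (LinearMap.ker φ) hl hyl hzl hul hyz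
        (LinearMap.mem_ker.2 hy0) (LinearMap.mem_ker.2 hz0)))
    · intro u hu
      exact (mem_filter.1 hu).2
    · intro l hl h x hx hxU
      obtain ⟨y, hy⟩ : (U ∩ l).Nonempty := card_pos.1 (by omega)
      rw [mem_inter] at hy
      have hlQ := hclosed l hl ⟨y, mem_inter.2 ⟨(mem_filter.1 hy.1).1, hy.2⟩⟩
      by_contra h0
      exact hxU (mem_filter.2 ⟨hlQ hx, h0⟩)
  have h4 := hG.T.four_le ⟨u0, mem_filter.2 ⟨hu0Q, hφ0⟩⟩
  have hUs : U ⊆ Q \ l0 := by
    intro x hx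
    obtain ⟨h1, h2⟩ := mem_filter.1 hx
    exact mem_sdiff.2 ⟨h1, fun h => h2 (hl0z x h)⟩
  have h5 := card_le_card hUs
  rw [card_sdiff_of_subset hl0Q, hQ, C.card_line l0 hl0] at h5
  have hUc : U.card = 4 := by omega
  have hUQ : U ⊆ Q := filter_subset _ _
  have h6 := (key4 R hG hUc).1
  have h7 : XS C U ⊆ Q \ U := by
    intro x hx
    obtain ⟨_, hxU, l, hl, hxl, hc⟩ := mem_filter.1 hx
    obtain ⟨y, hy⟩ : (U ∩ l).Nonempty := card_pos.1 (by omega)
    rw [mem_inter] at hy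
    have hlQ := hclosed l hl ⟨y, mem_inter.2 ⟨(mem_filter.1 hy.1).1, hy.2⟩⟩
    exact mem_sdiff.2 ⟨hlQ hxl, hxU⟩
  have h8 := card_le_card h7
  rw [card_sdiff_of_subset hUQ, hQ, hUc] at h8
  omega

lemma six_bound {Q : Finset (Fin n)} (hQ : Q.card = 6) : cnt C Q 3 ≤ 4 := by
  have h1 : ∀ i ∈ Q, ((C.lines.filter (fun l => (Q ∩ l).card = 3)).filter (fun l => i ∈ l)).card
      ≤ 2 := by
    intro i hi
    have h2 := local_le C Q i hi
    have h3 : ∑ l ∈ (C.lines.filter (fun l => (Q ∩ l).card = 3)).filter (fun l => i ∈ l),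
        ((Q ∩ l).card - 1) ≤ ∑ l ∈ C.lines.filter (fun l => i ∈ l), ((Q ∩ l).card - 1) := by
      apply Finset.sum_le_sum_of_subset
      intro l hl
      rw [mem_filter, mem_filter] at hl
      exact mem_filter.2 ⟨hl.1.1, hl.2⟩
    have h4 : ∀ l ∈ (C.lines.filter (fun l => (Q ∩ l).card = 3)).filter (fun l => i ∈ l),
        ((Q ∩ l).card - 1) = 2 := by
      intro l hl
      rw [mem_filter, mem_filter] at hl
      rw [hl.1.2]
    rw [Finset.sum_congr rfl h4, sum_const, smul_eq_mul] at h3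
    rw [hQ] at h2
    omega
  have h2 := Finset.sum_card_inter_le h1
  have h3 : ∀ l ∈ C.lines.filter (fun l => (Q ∩ l).card = 3), (Q ∩ l).card = 3 := by
    intro l hl
    exact (mem_filter.1 hl).2
  rw [Finset.sum_congr rfl h3, sum_const, smul_eq_mul, hQ] at h2
  unfold cnt
  omega

lemma stage3 [FiniteDimensional ℝ W] {v : Fin n → W} (R : LRep C v) (hn : 0 < n) (hn' : n ≤ 14)
    (hdim : 5 ≤ finrank ℝ (Submodule.span ℝ (Set.range v))) :
    ∃ A : Finset (Fin n), A.card = 4 ∧ LinearIndepOn ℝ v (A : Set (Fin n)) ∧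
      9 ≤ (Fl v A).card := by
  obtain ⟨A, hA, hAi, hA6⟩ := stage2 R hn hn'
  have h2 := fl_cnt2 R A
  have h4 := cnt_inc C (Fl v A)
  rw [h2] at h4
  by_cases h8 : 8 ≤ (Fl v A).card
  · obtain ⟨q, hq⟩ := exists_notin hdim (A := A) (by omega)
    obtain ⟨g1, g2⟩ := grow hAi hq
    refine ⟨insert q A, by rw [g2, hA], g1, ?_⟩
    have : insert q (Fl v A) ⊆ Fl v (insert q A) := by
      rw [insert_subset_iff]
      exact ⟨mem_Fl.2 (mem_sp (mem_insert_self _ _)), Fl_mono (subset_insert _ _)⟩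
    have h5 := card_le_card this
    rw [card_insert_of_notMem hq] at h5
    omega
  by_cases h7 : (Fl v A).card = 7
  · by_cases hc : cnt C (Fl v A) 1 = 0
    · exfalso
      apply no_fano R h7
      intro l hl hne
      have h1 := card_pos.2 hne
      have h3 := cnt_zero_imp hc hl
      have h5 := cnt_zero_imp h2 hl
      have h6 := inter_le_three (Fl v A) hl
      have h9 : Fl v A ∩ l = l := eq_of_subset_of_card_le inter_subset_right (by
        rw [C.card_line l hl]; omega)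
      rw [← h9]
      exact inter_subset_left
    · obtain ⟨l, hl⟩ : (C.lines.filter (fun l => (Fl v A ∩ l).card = 1)).Nonempty :=
        card_pos.1 (Nat.pos_of_ne_zero hc)
      obtain ⟨hl, hc1⟩ := mem_filter.1 hl
      obtain ⟨u, y, z, huU, hul, hyl, hzl, hyz, hyU, hzU⟩ := split1 hl hc1
      obtain ⟨g1, g2⟩ := grow hAi hyU
      refine ⟨insert y A, by rw [g2, hA], g1, ?_⟩
      have h5 : Fl v A ∪ l ⊆ Fl v (insert y A) :=
        union_subset (Fl_mono (subset_insert _ _)) (grow_line R hl hc1 hyl hyU)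
      have h6 := card_le_card h5
      have h9 : (Fl v A ∪ l).card = (Fl v A).card + (l \ Fl v A).card := by
        rw [← union_sdiff_self_eq_union, card_union_of_disjoint disjoint_sdiff]
      rw [sdiff_two hl hc1] at h9
      omega
  · have h6 : (Fl v A).card = 6 := by omega
    have h3 := six_bound (C := C) h6
    rw [h6] at h4
    obtain ⟨l₁, hl₁, l₂, hl₂, hne, c1, c2, q, hq, hq1, hq2⟩ :=
      exists_two (C := C) (Q := Fl v A) (by rw [h6]; omega)
    obtain ⟨g1, g2⟩ := grow hAi hq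
    refine ⟨insert q A, by rw [g2, hA], g1, ?_⟩
    have h5 := union_card hl₁ hl₂ hne c1 c2 hq hq1 hq2
    have h6 : Fl v A ∪ l₁ ∪ l₂ ⊆ Fl v (insert q A) := by
      refine union_subset (union_subset (Fl_mono (subset_insert _ _)) ?_) ?_
      · exact grow_line R hl₁ c1 hq1 hq
      · exact grow_line R hl₂ c2 hq2 hq
    have h7 := card_le_card h6
    omega

end Pool.Agent.V11177.Conf
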