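import Pool.Agent.V11177.ConfE

namespace Pool.Agent.V11177.Conf

open Finset Module

variable {n : ℕ} {C : Config n} {W : Type*} [AddCommGroup W] [Module ℝ W]

/-- collinear third points contradict the count of lines inside R -/
lemma col_contra [FiniteDimensional ℝ W] {v : Fin n → W} (R : LRep C v) {Q : Finset (Fin n)}
    (h5 : 5 ≤ Q.card) (h6 : Q.card ≤ 6)
    (hRL : Q.card ≤ (C.lines.filter (fun l => l ⊆ Q)).card + 4)
    {Y : Finset (Fin n)} (hY : Y ⊆ Q) (hY4 : 4 ≤ Y.card) {M : Submodule ℝ W}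
    (hM : finrank ℝ M ≤ 2) (hYM : ∀ y ∈ Y, v y ∈ M) : False := by
  classical
  set B := Q.filter (fun p => v p ∉ M) with hB
  have hB1 : B.card + 4 ≤ Q.card := by
    have h1 : Y ⊆ Q.filter (fun p => v p ∈ M) := by
      intro y hy
      exact mem_filter.2 ⟨hY hy, hYM y hy⟩
    have h2 := card_le_card h1
    have h3 := Finset.card_filter_add_card_filter_not (s := Q) (fun p => v p ∈ M)
    rw [hB]
    omega
  have hB2 : ∀ l ∈ C.lines, l ⊆ Q → 2 ≤ (B ∩ l).card := by
    intro l hl hlQ
    by_contra hlt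
    push Not at hlt
    have h1 := card_sdiff_add_card_inter l B
    rw [inter_comm l B, C.card_line l hl] at h1
    obtain ⟨p, hp, q, hq, hpq⟩ := one_lt_card.1 (show 1 < (l \ B).card by omega)
    rw [mem_sdiff] at hp hq
    have hpM : v p ∈ M := by
      by_contra h
      exact hp.2 (mem_filter.2 ⟨hlQ hp.1, h⟩)
    have hqM : v q ∈ M := by
      by_contra h
      exact hq.2 (mem_filter.2 ⟨hlQ hq.1, h⟩)
    have hli : LinearIndependent ℝ ![v p, v q] := by
      rw [LinearIndependent.pair_iff]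
      intro s t h
      have ht : t = 0 := by
        by_contra ht
        apply R.r1 q p hpq.symm (-(t⁻¹ * s))
        have h2 : t⁻¹ • (s • v p + t • v q) = 0 := by rw [h, smul_zero]
        rw [smul_add, smul_smul, smul_smul, inv_mul_cancel₀ ht, one_smul] at h2
        rw [neg_smul]
        exact eq_neg_of_add_eq_zero_right h2
      subst ht
      refine ⟨?_, rfl⟩
      rw [zero_smul, add_zero, smul_eq_zero] at h
      rcases h with h | h
      · exact h
      · exact absurd (by rw [h, zero_smul]) (R.r1 p q hpq 0)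
    have hle : Submodule.span ℝ (Set.range ![v p, v q]) ≤ M := by
      rw [Submodule.span_le]
      rintro _ ⟨i, rfl⟩
      fin_cases i
      · exact hpM
      · exact hqM
    have heq : Submodule.span ℝ (Set.range ![v p, v q]) = M := by
      apply Submodule.eq_of_le_of_finrank_le hle
      rw [finrank_span_eq_card hli, Fintype.card_fin]
      exact hM
    have hYl : Y ⊆ l := by
      intro y hy
      have h2 := hYM y hy
      rw [← heq] at h2
      obtain ⟨s, t, h2⟩ := mem_span2 h2
      exact R.r3 l hl p hp.1 q hq.1 y s t h2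
    have h3 := card_le_card hYl
    rw [C.card_line l hl] at h3
    omega
  by_cases h : Q.card = 5
  · obtain ⟨l, hl⟩ : (C.lines.filter (fun l => l ⊆ Q)).Nonempty := card_pos.1 (by omega)
    obtain ⟨hl, hlQ⟩ := mem_filter.1 hl
    have h1 := hB2 l hl hlQ
    have h2 := card_le_card (inter_subset_left : B ∩ l ⊆ B)
    omega
  · obtain ⟨l, hl, l', hl', hne⟩ := one_lt_card.1
      (show 1 < (C.lines.filter (fun l => l ⊆ Q)).card by omega)
    obtain ⟨hl, hlQ⟩ := mem_filter.1 hl
    obtain ⟨hl', hlQ'⟩ := mem_filter.1 hl'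
    have h1 := hB2 l hl hlQ
    have h2 := hB2 l' hl' hlQ'
    have e1 : B ∩ l = B := eq_of_subset_of_card_le inter_subset_left (by omega)
    have e2 : B ∩ l' = B := eq_of_subset_of_card_le inter_subset_left (by omega)
    have h3 := card_le_card (inter_subset_left : B ∩ l ⊆ B)
    obtain ⟨p, hp, q, hq, hpq⟩ := one_lt_card.1 (show 1 < B.card by omega)
    apply hne
    apply C.linear p q hpq l hl l' hl'
    · rw [← e1] at hp; exact (mem_inter.1 hp).2
    · rw [← e1] at hq; exact (mem_inter.1 hq).2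
    · rw [← e2] at hp; exact (mem_inter.1 hp).2
    · rw [← e2] at hq; exact (mem_inter.1 hq).2

lemma XS_iff {U : Finset (Fin n)} {x : Fin n} :
    x ∈ XS C U ↔ x ∉ U ∧ ∃ l ∈ C.lines, x ∈ l ∧ (U ∩ l).card = 2 := by
  unfold XS; simp

theorem core [FiniteDimensional ℝ W] {v : Fin n → W} (R : LRep C v) (hn : 0 < n) (hn' : n ≤ 14)
    (hdim : 5 ≤ finrank ℝ (Submodule.span ℝ (Set.range v))) : False := by
  classical
  obtain ⟨A, hA, hAi, hA9⟩ := stage3 R hn hn' hdim
  obtain ⟨p0, hp0⟩ := exists_notin hdim (A := A) (by omega)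
  obtain ⟨φ, hφ0, hφ⟩ := Submodule.exists_le_ker_of_notMem (fun h => hp0 (mem_Fl.2 h))
  set U := (univ : Finset (Fin n)).filter (fun p => φ (v p) ≠ 0) with hUdef
  have hUm : ∀ p, p ∈ U ↔ φ (v p) ≠ 0 := by intro p; rw [hUdef]; simp
  have hUn : ∀ p, p ∉ U → φ (v p) = 0 := by
    intro p hp
    by_contra h
    exact hp ((hUm p).2 h)
  have hUfl : Disjoint U (Fl v A) := by
    rw [Finset.disjoint_left]
    intro p hp hp'
    exact (hUm p).1 hp (LinearMap.mem_ker.1 (hφ (mem_Fl.1 hp')))
  have hUA : ∀ p ∈ A, p ∉ U := by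
    intro p hp h
    exact Finset.disjoint_left.1 hUfl h (mem_Fl.2 (mem_sp hp))
  have hUcard : U.card + 9 ≤ n := by
    have h1 := card_le_univ (U ∪ Fl v A)
    rw [card_union_of_disjoint hUfl, Fintype.card_fin] at h1
    omega
  have GU : Good C v U φ := by
    refine ⟨?_, fun u hu => (hUm u).1 hu, fun l hl h x hx hxU => hUn x hxU⟩
    intro l hl h
    obtain ⟨u, y, z, huU, hul, hyl, hzl, hyz, hyU, hzU⟩ := split1 hl h
    exact (hUm u).1 huU (LinearMap.mem_ker.1 (R.closed (LinearMap.ker φ) hl hyl hzl hul hyz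
        (LinearMap.mem_ker.2 (hUn y hyU)) (LinearMap.mem_ker.2 (hUn z hzU))))
  have hU4 := GU.T.four_le ⟨p0, (hUm p0).2 hφ0⟩
  have hUc : U.card = 4 ∨ U.card = 5 := by omega
  -- the space G
  have hGex : ∃ G : Submodule ℝ W, finrank ℝ G ≤ 3 ∧ (∀ x ∈ XS C U, v x ∈ G) ∧
      5 ≤ ((univ : Finset (Fin n)).filter (fun p => p ∉ U ∧ v p ∈ G)).card := by
    have hcol : Col C v U → ∃ G : Submodule ℝ W, finrank ℝ G ≤ 3 ∧ (∀ x ∈ XS C U, v x ∈ G) ∧
        5 ≤ ((univ : Finset (Fin n)).filter (fun p => p ∉ U ∧ v p ∈ G)).card := by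
      rintro ⟨M, hM2, hX4, hXM⟩
      obtain ⟨y, hyA, hyM⟩ := exists_out hAi M (by omega)
      refine ⟨M ⊔ Submodule.span ℝ {v y}, ?_, ?_, ?_⟩
      · have h1 := Submodule.finrank_add_le_finrank_add_finrank M (Submodule.span ℝ {v y})
        have h2 : finrank ℝ (Submodule.span ℝ {v y}) ≤ 1 := by
          have := finrank_span_le_card (R := ℝ) ({v y} : Set W)
          simpa using this
        omega
      · intro x hx
        exact Submodule.mem_sup_left (hXM x hx)
      · have h1 : insert y (XS C U) ⊆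
            (univ : Finset (Fin n)).filter (fun p => p ∉ U ∧
              v p ∈ M ⊔ Submodule.span ℝ {v y}) := by
          intro p hp
          rw [mem_insert] at hp
          rw [mem_filter]
          rcases hp with rfl | hp
          · exact ⟨mem_univ _, hUA p hyA,
              Submodule.mem_sup_right (Submodule.mem_span_singleton_self _)⟩
          · exact ⟨mem_univ _, (XS_iff.1 hp).1, Submodule.mem_sup_left (hXM p hp)⟩
        have h2 := card_le_card h1
        rw [card_insert_of_notMem (fun h => hyM (hXM y h))] at h2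
        omega
    have hncol : (6 ≤ (XS C U).card ∧
        (∃ M : Submodule ℝ W, finrank ℝ M ≤ 3 ∧ ∀ x ∈ XS C U, v x ∈ M)) →
        ∃ G : Submodule ℝ W, finrank ℝ G ≤ 3 ∧ (∀ x ∈ XS C U, v x ∈ G) ∧
        5 ≤ ((univ : Finset (Fin n)).filter (fun p => p ∉ U ∧ v p ∈ G)).card := by
      rintro ⟨hX6, M, hM3, hXM⟩
      refine ⟨M, hM3, hXM, ?_⟩
      have h1 : XS C U ⊆ (univ : Finset (Fin n)).filter (fun p => p ∉ U ∧ v p ∈ M) := by
        intro p hp
        exact mem_filter.2 ⟨mem_univ _, (XS_iff.1 hp).1, hXM p hp⟩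
      have h2 := card_le_card h1
      omega
    rcases hUc with h | h
    · rcases (key4 R GU h).2 with h1 | h1
      · exact hcol h1
      · exact hncol ⟨h1.1, h1.2.1⟩
    · rcases key5 R GU h with h1 | h1
      · exact hcol h1
      · exact hncol h1
  obtain ⟨G, hG3, hXG, hG5⟩ := hGex
  obtain ⟨p1, hp1A, hp1G⟩ := exists_out hAi G (by omega)
  obtain ⟨ψ, hψ0, hψ⟩ := Submodule.exists_le_ker_of_notMem hp1G
  set V := (univ : Finset (Fin n)).filter (fun p => p ∉ U ∧ ψ (v p) ≠ 0) with hVdef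
  set Q := (univ : Finset (Fin n)).filter (fun p => p ∉ U ∧ ψ (v p) = 0) with hQdef
  have hVm : ∀ p, p ∈ V ↔ p ∉ U ∧ ψ (v p) ≠ 0 := by intro p; rw [hVdef]; simp
  have hQm : ∀ p, p ∈ Q ↔ p ∉ U ∧ ψ (v p) = 0 := by intro p; rw [hQdef]; simp
  have hXQ : XS C U ⊆ Q := by
    intro x hx
    exact (hQm x).2 ⟨(XS_iff.1 hx).1, LinearMap.mem_ker.1 (hψ (hXG x hx))⟩
  have GV : Good C v V ψ := by
    refine ⟨?_, fun u hu => ((hVm u).1 hu).2, ?_⟩
    · intro l hl h
      obtain ⟨u, y, z, huV, hul, hyl, hzl, hyz, hyV, hzV⟩ := split1 hl h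
      have hu := (hVm u).1 huV
      by_cases h0 : (U ∩ l).card = 0
      · rw [card_eq_zero] at h0
        have hyU : y ∉ U := fun h => by
          have : y ∈ U ∩ l := mem_inter.2 ⟨h, hyl⟩
          rw [h0] at this
          simp at this
        have hzU : z ∉ U := fun h => by
          have : z ∈ U ∩ l := mem_inter.2 ⟨h, hzl⟩
          rw [h0] at this
          simp at this
        have hy0 : ψ (v y) = 0 := by
          by_contra h1
          exact hyV ((hVm y).2 ⟨hyU, h1⟩)
        have hz0 : ψ (v z) = 0 := by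
          by_contra h1
          exact hzV ((hVm z).2 ⟨hzU, h1⟩)
        exact hu.2 (LinearMap.mem_ker.1 (R.closed (LinearMap.ker ψ) hl hyl hzl hul hyz
          (LinearMap.mem_ker.2 hy0) (LinearMap.mem_ker.2 hz0)))
      · have h1 := GU.T l hl
        have h2 : (U ∩ l) ⊆ l.erase u := by
          intro x hx
          rw [mem_inter] at hx
          exact mem_erase.2 ⟨fun h => hu.1 (h ▸ hx.1), hx.2⟩
        have h3 := card_le_card h2
        rw [card_erase_of_mem hul, C.card_line l hl] at h3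
        have h4 : u ∈ XS C U := XS_iff.2 ⟨hu.1, l, hl, hul, by omega⟩
        exact hu.2 (LinearMap.mem_ker.1 (hψ (hXG u h4)))
    · intro l hl h x hx hxV
      by_cases hxU : x ∈ U
      · exfalso
        apply GU.T l hl
        have h1 : (U ∩ l) ⊆ l \ V := by
          intro y hy
          rw [mem_inter] at hy
          exact mem_sdiff.2 ⟨hy.2, fun h => ((hVm y).1 h).1 hy.1⟩
        have h2 := card_le_card h1
        have h3 := card_sdiff_add_card_inter l V
        rw [inter_comm l V, h, C.card_line l hl] at h3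
        have h4 := inter_pos hxU hx
        omega
      · by_contra h1
        exact hxV ((hVm x).2 ⟨hxU, h1⟩)
  have hV4 := GV.T.four_le ⟨p1, (hVm p1).2 ⟨hUA p1 hp1A, hψ0⟩⟩
  have hQ5 : 5 ≤ Q.card := by
    refine le_trans hG5 (card_le_card ?_)
    intro p hp
    obtain ⟨_, h1, h2⟩ := mem_filter.1 hp
    exact (hQm p).2 ⟨h1, LinearMap.mem_ker.1 (hψ h2)⟩
  have hsum : U.card + V.card + Q.card = n := by
    have h1 : Disjoint U V := by
      rw [Finset.disjoint_left]
      intro p hp hp'
      exact ((hVm p).1 hp').1 hp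
    have h2 : Disjoint (U ∪ V) Q := by
      rw [Finset.disjoint_left]
      intro p hp hp'
      rcases mem_union.1 hp with h | h
      · exact ((hQm p).1 hp').1 h
      · exact ((hVm p).1 h).2 ((hQm p).1 hp').2
    rw [← card_union_of_disjoint h1, ← card_union_of_disjoint h2]
    have : U ∪ V ∪ Q = univ := by
      ext p
      simp only [mem_union, mem_univ, iff_true]
      by_cases hp : p ∈ U
      · left; left; exact hp
      · by_cases hp' : ψ (v p) = 0
        · right; exact (hQm p).2 ⟨hp, hp'⟩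
        · left; right; exact (hVm p).2 ⟨hp, hp'⟩
    rw [this, card_univ, Fintype.card_fin]
  have hVc : V.card = 4 ∨ V.card = 5 := by omega
  have hQ6 : Q.card ≤ 6 := by omega
  have hnot : ∀ l ∈ C.lines, (U ∩ l).Nonempty → (V ∩ l).Nonempty → False := by
    intro l hl h1 h2
    have h3 := GU.T l hl
    have h4 := GV.T l hl
    have h5 := card_pos.2 h1
    have h6 := card_pos.2 h2
    have h7 : Disjoint (U ∩ l) (V ∩ l) := by
      rw [Finset.disjoint_left]
      intro p hp hp'
      exact ((hVm p).1 (mem_inter.1 hp').1).1 (mem_inter.1 hp).1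
    have h8 := card_le_card (union_subset (inter_subset_right : U ∩ l ⊆ l)
      (inter_subset_right : V ∩ l ⊆ l))
    rw [card_union_of_disjoint h7, C.card_line l hl] at h8
    omega
  have hRL : Q.card ≤ (C.lines.filter (fun l => l ⊆ Q)).card + 4 := by
    have h1 : C.lines ⊆ (C.lines.filter (fun l => (U ∩ l).Nonempty)) ∪
        (C.lines.filter (fun l => (V ∩ l).Nonempty)) ∪ (C.lines.filter (fun l => l ⊆ Q)) := by
      intro l hl
      rw [mem_union, mem_union, mem_filter, mem_filter, mem_filter]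
      by_cases h2 : (U ∩ l).Nonempty
      · left; left; exact ⟨hl, h2⟩
      · by_cases h3 : (V ∩ l).Nonempty
        · left; right; exact ⟨hl, h3⟩
        · right
          refine ⟨hl, fun x hx => ?_⟩
          have hxU : x ∉ U := fun h => h2 ⟨x, mem_inter.2 ⟨h, hx⟩⟩
          have hxV : x ∉ V := fun h => h3 ⟨x, mem_inter.2 ⟨h, hx⟩⟩
          refine (hQm x).2 ⟨hxU, ?_⟩
          by_contra h4
          exact hxV ((hVm x).2 ⟨hxU, h4⟩)
    have h2 := card_le_card h1
    have h3 := card_union_le ((C.lines.filter (fun l => (U ∩ l).Nonempty)) ∪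
        (C.lines.filter (fun l => (V ∩ l).Nonempty))) (C.lines.filter (fun l => l ⊆ Q))
    have h4 := card_union_le (C.lines.filter (fun l => (U ∩ l).Nonempty))
        (C.lines.filter (fun l => (V ∩ l).Nonempty))
    have h5 := GU.T.meet hUc
    have h6 := GV.T.meet hVc
    have h7 := C.card_lines
    omega
  have hXVQ : XS C V ⊆ Q := by
    intro x hx
    obtain ⟨hxV, l, hl, hxl, hc⟩ := XS_iff.1 hx
    have h0 := GV.z l hl hc x hxl hxV
    refine (hQm x).2 ⟨?_, h0⟩
    intro hxU
    exact hnot l hl ⟨x, mem_inter.2 ⟨hxU, hxl⟩⟩ (card_pos.1 (by omega))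
  have hcolU : Col C v U → False := by
    rintro ⟨M, hM2, hX4, hXM⟩
    exact col_contra R hQ5 hQ6 hRL hXQ hX4 hM2 hXM
  have hcolV : Col C v V → False := by
    rintro ⟨M, hM2, hX4, hXM⟩
    exact col_contra R hQ5 hQ6 hRL hXVQ hX4 hM2 hXM
  have hU6 : 6 ≤ (XS C U).card := by
    rcases hUc with h | h
    · rcases (key4 R GU h).2 with h1 | h1
      · exact absurd h1 hcolU
      · exact h1.1
    · rcases key5 R GU h with h1 | h1
      · exact absurd h1 hcolU
      · exact h1.1
  have hV6 : 6 ≤ (XS C V).card := by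
    rcases hVc with h | h
    · rcases (key4 R GV h).2 with h1 | h1
      · exact absurd h1 hcolV
      · exact h1.1
    · rcases key5 R GV h with h1 | h1
      · exact absurd h1 hcolV
      · exact h1.1
  have h1 := card_le_card hXQ
  have h2 := card_le_card hXVQ
  have eU : XS C U = Q := eq_of_subset_of_card_le hXQ (by omega)
  have eV : XS C V = Q := eq_of_subset_of_card_le hXVQ (by omega)
  have hU4' : U.card = 4 := by omega
  obtain ⟨l, hl, l', hl', hne⟩ := one_lt_card.1
    (show 1 < (C.lines.filter (fun l => l ⊆ Q)).card by omega)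
  obtain ⟨hl, hlQ⟩ := mem_filter.1 hl
  obtain ⟨hl', hlQ'⟩ := mem_filter.1 hl'
  have hQnU : ∀ l ⊆ Q, ¬ (U ∩ l).Nonempty := by
    rintro l hlQ ⟨x, hx⟩
    rw [mem_inter] at hx
    exact ((hQm x).1 (hlQ hx.2)).1 hx.1
  have hQnV : ∀ l ⊆ Q, ¬ (V ∩ l).Nonempty := by
    rintro l hlQ ⟨x, hx⟩
    rw [mem_inter] at hx
    exact ((hVm x).1 hx.1).2 ((hQm x).1 (hlQ hx.2)).2
  have hdis : Disjoint l l' := by
    rw [Finset.disjoint_left]
    intro r hr hr'
    have hrU : r ∈ XS C U := by rw [eU]; exact hlQ hr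
    have hrV : r ∈ XS C V := by rw [eV]; exact hlQ hr
    obtain ⟨_, lU, hlU, hrlU, hcU⟩ := XS_iff.1 hrU
    obtain ⟨_, lV, hlV, hrlV, hcV⟩ := XS_iff.1 hrV
    have hneU : (U ∩ lU).Nonempty := card_pos.1 (by omega)
    have hneV : (V ∩ lV).Nonempty := card_pos.1 (by omega)
    have h3 := card_four_le (s := C.lines.filter (fun l => r ∈ l)) (mem_filter.2 ⟨hl, hr⟩)
      (mem_filter.2 ⟨hl', hr'⟩) (mem_filter.2 ⟨hlU, hrlU⟩) (mem_filter.2 ⟨hlV, hrlV⟩) hne
      (fun h => hQnU l hlQ (h ▸ hneU)) (fun h => hQnV l hlQ (h ▸ hneV))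
      (fun h => hQnU l' hlQ' (h ▸ hneU)) (fun h => hQnV l' hlQ' (h ▸ hneV))
      (fun h => hnot lU hlU hneU (h ▸ hneV))
    rw [C.deg r] at h3
    omega
  have hcov : l ∪ l' = Q := eq_of_subset_of_card_le (union_subset hlQ hlQ') (by
    rw [card_union_of_disjoint hdis, C.card_line l hl, C.card_line l' hl']
    omega)
  rcases (key4 R GU hU4').2 with h3 | h3
  · exact hcolU h3
  · apply h3.2.2 l hl l' hl'
    rw [hcov, eU]

end Pool.Agent.V11177.Conf
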